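import Pool.Agent.Lib.MP_216314_pr.W.Link

/-!
# Finite wedges
-/

set_option autoImplicit false

noncomputable section

namespace FKW

open Finset FKR Real

section

variable {t : Bool} {J a : ℕ} {q : ℝ} {m : ℕ → ℕ}

theorem sumR_eq (ha : a ≤ m 0) : ∑ v ∈ sideR t J m a, pW t J q m a v =
    ∑ x ∈ range (m 0 - a), prob q (wedge t J m) (0, a, 0) (0, a + 1 + x, 0) := by
  have h := sum_R (t := t) (J := J) (q := q) ha
  have h1 : wEE t J a q 0 m = ∑ v ∈ sideR t J m a, pW t J q m a v := by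
    unfold wEE sd
    rw [if_pos rfl]
    rfl
  rw [← h1, h, wedge_eq]
  exact sum_congr rfl (fun x _ => (prob_eq _ _ _ _).symm)

theorem sumL_eq (ha : a ≤ m 0) : ∑ v ∈ sideL t J m a, pW t J q m a v =
    ∑ x ∈ range a, prob q (wedge t J m) (0, a, 0) (0, x, 0) := by
  have h := sum_L (t := t) (J := J) (q := q) ha
  have h1 : wLL t J a q m = ∑ v ∈ sideL t J m a, pW t J q m a v := rfl
  rw [← h1, h, wedge_eq]
  exact sum_congr rfl (fun x _ => (prob_eq _ _ _ _).symm)

theorem sumF_eq (k : ℕ) : ∑ v ∈ sideF t J m k, pW t J q m a v =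
    ∑ v ∈ far t J m k, prob q (wedge t J m) (0, a, 0) v := by
  rw [far_eq, wedge_eq]
  exact sum_congr rfl (fun x _ => (prob_eq _ _ _ _).symm)

theorem nv_side (b : ℕ) : nv t J b = side t J b := rfl

theorem sumN_eq : ∑ v ∈ sideN t J m, pW t J q m a v =
    ∑ b ∈ range ((if t then min (m J) (m (J + 1)) else m (J + 1)) + 1),
      prob q (wedge t J m) (0, a, 0) (side t J b) := by
  have h := sum_N (t := t) (J := J) (q := q) (a0 := a) (y := m)
  have h1 : wEE t J a q (J + 3) m = ∑ v ∈ sideN t J m, pW t J q m a v := by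
    unfold wEE sd
    rw [if_neg (by omega), if_neg (by omega), if_pos rfl]
    rfl
  rw [← h1, h, wedge_eq]
  exact sum_congr rfl (fun x _ => (prob_eq _ _ _ _).symm)

/-- the sum rule -/
theorem rule (hq : 0 < q) (ha : a ≤ m 0) {g : ℤ → ℝ} (hg : ∀ w, g (w + 1) + g (w - 1) = √q * g w) :
    g (-1) * ∑ x ∈ range (m 0 - a), prob q (wedge t J m) (0, a, 0) (0, a + 1 + x, 0) +
      g 3 * ∑ x ∈ range a, prob q (wedge t J m) (0, a, 0) (0, x, 0) +
      ∑ k ∈ range (J + 2), g k * ∑ v ∈ far t J m k, prob q (wedge t J m) (0, a, 0) v +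
      (if t then g (J + 1) + g (J + 2) else g (J + 2)) *
        ∑ b ∈ range ((if t then min (m J) (m (J + 1)) else m (J + 1)) + 1),
          prob q (wedge t J m) (0, a, 0) (side t J b) = g 0 + g 1 + g 2 := by
  have h := WS_rule (t := t) (J := J) ha hq hg
  have hF : ∀ k ∈ range (J + 2), g k * ∑ v ∈ sideF t J m k, pW t J q m a v =
      g k * ∑ v ∈ far t J m k, prob q (wedge t J m) (0, a, 0) v := by
    intro k _
    rw [sumF_eq]
  rw [sumR_eq ha, sumL_eq ha, sumN_eq, sum_congr rfl hF] at h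
  exact h

theorem prob_nonneg (hq : 0 < q) (S : Finset V) (u v : V) : 0 ≤ prob q S u v := by
  rw [prob_eq]
  exact pS_nonneg hq S u v

end

theorem sin_sol (γ c : ℝ) (w : ℤ) : sin ((((w + 1 : ℤ) : ℝ) + c) * γ) +
    sin ((((w - 1 : ℤ) : ℝ) + c) * γ) = 2 * cos γ * sin (((w : ℝ) + c) * γ) := by
  push_cast
  rw [show ((w : ℝ) + 1 + c) * γ = ((w : ℝ) + c) * γ + γ by ring,
    show ((w : ℝ) - 1 + c) * γ = ((w : ℝ) + c) * γ - γ by ring, sin_add, sin_sub]
  ring

theorem cos_sol (γ c : ℝ) (w : ℤ) : cos ((((w + 1 : ℤ) : ℝ) + c) * γ) +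
    cos ((((w - 1 : ℤ) : ℝ) + c) * γ) = 2 * cos γ * cos (((w : ℝ) + c) * γ) := by
  push_cast
  rw [show ((w : ℝ) + 1 + c) * γ = ((w : ℝ) + c) * γ + γ by ring,
    show ((w : ℝ) - 1 + c) * γ = ((w : ℝ) + c) * γ - γ by ring, cos_add, cos_sub]
  ring

theorem sqrt_four_cos {γ : ℝ} (h : 0 ≤ cos γ) : √(4 * cos γ ^ 2) = 2 * cos γ := by
  rw [show 4 * cos γ ^ 2 = (2 * cos γ) ^ 2 by ring, sqrt_sq (by linarith)]

theorem sin_ge {x y : ℝ} (h0 : 0 ≤ y) (h1 : y ≤ x) (h2 : x ≤ π - y) : sin y ≤ sin x := by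
  rcases le_or_gt x (π / 2) with h | h
  · exact sin_le_sin_of_le_of_le_pi_div_two (by linarith) h h1
  · rw [← sin_pi_sub x]
    exact sin_le_sin_of_le_of_le_pi_div_two (by linarith) (by linarith) (by linarith)

theorem num_false (J : ℕ) : (num false J : ℝ) = 2 * J + 2 := by
  unfold num
  simp only [Bool.false_eq_true, if_false, Nat.sub_zero]
  push_cast
  ring

theorem num_true (J : ℕ) : (num true J : ℝ) = 2 * J + 1 := by
  unfold num
  simp only [if_true]
  rw [show 2 * J + 2 - 1 = 2 * J + 1 by omega]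
  push_cast
  ring

/-- the exact formula at the critical value -/
theorem exact {t : Bool} {J a : ℕ} {m : ℕ → ℕ} (ha : a ≤ m 0) {γ q : ℝ}
    (hγ : γ = 2 * π / (num t J + 4)) (hq : q = 4 * cos γ ^ 2) :
    ∑ k ∈ range (J + 2), sin ((k + 1) * γ) *
      ∑ v ∈ far t J m k, prob q (wedge t J m) (0, a, 0) v +
      sin (4 * γ) * ∑ x ∈ range a, prob q (wedge t J m) (0, a, 0) (0, x, 0) =
    sin γ * (q + √q) := by
  obtain ⟨g0, g1⟩ := th_range (num t J)
  rw [← hγ] at g0 g1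
  have hpi := pi_pos
  have hn : (0 : ℝ) ≤ num t J := Nat.cast_nonneg _
  have g2 : γ < π / 2 := by
    have h1 : (1 : ℝ) ≤ num t J := by
      have : 1 ≤ num t J := by
        unfold num
        split_ifs <;> omega
      exact_mod_cast this
    rw [hγ, div_lt_div_iff₀ (by linarith) (by norm_num)]
    nlinarith
  have c0 : 0 < cos γ := cos_pos_of_mem_Ioo ⟨by linarith, g2⟩
  have hs : √q = 2 * cos γ := by rw [hq]; exact sqrt_four_cos c0.le
  have hq0 : 0 < q := by rw [hq]; positivity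
  have h := rule (t := t) (J := J) hq0 ha (g := fun w => sin (((w : ℝ) + 1) * γ))
    (fun w => by rw [hs]; exact sin_sol γ 1 w)
  have hkap : (if t then sin ((((J : ℤ) + 1 : ℤ) + 1 : ℝ) * γ) + sin ((((J : ℤ) + 2 : ℤ) + 1 : ℝ) * γ)
      else sin ((((J : ℤ) + 2 : ℤ) + 1 : ℝ) * γ)) = 0 := by
    cases t with
    | false =>
      simp only [Bool.false_eq_true, if_false]
      rw [num_false] at hγ
      push_cast
      rw [show ((J : ℝ) + 2 + 1) * γ = π by rw [hγ]; field_simp; ring, sin_pi]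
    | true =>
      simp only [if_true]
      rw [num_true] at hγ
      push_cast
      rw [show ((J : ℝ) + 1 + 1) * γ = π - γ / 2 by rw [hγ]; field_simp; ring,
        show ((J : ℝ) + 2 + 1) * γ = γ / 2 + π by rw [hγ]; field_simp; ring, sin_pi_sub,
        sin_add_pi]
      ring
  rw [hkap, zero_mul, add_zero] at h
  have e0 : sin ((((-1 : ℤ) : ℝ) + 1) * γ) = 0 := by norm_num
  rw [e0, zero_mul, zero_add] at h
  have e1 : sin ((((0 : ℤ) : ℝ) + 1) * γ) + sin ((((1 : ℤ) : ℝ) + 1) * γ) +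
      sin ((((2 : ℤ) : ℝ) + 1) * γ) = sin γ * (q + √q) := by
    push_cast
    rw [show ((0 : ℝ) + 1) * γ = γ by ring, show ((1 : ℝ) + 1) * γ = 2 * γ by ring,
      show ((2 : ℝ) + 1) * γ = 3 * γ by ring, sin_two_mul, sin_three_mul, hs, hq]
    have := sin_sq_add_cos_sq γ
    have h3 : sin γ ^ 3 = sin γ * (1 - cos γ ^ 2) := by
      rw [← this]; ring
    rw [h3]
    ring
  rw [e1] at h
  have e3 : sin ((((3 : ℤ) : ℝ) + 1) * γ) = sin (4 * γ) := by
    push_cast
    norm_num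
  rw [e3] at h
  rw [← h, add_comm]
  congr 1

/-- two sided bounds at the critical value -/
theorem bounds {t : Bool} {J : ℕ} {m : ℕ → ℕ} {γ q : ℝ}
    (hγ : γ = 2 * π / (num t J + 4)) (hq : q = 4 * cos γ ^ 2) :
    sin γ * (q + √q) ≤ ∑ k ∈ range (J + 2), ∑ v ∈ far t J m k, prob q (wedge t J m) (0, 0, 0) v ∧
    ∑ k ∈ range (J + 2), ∑ v ∈ far t J m k, prob q (wedge t J m) (0, 0, 0) v ≤ 2 * (q + √q) := by
  have h := exact (t := t) (J := J) (m := m) (Nat.zero_le _) hγ hq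
  rw [range_zero, sum_empty, mul_zero, add_zero] at h
  obtain ⟨g0, g1⟩ := th_range (num t J)
  rw [← hγ] at g0 g1
  have hpi := pi_pos
  have hn : (0 : ℝ) ≤ num t J := Nat.cast_nonneg _
  have g2 : γ < π / 2 := by
    have h1 : (1 : ℝ) ≤ num t J := by
      have : 1 ≤ num t J := by
        unfold num
        split_ifs <;> omega
      exact_mod_cast this
    rw [hγ, div_lt_div_iff₀ (by linarith) (by norm_num)]
    nlinarith
  have c0 : 0 < cos γ := cos_pos_of_mem_Ioo ⟨by linarith, g2⟩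
  have hq0 : 0 < q := by rw [hq]; positivity
  have hsin : 0 < sin γ := sin_pos_of_pos_of_lt_pi g0 (by linarith)
  have hF : ∀ k, 0 ≤ ∑ v ∈ far t J m k, prob q (wedge t J m) (0, 0, 0) v :=
    fun k => sum_nonneg (fun v _ => prob_nonneg hq0 _ _ _)
  constructor
  · rw [← h]
    apply sum_le_sum
    intro k _
    have := mul_le_mul_of_nonneg_right (sin_le_one (((k : ℝ) + 1) * γ)) (hF k)
    linarith
  · have h2 : sin γ / 2 * ∑ k ∈ range (J + 2),
        ∑ v ∈ far t J m k, prob q (wedge t J m) (0, 0, 0) v ≤ sin γ * (q + √q) := by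
      rw [← h, mul_sum]
      apply sum_le_sum
      intro k hk
      rw [mem_range] at hk
      apply mul_le_mul_of_nonneg_right _ (hF k)
      have hk' : (k : ℝ) + 1 ≤ J + 2 := by
        have : k + 1 ≤ J + 2 := by omega
        exact_mod_cast this
      have hk0 : (0 : ℝ) ≤ k := Nat.cast_nonneg k
      have hJ0 : (0 : ℝ) ≤ J := Nat.cast_nonneg J
      have h3 : ((J : ℝ) + 2) * γ ≤ π - γ / 2 := by
        cases t with
        | false =>
          rw [num_false] at hγ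
          have : ((J : ℝ) + 3) * γ = π := by rw [hγ]; field_simp; ring
          linarith
        | true =>
          rw [num_true] at hγ
          have : ((J : ℝ) + 5 / 2) * γ = π := by rw [hγ]; field_simp; ring
          linarith
      have h4 : sin (γ / 2) ≤ sin (((k : ℝ) + 1) * γ) := by
        apply sin_ge (by linarith)
        · nlinarith
        · have : ((k : ℝ) + 1) * γ ≤ ((J : ℝ) + 2) * γ :=
            mul_le_mul_of_nonneg_right hk' g0.le
          linarith
      have h5 : sin γ = 2 * sin (γ / 2) * cos (γ / 2) := by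
        rw [← sin_two_mul]; ring_nf
      have h6 : 0 < sin (γ / 2) := sin_pos_of_pos_of_lt_pi (by linarith) (by linarith)
      have h7 := cos_le_one (γ / 2)
      nlinarith
    have h8 : sin γ / 2 * ∑ k ∈ range (J + 2),
        ∑ v ∈ far t J m k, prob q (wedge t J m) (0, 0, 0) v ≤ sin γ / 2 * (2 * (q + √q)) := by
      linarith
    exact le_of_mul_le_mul_left h8 (by linarith)

/-- a lower bound for smaller values of `q` -/
theorem lower {t : Bool} {J : ℕ} {m : ℕ → ℕ} {γ q : ℝ} (g2 : γ < π / 2) (h1 : 2 * π ≤ (num t J + 4) * γ)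
    (h2 : (num t J + 4) * γ ≤ 6 * π) (hq : q = 4 * cos γ ^ 2) :
    (1 + √q) * cos (((num t J : ℝ) / 4 - 1) * γ) ≤
      ∑ k ∈ range (J + 2), ∑ v ∈ far t J m k, prob q (wedge t J m) (0, 0, 0) v := by
  have hpi := pi_pos
  have hn : (0 : ℝ) ≤ num t J := Nat.cast_nonneg _
  have g0 : 0 < γ := by
    by_contra h
    push Not at h
    nlinarith
  have c0 : 0 < cos γ := cos_pos_of_mem_Ioo ⟨by linarith, g2⟩
  have hs : √q = 2 * cos γ := by rw [hq]; exact sqrt_four_cos c0.le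
  have hq0 : 0 < q := by rw [hq]; positivity
  have hF : ∀ k, 0 ≤ ∑ v ∈ far t J m k, prob q (wedge t J m) (0, 0, 0) v :=
    fun k => sum_nonneg (fun v _ => prob_nonneg hq0 _ _ _)
  have h := rule (t := t) (J := J) (m := m) hq0 (Nat.zero_le (m 0))
    (g := fun w => cos (((w : ℝ) + (-(num t J : ℝ) / 4)) * γ))
    (fun w => by rw [hs]; exact cos_sol γ _ w)
  rw [range_zero, sum_empty, mul_zero, add_zero] at h
  set R := ∑ x ∈ range (m 0 - 0), prob q (wedge t J m) (0, 0, 0) (0, 0 + 1 + x, 0) with hR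
  set N := ∑ b ∈ range ((if t then min (m J) (m (J + 1)) else m (J + 1)) + 1),
    prob q (wedge t J m) (0, 0, 0) (side t J b) with hN
  have R0 : 0 ≤ R := sum_nonneg (fun v _ => prob_nonneg hq0 _ _ _)
  have N0 : 0 ≤ N := sum_nonneg (fun v _ => prob_nonneg hq0 _ _ _)
  have cneg : cos (((num t J : ℝ) / 4 + 1) * γ) ≤ 0 := by
    apply cos_nonpos_of_pi_div_two_le_of_le
    · linarith
    · linarith
  have e1 : cos ((((-1 : ℤ) : ℝ) + (-(num t J : ℝ) / 4)) * γ) ≤ 0 := by
    rw [← cos_neg]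
    push_cast
    rw [show -((-1 + -(num t J : ℝ) / 4) * γ) = ((num t J : ℝ) / 4 + 1) * γ by ring]
    exact cneg
  have e2 : (if t then cos ((((J : ℤ) + 1 : ℤ) + (-(num t J : ℝ) / 4) : ℝ) * γ) +
      cos ((((J : ℤ) + 2 : ℤ) + (-(num t J : ℝ) / 4) : ℝ) * γ)
      else cos ((((J : ℤ) + 2 : ℤ) + (-(num t J : ℝ) / 4) : ℝ) * γ)) ≤ 0 := by
    cases t with
    | false =>
      simp only [Bool.false_eq_true, if_false]
      push_cast
      rw [num_false] at cneg ⊢
      rw [show ((J : ℝ) + 2 + -(2 * (J : ℝ) + 2) / 4) * γ = ((2 * (J : ℝ) + 2) / 4 + 1) * γ by ring]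
      exact cneg
    | true =>
      simp only [if_true]
      push_cast
      rw [num_true] at cneg ⊢
      rw [show ((J : ℝ) + 1 + -(2 * (J : ℝ) + 1) / 4) * γ =
        ((2 * (J : ℝ) + 1) / 4 + 1) * γ - γ / 2 by ring,
        show ((J : ℝ) + 2 + -(2 * (J : ℝ) + 1) / 4) * γ =
        ((2 * (J : ℝ) + 1) / 4 + 1) * γ + γ / 2 by ring, cos_sub, cos_add]
      have h7 : 0 < cos (γ / 2) := cos_pos_of_mem_Ioo ⟨by linarith, by linarith⟩
      nlinarith
  have e3 : cos ((((0 : ℤ) : ℝ) + (-(num t J : ℝ) / 4)) * γ) +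
      cos ((((1 : ℤ) : ℝ) + (-(num t J : ℝ) / 4)) * γ) +
      cos ((((2 : ℤ) : ℝ) + (-(num t J : ℝ) / 4)) * γ) =
      (1 + √q) * cos (((num t J : ℝ) / 4 - 1) * γ) := by
    rw [hs]
    push_cast
    set x := ((num t J : ℝ) / 4 - 1) * γ with hx
    rw [show ((0 : ℝ) + -(num t J : ℝ) / 4) * γ = -x - γ by rw [hx]; ring,
      show ((1 : ℝ) + -(num t J : ℝ) / 4) * γ = -x by rw [hx]; ring,
      show ((2 : ℝ) + -(num t J : ℝ) / 4) * γ = -x + γ by rw [hx]; ring, cos_sub, cos_add, cos_neg,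
      sin_neg]
    ring
  rw [e3] at h
  rw [← h]
  have s1 := mul_nonpos_of_nonpos_of_nonneg e1 R0
  have s2 := mul_nonpos_of_nonpos_of_nonneg e2 N0
  have s3 : ∑ k ∈ range (J + 2), cos ((((k : ℤ) : ℝ) + (-(num t J : ℝ) / 4)) * γ) *
      ∑ v ∈ far t J m k, prob q (wedge t J m) (0, 0, 0) v ≤
      ∑ k ∈ range (J + 2), ∑ v ∈ far t J m k, prob q (wedge t J m) (0, 0, 0) v := by
    apply sum_le_sum
    intro k _
    have := mul_le_mul_of_nonneg_right (cos_le_one ((((k : ℤ) : ℝ) + (-(num t J : ℝ) / 4)) * γ)) (hF k)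
    linarith
  linarith

end FKW
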