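import Pool.Agent.Lib.MP_216314_pr.W.Raw

/-!
# Either a valley between two different arcs, or the nest

Proof hints.
* `exists_valley`: take x with x < f x (x or f x works). y = f x - k L < x for a suitable k >= 1 is a closer: f y = x - k L < y. So there are y < x with f y < y and x < f x. Induction on x - y:
  the largest i in [y, x) with f i < i satisfies i + 1 <= x and i + 1 < f (i + 1) (f (i+1) ≠ i + 1).
* `nest_of`: hypothesis hv: no valley between different arcs, c with f c = c + L - 1 (L >= 2). Claim by strong induction on j : ℕ (0 <= j, 2 j < L): f (c + j) = c + L - 1 - j.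
  By induction all arcs (c + j', c + L - 1 - j'), j' < j, so by nc the interval I = [c + j, c + L - 1 - j] is mapped to itself (j = 0: f c given; for j >= 1 apply nc to x = c + j - 1).
  t = f (c + j) ∈ I, t ≠ c + j, so t > c + j. Suppose t < c + L - 1 - j. t is a closer. s = t + 1 ∈ I. f s: in I (nc), and not in [c + j, t] (nc for x = c + j, its image would be inside [c+j,t] as well:
  if c + j < f s < t then nc for x = c + j, y = f s: f (f s) = s < t contradiction; f s = c + j iff s = t; f s = t iff s = c + j). So f s > s. Valley at t: f t < t, t + 1 < f (t + 1), and f (t + 1) <= c + L - 1 - j < t + L.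
  Contradiction with hv. The second half of the interval by inv: x = c + L - 1 - j, f x = c + j.
* `valley_or_nest`: by_contra / by_cases: if no valley between different arcs, take a valley i (exists_valley), f (i + 1) = i + L, c = i + 1.
-/

set_option autoImplicit false

noncomputable section

namespace PX

open Finset

variable {L : ℤ} {f : ℤ → ℤ}

private theorem Nest_aux (h : Nci L f) (m : ℕ) : ∀ y, f y < y → y + m < f (y + m) →
    ∃ i, f i < i ∧ i + 1 < f (i + 1) := by
  induction m with
  | zero =>
    intro y h1 h2
    rw [Nat.cast_zero, add_zero] at h2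
    omega
  | succ m ih =>
    intro y h1 h2
    by_cases h3 : y + 1 < f (y + 1)
    · exact ⟨y, h1, h3⟩
    · have h4 := h.ne (y + 1)
      refine ih (y + 1) (by omega) ?_
      have e : y + 1 + (m : ℤ) = y + ((m + 1 : ℕ) : ℤ) := by push_cast; ring
      rw [e]
      exact h2

private theorem Nest_claim (h : Nci L f)
    (hv : ∀ i, f i < i → i + 1 < f (i + 1) → f (i + 1) = i + L) (c : ℤ)
    (hc : f c = c + L - 1) (j : ℕ) : 2 * (j : ℤ) < L → f (c + j) = c + L - 1 - j := by
  induction j with
  | zero =>
    intro _
    rw [Nat.cast_zero, add_zero, sub_zero]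
    exact hc
  | succ j ih =>
    intro hj
    have hj1 : 2 * ((j : ℤ) + 1) < L := by
      have : ((j + 1 : ℕ) : ℤ) = (j : ℤ) + 1 := by push_cast; ring
      rw [this] at hj
      exact hj
    have h1 := ih (by omega)
    have e0 : c + ((j + 1 : ℕ) : ℤ) = c + j + 1 := by push_cast; ring
    rw [e0]
    have h2 := h.nc (c + j) (c + j + 1) (by omega) (by omega)
    have h3 := h.ne (c + j + 1)
    have h4 := h.inv (c + j + 1)
    rcases h2 with ⟨h2a, h2b⟩
    generalize ht : f (c + j + 1) = t at h2a h2b h3 h4
    by_cases h5 : t < c + L - 2 - j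
    · exfalso
      have h6 := h.nc (c + j) (t + 1) (by omega) (by omega)
      rcases h6 with ⟨h6a, h6b⟩
      have h7 := h.ne (t + 1)
      have h8 := h.inv (t + 1)
      generalize hu : f (t + 1) = u at h6a h6b h7 h8
      by_cases h9 : u < t + 1
      · have h10 : u ≠ t := by
          intro h11
          rw [h11, h4] at h8
          omega
        have h12 : u ≠ c + j + 1 := by
          intro h11
          rw [h11, ht] at h8
          omega
        have h13 := h.nc (c + j + 1) u (by omega) (by rw [ht]; omega)
        rw [h8, ht] at h13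
        omega
      · have h14 := hv t (by rw [h4]; omega) (by rw [hu]; omega)
        rw [hu] at h14
        omega
    · push_cast
      omega

theorem exists_valley (h : Nci L f) : ∃ i, f i < i ∧ i + 1 < f (i + 1) := by
  have h0 : ∃ x, x < f x := by
    rcases lt_or_gt_of_ne (h.ne 0) with h1 | h1
    · exact ⟨f 0, by rw [h.inv]; exact h1⟩
    · exact ⟨0, h1⟩
  obtain ⟨x, hx⟩ := h0
  have h1 := h.lt_add x
  have h2 : f (f x - L) = x - L := by
    have h3 := h.per_mul (f x) (-1)
    rw [h.inv] at h3
    have e : f x + -1 * L = f x - L := by ring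
    rw [e] at h3
    rw [h3]
    ring
  refine Nest_aux h (x - (f x - L)).toNat (f x - L) (by rw [h2]; omega) ?_
  have e : f x - L + ((x - (f x - L)).toNat : ℤ) = x := by
    rw [Int.toNat_of_nonneg (by omega)]
    ring
  rw [e]
  exact hx

theorem nest_of (h : Nci L f) (hv : ∀ i, f i < i → i + 1 < f (i + 1) → f (i + 1) = i + L) (c : ℤ)
    (hc : f c = c + L - 1) : ∀ x, c ≤ x → x < c + L → f x = 2 * c + L - 1 - x := by
  intro x h1 h2
  by_cases h3 : 2 * (x - c) < L
  · have h4 := Nest_claim h hv c hc (x - c).toNat (by rw [Int.toNat_of_nonneg (by omega)]; exact h3)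
    rw [Int.toNat_of_nonneg (by omega)] at h4
    have e : c + (x - c) = x := by ring
    rw [e] at h4
    rw [h4]
    ring
  · have h4 := Nest_claim h hv c hc (c + L - 1 - x).toNat
      (by rw [Int.toNat_of_nonneg (by omega)]; omega)
    rw [Int.toNat_of_nonneg (by omega)] at h4
    have e : c + L - 1 - (c + L - 1 - x) = x := by ring
    have e2 : c + (c + L - 1 - x) = 2 * c + L - 1 - x := by ring
    rw [e, e2] at h4
    have h5 := h.inv (2 * c + L - 1 - x)
    rw [h4] at h5
    exact h5

theorem valley_or_nest (h : Nci L f) :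
    (∃ i, f i < i ∧ i + 1 < f (i + 1) ∧ f (i + 1) ≠ i + L) ∨
      ∃ c, ∀ x, c ≤ x → x < c + L → f x = 2 * c + L - 1 - x := by
  by_cases hv : ∃ i, f i < i ∧ i + 1 < f (i + 1) ∧ f (i + 1) ≠ i + L
  · exact Or.inl hv
  · right
    have hv' : ∀ i, f i < i → i + 1 < f (i + 1) → f (i + 1) = i + L := by
      intro i h1 h2
      by_contra h3
      exact hv ⟨i, h1, h2, h3⟩
    obtain ⟨i, h1, h2⟩ := exists_valley h
    refine ⟨i + 1, nest_of h hv' (i + 1) ?_⟩
    rw [hv' i h1 h2]
    ring

end PX
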