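import Pool.Agent.Lib.MP_216314_pr.W.RkE

/-!
# Triangularity

Proof hints. `a = f 0 < 0`, `b = f 1 > 1`, `b ≠ L`; `h = eF L 0 f` (hypothesis `hh : Nci L (eF L 0 f)`).
* `val_range`: a > 1 - L: a > -L (sub_lt), a ≠ 1 - L [f 0 = 1 - L gives f (1 - L) = 0, f 1 = L by per, excluded].  b < L: b < 1 + L (lt_add), b ≠ L.
  b < a + L: f L = a + L (per), a + L ∈ (1, L). If a + L < b: nc for x = 1, y = a + L: f (a + L) = L < b, contradiction. If a + L = b: f b = 1 and f (a + L) = L, contradiction.
* `rk_up`: rkF_eF with i = 0: 2 (1 + (b - a) - (-a) - (b - 1)) = 4.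
* `tri_raw`: g with eF L 0 g = eF L 0 f.
  g 0 = 1: eF_of_small: g = eF L 0 f, rank + 4.
  g 0 = 1 - L: g 1 = L. a is not in the classes of 0, 1 (a ∈ (1 - L, 0)), and g 0, g 1 are in the classes of 1, 0, so eF_other: g a = eF L 0 g a = eF L 0 f a = b (eF_p). nc for g, x = a, y = 1 (a < 1 < b): g 1 = L < b, contradiction.
  Otherwise p = g 0, q = g 1, eF L 0 f p = q, eF L 0 f q = p (eF_p, eF_q for g).
   (A) p < 0, 1 < q: show p = a. The bounds for g: val_range (q ≠ L since otherwise g 0 = 1 - L): 1 - L < p, q < p + L.
       If a < p: (class of p: in (a, 0), p not in the classes of 0, 1, a, b because b - L < a < p < 0 < b) so f p = eF L 0 f p = q > 1; but nc' / nc for f at x = a: f a = 0, a < p < 0, so f p < 0. Contradiction.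
       If p < a: a is not in the classes of 0, 1, p, q (q - L < p < a < 0 < q), so g a = eF L 0 g a = eF L 0 f a = b > 1, and nc for g at x = p (g p = 0): p < a < 0 gives g a < 0. Contradiction.
       So p = a, q = eF L 0 f p = eF L 0 f a = b. Then g = f (funext x): x in the class of 0, 1, a or b: per_dvd for f and g (g a = 0 = f a, g b = 1 = f b); otherwise eF_other for both.
   (B) 1 < p, 1 < q: nc for g: 0 < 1 < p = g 0 gives q < p; rkF_eF for g: rkF h = rkF g + 2 (1 + (p - q) - p - (q - 1)) = rkF g + 4 (1 - q) < rkF g. So rkF f < rkF h < rkF g.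
   (C) p < 0, q < 0: nc for g at x = q (g q = 1): q < 0 < 1 gives q < p: rkF h = rkF g + 2 (1 + (p - q) + p - (1 - q)) = rkF g + 4 p < rkF g.
   (D) 1 < p, q < 0: nc for g at x = q, y = 0: g 0 = p < 1. Contradiction.
-/

set_option autoImplicit false

noncomputable section

namespace PX

open Finset

variable {L : ℤ} {f : ℤ → ℤ}

/-- no multiple of `L` strictly between `-L` and `L` except zero -/
private theorem tri_nd {L y : ℤ} (h0 : y ≠ 0) (h1 : -L < y) (h2 : y < L) : ¬ L ∣ y := by
  intro hd
  rcases lt_or_gt_of_ne h0 with h | h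
  · have h3 := Int.le_of_dvd (by omega : 0 < -y) ((dvd_neg).2 hd)
    omega
  · have h3 := Int.le_of_dvd h hd
    omega

theorem val_range (h : Nci L f) (h0 : f 0 < 0) (h1 : 1 < f 1) (h2 : f 1 ≠ L) :
    1 - L < f 0 ∧ f 1 < L ∧ f 1 < f 0 + L := by
  have a1 := h.sub_lt 0
  have b1 := h.lt_add 1
  have pL : f L = f 0 + L := by
    have e := h.per 0
    rwa [zero_add] at e
  have ha : f 0 ≠ 1 - L := by
    intro e
    have e1 := h.inv 0
    rw [e] at e1
    have e2 := h.per (1 - L)
    rw [sub_add_cancel, e1, zero_add] at e2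
    exact h2 e2
  have c1 : 1 - L < f 0 := by omega
  have c2 : f 1 < L := by omega
  refine ⟨c1, c2, ?_⟩
  by_contra hc
  have e3 : f (f 0 + L) = L := by rw [h.per, h.inv, zero_add]
  rcases lt_or_eq_of_le (not_lt.1 hc) with h3 | h3
  · have h4 := (h.nc 1 (f 0 + L) (by omega) h3).2
    rw [e3] at h4
    omega
  · rw [h3, h.inv] at e3
    have := h.two_le
    omega

theorem rk_up (h : Nci L f) (h0 : f 0 < 0) (h1 : 1 < f 1) (h2 : f 1 ≠ L) :
    rkF L (eF L 0 f) = rkF L f + 4 := by
  obtain ⟨c1, c2, c3⟩ := val_range h h0 h1 h2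
  have key := rkF_eF h 0 (by omega) (by omega)
  simp only [zero_add, sub_zero] at key
  rw [abs_of_pos (by omega : 0 < f 1 - f 0), abs_of_neg h0,
    abs_of_pos (by omega : 0 < f 1 - 1)] at key
  rw [key]
  ring

theorem tri_raw (h : Nci L f) (h0 : f 0 < 0) (h1 : 1 < f 1) (h2 : f 1 ≠ L)
    (g : ℤ → ℤ) (hg : Nci L g) (he : eF L 0 g = eF L 0 f) : g = f ∨ rkF L f < rkF L g := by
  obtain ⟨c1, c2, c3⟩ := val_range h h0 h1 h2
  have hup := rk_up h h0 h1 h2
  have h0' : f 0 ≠ 0 + 1 := by omega
  have h0'' : f 0 ≠ 0 + 1 - L := by omega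
  have fp : eF L 0 f (f 0) = f 1 := eF_p h 0 h0' h0''
  by_cases g1 : g 0 = 1
  · right
    have e1 := eF_of_small hg 0 (by rw [g1, zero_add])
    rw [← e1, he, hup]
    omega
  by_cases g2 : g 0 = 1 - L
  · exfalso
    have e1 : g 1 = L := by
      have e2 := hg.inv 0
      rw [g2] at e2
      have e3 := hg.per (1 - L)
      rw [sub_add_cancel, e2, zero_add] at e3
      exact e3
    have e4 : eF L 0 g (f 0) = g (f 0) := by
      refine eF_other hg 0 (f 0) ?_ ?_ ?_ ?_
      · exact tri_nd (by omega) (by omega) (by omega)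
      · exact tri_nd (by omega) (by omega) (by omega)
      · rw [g2]
        exact tri_nd (by omega) (by omega) (by omega)
      · rw [zero_add, e1]
        intro hd
        have hd' : L ∣ f 0 := by
          have e5 : f 0 = f 0 - L + L := by ring
          rw [e5]
          exact dvd_add hd dvd_rfl
        exact tri_nd (by omega) (by omega) (by omega) hd'
    rw [he, fp] at e4
    have h3 := (hg.nc (f 0) 1 (by omega) (by rw [← e4]; exact h1)).2
    rw [e1, ← e4] at h3
    omega
  have g1' : g 0 ≠ 0 + 1 := by omega
  have g2' : g 0 ≠ 0 + 1 - L := by omega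
  have gp : eF L 0 g (g 0) = g 1 := eF_p hg 0 g1' g2'
  have gq : eF L 0 g (g 1) = g 0 := eF_q hg 0 g1' g2'
  have gne0 := hg.ne 0
  have gne1 := hg.ne 1
  have gq0 : g 1 ≠ 0 := by
    intro e
    have e1 := hg.inv 1
    rw [e] at e1
    exact g1 e1
  have hr := rkF_eF hg 0 g1' g2'
  simp only [zero_add, sub_zero] at hr
  rw [he, hup] at hr
  rcases lt_or_gt_of_ne gne0 with p0 | p0
  · rcases lt_or_gt_of_ne gq0 with q0 | q0
    · -- both negative
      right
      have h3 := (hg.nc (g 1) 0 q0 (by rw [hg.inv]; exact one_pos)).1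
      rw [abs_of_neg (by omega : g 1 - g 0 < 0), abs_of_neg p0,
        abs_of_neg (by omega : g 1 - 1 < 0)] at hr
      omega
    · left
      have q1 : 1 < g 1 := by omega
      have qL : g 1 ≠ L := by
        intro e
        have e1 := hg.inv 1
        rw [e] at e1
        have e2 := hg.per 0
        rw [zero_add, e1] at e2
        omega
      obtain ⟨d1, d2, d3⟩ := val_range hg p0 q1 qL
      have hpa : g 0 = f 0 := by
        rcases lt_trichotomy (g 0) (f 0) with hlt | heq | hgt
        · exfalso
          have e1 : eF L 0 g (f 0) = g (f 0) := by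
            refine eF_other hg 0 (f 0) ?_ ?_ ?_ ?_
            · exact tri_nd (by omega) (by omega) (by omega)
            · exact tri_nd (by omega) (by omega) (by omega)
            · exact tri_nd (by omega) (by omega) (by omega)
            · rw [zero_add]
              intro hd
              have hd' : L ∣ f 0 + L - g 1 := by
                have e5 : f 0 + L - g 1 = f 0 - g 1 + L := by ring
                rw [e5]
                exact dvd_add hd dvd_rfl
              exact tri_nd (by omega) (by omega) (by omega) hd'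
          rw [he, fp] at e1
          have h3 := (hg.nc (g 0) (f 0) hlt (by rw [hg.inv]; exact h0)).2
          rw [← e1, hg.inv] at h3
          omega
        · exact heq
        · exfalso
          have e1 : eF L 0 f (g 0) = f (g 0) := by
            refine eF_other h 0 (g 0) ?_ ?_ ?_ ?_
            · exact tri_nd (by omega) (by omega) (by omega)
            · exact tri_nd (by omega) (by omega) (by omega)
            · exact tri_nd (by omega) (by omega) (by omega)
            · rw [zero_add]
              intro hd
              have hd' : L ∣ g 0 + L - f 1 := by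
                have e5 : g 0 + L - f 1 = g 0 - f 1 + L := by ring
                rw [e5]
                exact dvd_add hd dvd_rfl
              exact tri_nd (by omega) (by omega) (by omega) hd'
          rw [← he, gp] at e1
          have h3 := (h.nc (f 0) (g 0) hgt (by rw [h.inv]; exact p0)).2
          rw [← e1, h.inv] at h3
          omega
      have hqb : g 1 = f 1 := by rw [← gp, he, hpa, fp]
      funext x
      by_cases x0 : L ∣ x - 0
      · have u1 := h.per_dvd x0
        have u2 := hg.per_dvd x0
        omega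
      by_cases x1 : L ∣ x - 1
      · have u1 := h.per_dvd x1
        have u2 := hg.per_dvd x1
        omega
      by_cases x2 : L ∣ x - f 0
      · have u1 := h.per_dvd x2
        have u2 := hg.per_dvd x2
        have u3 := h.inv 0
        have u4 := hg.inv 0
        rw [hpa] at u4
        omega
      by_cases x3 : L ∣ x - f 1
      · have u1 := h.per_dvd x3
        have u2 := hg.per_dvd x3
        have u3 := h.inv 1
        have u4 := hg.inv 1
        rw [hqb] at u4
        omega
      rw [← eF_other h 0 x x0 (by rwa [zero_add]) x2 (by rwa [zero_add]),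
        ← eF_other hg 0 x x0 (by rwa [zero_add]) (by rwa [hpa]) (by rwa [zero_add, hqb]), he]
  · rcases lt_or_gt_of_ne gq0 with q0 | q0
    · exfalso
      have h3 := (hg.nc (g 1) 0 q0 (by rw [hg.inv]; exact one_pos)).2
      rw [hg.inv] at h3
      omega
    · right
      have h3 := (hg.nc 0 1 one_pos (by omega)).2
      rw [abs_of_neg (by omega : g 1 - g 0 < 0), abs_of_pos p0,
        abs_of_pos (by omega : 0 < g 1 - 1)] at hr
      omega

end PX
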