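import Pool.Agent.Lib.MP_216314_pr.W.Push
import Pool.Agent.Lib.MP_216314_pr.W.Tri
import Pool.Agent.Lib.MP_216314_pr.W.Nest
import Pool.Agent.Lib.MP_216314_pr.Z.RelB

/-!
# Link patterns as an instance of the abstract structure
-/

set_option autoImplicit false

noncomputable section

namespace CY

open Finset

variable {L : ℕ}

theorem eFun_eq (L : ℕ) (i : ℤ) (f : ℤ → ℤ) : eFun L i f = PX.eF (L : ℤ) i f := by
  funext x
  unfold eFun PX.eF
  simp only [sub_sub]

theorem Pat.nci (α : Pat L) : PX.Nci (L : ℤ) α.f :=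
  ⟨by exact_mod_cast α.pos, α.inv, α.per, α.ne, α.nc⟩

theorem Pat.e_eF (i : ℤ) (α : Pat L) : (Pat.e i α).f = PX.eF (L : ℤ) i α.f := by
  funext x
  rw [Pat.e_f, eFun_eq]

/-- two patterns which agree on the sites `0, ..., L - 1` are equal -/
theorem Pat.ext_range {α β : Pat L} (h : ∀ x : ℤ, 0 ≤ x → x < L → α.f x = β.f x) : α = β := by
  apply Pat.ext
  funext x
  have hL : (0 : ℤ) < L := by exact_mod_cast α.pos
  have h1 := h (x % L) (Int.emod_nonneg x hL.ne') (Int.emod_lt_of_pos x hL)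
  have e : x = x % L + (x / L) * L := by
    have := Int.emod_add_mul_ediv x L
    linarith
  have h2 := α.nci.per_mul (x % L) (x / L)
  have h3 := β.nci.per_mul (x % L) (x / L)
  rw [← e] at h2 h3
  rw [h2, h3, h1]

/-- rotation as a permutation of the patterns -/
def rhoE (L : ℕ) : Pat L ≃ Pat L where
  toFun := Pat.rot
  invFun := Pat.rotInv
  left_inv := Pat.rotInv_rot
  right_inv := Pat.rot_rotInv

/-- the generators with natural index -/
def eN (L : ℕ) (i : ℕ) : Pat L → Pat L := Pat.e (i : ℤ)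

/-- rank -/
def rkP (α : Pat L) : ℕ := (PX.rkF (L : ℤ) α.f).toNat

theorem rkF_nonneg (α : Pat L) : 0 ≤ PX.rkF (L : ℤ) α.f :=
  Finset.sum_nonneg fun _ _ => abs_nonneg _

theorem rkP_lt {α β : Pat L} (h : PX.rkF (L : ℤ) α.f < PX.rkF (L : ℤ) β.f) : rkP α < rkP β := by
  unfold rkP
  have := rkF_nonneg α
  omega

theorem rot_f_iterate (α : Pat L) (k : ℕ) (x : ℤ) : (Pat.rot^[k] α).f x = α.f (x + k) - k := by
  induction k generalizing x with
  | zero => simp
  | succ k ih =>
    rw [Function.iterate_succ_apply']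
    show (Pat.rot^[k] α).f (x + 1) - 1 = _
    rw [ih]
    push_cast
    have e : x + 1 + (k : ℤ) = x + ((k : ℤ) + 1) := by ring
    rw [e]
    ring

theorem evn_f (n m : ℕ) (hm : m ≤ n + 1) (α : Pat (2 * n + 2)) :
    ∀ k, k < m → (PX.evn (eN (2 * n + 2)) m α).f (2 * (k : ℤ)) = 2 * (k : ℤ) + 1 := by
  induction m with
  | zero => intro k hk; omega
  | succ m ih =>
    intro k hk
    show (Pat.e ((2 * m : ℕ) : ℤ) (PX.evn (eN (2 * n + 2)) m α)).f (2 * (k : ℤ)) = _
    push_cast
    rcases Nat.lt_or_ge k m with h1 | h1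
    · have h2 := ih (by omega) k h1
      have d1 : ¬ ((2 * n + 2 : ℕ) : ℤ) ∣ 2 * (k : ℤ) - 2 * (m : ℤ) := by
        rintro ⟨c, hc⟩
        push_cast at hc
        have hc0 : -1 < c := by nlinarith
        have hc1 : c < 0 := by nlinarith
        omega
      have d2 : ¬ ((2 * n + 2 : ℕ) : ℤ) ∣ 2 * (k : ℤ) - 2 * (m : ℤ) - 1 := by
        rintro ⟨c, hc⟩
        push_cast at hc
        have hc0 : -1 < c := by nlinarith
        have hc1 : c < 0 := by nlinarith
        omega
      have d3 : ¬ ((2 * n + 2 : ℕ) : ℤ) ∣ 2 * (k : ℤ) + 1 - 2 * (m : ℤ) := by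
        rintro ⟨c, hc⟩
        push_cast at hc
        have hc0 : -1 < c := by nlinarith
        have hc1 : c < 0 := by nlinarith
        omega
      have d4 : ¬ ((2 * n + 2 : ℕ) : ℤ) ∣ 2 * (k : ℤ) + 1 - 2 * (m : ℤ) - 1 := by
        rintro ⟨c, hc⟩
        apply d1
        exact ⟨c, by linarith⟩
      rw [Pat.e_of_not _ _ _ d1 d2 (by rw [h2]; exact d3) (by rw [h2]; exact d4), h2]
    · have e : k = m := by omega
      rw [e]
      exact Pat.e_left _ _

theorem pat_eq_of_small (n : ℕ) {α β : Pat (2 * n + 2)}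
    (ha : ∀ k, k < n + 1 → α.f (2 * (k : ℤ)) = 2 * (k : ℤ) + 1)
    (hb : ∀ k, k < n + 1 → β.f (2 * (k : ℤ)) = 2 * (k : ℤ) + 1) : α = β := by
  apply Pat.ext_range
  intro x h0 h1
  obtain ⟨k, hk⟩ : ∃ k : ℕ, x = 2 * (k : ℤ) ∨ x = 2 * (k : ℤ) + 1 := by
    refine ⟨(x / 2).toNat, ?_⟩
    omega
  push_cast at h1
  rcases hk with hk | hk
  · rw [hk, ha k (by omega), hb k (by omega)]
  · have h2 := α.inv (2 * (k : ℤ))
    have h3 := β.inv (2 * (k : ℤ))
    rw [ha k (by omega)] at h2
    rw [hb k (by omega)] at h3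
    rw [hk, h2, h3]

/-- a rotation of the nest is the reference pattern -/
theorem rot_nest {n : ℕ} {α ref : Pat (2 * n + 2)} (hr : IsRef ref) (c : ℤ)
    (h : ∀ x, c ≤ x → x < c + (2 * n + 2) → α.f x = 2 * c + (2 * n + 2) - 1 - x) :
    ∃ k : ℕ, Pat.rot^[k] α = ref := by
  -- k = c + n + 1 + m L, a natural number
  obtain ⟨m, hm⟩ : ∃ m : ℕ, 0 ≤ c + (n + 1) + m * (2 * n + 2) := by
    refine ⟨(-(c + (n + 1))).toNat, ?_⟩
    have h1 : -(c + (n + 1)) ≤ ((-(c + (n + 1))).toNat : ℤ) := Int.self_le_toNat _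
    have h2 : (0 : ℤ) ≤ ((-(c + (n + 1))).toNat : ℤ) := by positivity
    have h3 : (0 : ℤ) ≤ (n : ℤ) := by positivity
    nlinarith
  refine ⟨(c + (n + 1) + m * (2 * n + 2)).toNat, ?_⟩
  set k := (c + ((n : ℤ) + 1) + m * (2 * n + 2)).toNat with hk
  have hkk : (k : ℤ) = c + ((n : ℤ) + 1) + m * (2 * n + 2) := Int.toNat_of_nonneg hm
  refine IsRef.unique ?_ hr
  intro x hx1 hx2
  push_cast at hx1 hx2
  rw [rot_f_iterate, hkk]
  have e : x + (c + ((n : ℤ) + 1) + m * (2 * n + 2)) = (x + c + (n + 1)) + (m : ℤ) * ((2 * n + 2 : ℕ) : ℤ) := by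
    push_cast; ring
  rw [e, α.nci.per_mul, h _ (by linarith) (by linarith)]
  push_cast
  ring

theorem tri_pat {n : ℕ} {ref : Pat (2 * n + 2)} (hr : IsRef ref) (α : Pat (2 * n + 2)) :
    ∃ k : ℕ, (Pat.rot^[k] α = ref) ∨
      ∃ i, i < 2 * n + 1 ∧ rkP α < rkP (eN (2 * n + 2) i (Pat.rot^[k] α)) ∧
        ∀ c, eN (2 * n + 2) i c = eN (2 * n + 2) i (Pat.rot^[k] α) → c = Pat.rot^[k] α ∨ rkP α < rkP c := by
  have rk_it : ∀ k, PX.rkF ((2 * n + 2 : ℕ) : ℤ) (Pat.rot^[k] α).f = PX.rkF ((2 * n + 2 : ℕ) : ℤ) α.f := by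
    intro k
    induction k with
    | zero => rfl
    | succ k ih =>
      rw [Function.iterate_succ_apply', ← ih]
      exact PX.rkF_rot (Pat.rot^[k] α).nci
  rcases PX.valley_or_nest α.nci with ⟨i, h1, h2, h3⟩ | ⟨c, hc⟩
  · -- rotate the valley to `0`
    set L' : ℤ := ((2 * n + 2 : ℕ) : ℤ) with hL'
    have hLp : 0 < L' := by rw [hL']; positivity
    set k := (i % L').toNat with hk
    have hkk : (k : ℤ) = i % L' := Int.toNat_of_nonneg (Int.emod_nonneg i hLp.ne')
    have hi : i = (k : ℤ) + (i / L') * L' := by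
      rw [hkk]
      have := Int.emod_add_mul_ediv i L'
      linarith
    refine ⟨k, Or.inr ⟨0, by omega, ?_⟩⟩
    set β := Pat.rot^[k] α with hβ
    have f0 : β.f 0 = α.f i - i := by
      rw [hβ, rot_f_iterate, zero_add]
      have := α.nci.per_mul k (i / L')
      rw [← hi] at this
      linarith
    have f1 : β.f 1 = α.f (i + 1) - i := by
      rw [hβ, rot_f_iterate]
      have := α.nci.per_mul (1 + k) (i / L')
      have e : 1 + (k : ℤ) + i / L' * L' = i + 1 := by linarith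
      rw [e] at this
      linarith
    have g0 : β.f 0 < 0 := by rw [f0]; linarith
    have g1 : 1 < β.f 1 := by rw [f1]; linarith
    have g2 : β.f 1 ≠ L' := by
      rw [f1]
      intro h4
      apply h3
      linarith
    constructor
    · apply rkP_lt
      show _ < PX.rkF L' (Pat.e ((0 : ℕ) : ℤ) β).f
      rw [Pat.e_eF, Nat.cast_zero, PX.rk_up β.nci g0 g1 g2, hβ, rk_it k]
      linarith
    · intro c hc
      have hc' : PX.eF L' 0 c.f = PX.eF L' 0 β.f := by
        have h5 := congrArg Pat.f hc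
        unfold eN at h5
        rw [Pat.e_eF, Pat.e_eF] at h5
        exact h5
      rcases PX.tri_raw β.nci g0 g1 g2 c.f c.nci hc' with h5 | h5
      · left
        exact Pat.ext h5
      · right
        apply rkP_lt
        rw [hβ, rk_it k] at h5
        exact h5
  · obtain ⟨k, hk⟩ := rot_nest hr c (by
      intro x h1 h2
      have := hc x h1 (by push_cast; linarith)
      push_cast at this
      exact this)
    exact ⟨k, Or.inl hk⟩

theorem e_ne_ref {n : ℕ} {ref : Pat (2 * n + 2)} (hr : IsRef ref) (i : ℕ) (hi : i < 2 * n + 1)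
    (α : Pat (2 * n + 2)) : eN (2 * n + 2) i α ≠ ref := by
  intro h
  have h1 : ref.f (i : ℤ) = (i : ℤ) + 1 := by
    rw [← h]
    exact Pat.e_left _ _
  rcases Nat.lt_or_ge i (n + 1) with h2 | h2
  · rw [hr (i : ℤ) (by push_cast; omega) (by push_cast; omega)] at h1
    omega
  · have h3 := hr ((i : ℤ) - (2 * n + 2)) (by push_cast; omega) (by push_cast; omega)
    have h4 := ref.per ((i : ℤ) - (2 * n + 2))
    push_cast at h4
    have e : (i : ℤ) - (2 * n + 2) + (2 * n + 2) = i := by ring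
    rw [e, h1, h3] at h4
    omega

/-- the reference pattern -/
def refP (n : ℕ) : Pat (2 * n + 2) :=
  Classical.choose (exists_ref (L := 2 * n + 2) ⟨n + 1, by ring⟩ (by omega))

theorem isRef_refP (n : ℕ) : IsRef (refP n) :=
  Classical.choose_spec (exists_ref (L := 2 * n + 2) ⟨n + 1, by ring⟩ (by omega))

/-- the patterns form an instance of the abstract structure -/
def punP (n : ℕ) : PX.Pun n (Pat (2 * n + 2)) where
  e := eN (2 * n + 2)
  rho := rhoE (2 * n + 2)
  base := refP n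
  top := PX.evn (eN (2 * n + 2)) (n + 1) (refP n)
  rk := rkP
  idem i _ a := Pat.e_idem _ _
  tl i hi a := by
    have h := Pat.e_braid a (by omega) (i : ℤ)
    unfold eN
    push_cast
    exact h
  tl' i hi a := by
    have h := Pat.e_braid' a (by omega) (i : ℤ)
    unfold eN
    push_cast
    exact h
  far i j h1 h2 a := by
    unfold eN
    apply Pat.e_comm
    · rintro ⟨c, hc⟩
      push_cast at hc
      have hc0 : -1 < c := by nlinarith
      have hc1 : c < 0 := by nlinarith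
      omega
    · rintro ⟨c, hc⟩
      push_cast at hc
      have hc0 : -1 < c := by nlinarith
      have hc1 : c < 0 := by nlinarith
      omega
    · rintro ⟨c, hc⟩
      push_cast at hc
      have hc0 : -1 < c := by nlinarith
      have hc1 : c < 0 := by nlinarith
      omega
  rho_e i hi a := by
    have h := Pat.rot_e a ((i : ℤ) + 1)
    unfold eN
    show Pat.rot (Pat.e ((i + 1 : ℕ) : ℤ) a) = Pat.e (i : ℤ) (Pat.rot a)
    push_cast
    rw [h, add_sub_cancel_right]
  rho_rho_e a := by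
    show Pat.rot (Pat.rot (Pat.e ((0 : ℕ) : ℤ) a)) = Pat.e ((2 * n : ℕ) : ℤ) (Pat.rot (Pat.rot a))
    rw [Pat.rot_e, Pat.rot_e, ← Pat.e_add_period]
    congr 1
    push_cast
    ring
  evn_top a := pat_eq_of_small n (fun k hk => evn_f n (n + 1) le_rfl a k hk)
    (fun k hk => evn_f n (n + 1) le_rfl (refP n) k hk)
  base_ne i hi a := e_ne_ref (isRef_refP n) i hi a
  rk_rho a := by
    show (PX.rkF _ (Pat.rot a).f).toNat = (PX.rkF _ a.f).toNat
    congr 1
    exact PX.rkF_rot a.nci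
  tri a := tri_pat (isRef_refP n) a

end CY
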