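import Pool.Agent.Lib.MP_216314_pr.W.Fin
import Pool.Agent.Lib.MP_216314_pr.W.Inst
import Pool.Agent.Lib.MP_216314_pr.Z.PsiDef

/-!
# Degrees of monomials; uniqueness on stable sets; existence in the form used by the cylinder law
-/

set_option autoImplicit false

noncomputable section

namespace PX

open Finset

theorem phiS_monomial (S : Finset ℕ) (m : ℕ →₀ ℕ) (c : ℂ) :
    phiS S (MvPolynomial.monomial m c) =
      Polynomial.C (MvPolynomial.monomial m c) * Polynomial.X ^ (∑ k ∈ S, m k) := by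
  unfold phiS
  rw [MvPolynomial.aeval_monomial]
  have h1 : (m.prod fun j e => (if j ∈ S then
      (Polynomial.X * Polynomial.C (MvPolynomial.X j) : Polynomial MP)
      else Polynomial.C (MvPolynomial.X j)) ^ e) =
      (∏ j ∈ m.support, (if j ∈ S then (Polynomial.X : Polynomial MP) else 1) ^ m j) *
        ∏ j ∈ m.support, (Polynomial.C (MvPolynomial.X j : MP)) ^ m j := by
    rw [← Finset.prod_mul_distrib, Finsupp.prod]
    refine Finset.prod_congr rfl fun j _ => ?_
    rw [← mul_pow]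
    congr 1
    by_cases h : j ∈ S
    · rw [if_pos h, if_pos h]
    · rw [if_neg h, if_neg h, one_mul]
  have h2 : (∏ j ∈ m.support, (if j ∈ S then (Polynomial.X : Polynomial MP) else 1) ^ m j) =
      Polynomial.X ^ (∑ k ∈ S, m k) := by
    have e1 : ∀ j ∈ m.support, (if j ∈ S then (Polynomial.X : Polynomial MP) else 1) ^ m j =
        Polynomial.X ^ (if j ∈ S then m j else 0) := by
      intro j _
      by_cases h : j ∈ S
      · rw [if_pos h, if_pos h]
      · rw [if_neg h, if_neg h, one_pow, pow_zero]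
    rw [Finset.prod_congr rfl e1, Finset.prod_pow_eq_pow_sum]
    congr 1
    rw [← Finset.sum_filter]
    apply Finset.sum_subset
    · intro j hj
      exact (Finset.mem_filter.1 hj).2
    · intro j hj hj'
      by_contra h
      exact hj' (Finset.mem_filter.2 ⟨Finsupp.mem_support_iff.2 h, hj⟩)
  have h3 : (∏ j ∈ m.support, (Polynomial.C (MvPolynomial.X j : MP)) ^ m j) =
      Polynomial.C (∏ j ∈ m.support, (MvPolynomial.X j : MP) ^ m j) := by
    rw [map_prod]
    refine Finset.prod_congr rfl fun j _ => ?_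
    rw [map_pow]
  rw [h1, h2, h3, MvPolynomial.monomial_eq]
  have h4 : algebraMap ℂ (Polynomial MP) c = Polynomial.C (MvPolynomial.C c) := rfl
  rw [h4, map_mul, Finsupp.prod]
  ring

theorem coeff_phiS (S : Finset ℕ) (p : MP) (m : ℕ →₀ ℕ) :
    MvPolynomial.coeff m ((phiS S p).coeff (∑ k ∈ S, m k)) = MvPolynomial.coeff m p := by
  classical
  have h1 : phiS S p = ∑ l ∈ p.support,
      Polynomial.C (MvPolynomial.monomial l (MvPolynomial.coeff l p)) *
        Polynomial.X ^ (∑ k ∈ S, l k) := by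
    conv_lhs => rw [p.as_sum]
    rw [map_sum]
    exact Finset.sum_congr rfl fun l _ => phiS_monomial S l _
  rw [h1, Polynomial.finsetSum_coeff, MvPolynomial.coeff_sum]
  rw [Finset.sum_eq_single m]
  · rw [Polynomial.coeff_C_mul_X_pow, if_pos rfl, MvPolynomial.coeff_monomial, if_pos rfl]
  · intro l _ hl
    rw [Polynomial.coeff_C_mul_X_pow]
    split_ifs
    · rw [MvPolynomial.coeff_monomial, if_neg hl]
    · exact MvPolynomial.coeff_zero m
  · intro h
    rw [MvPolynomial.notMem_support_iff.1 h, MvPolynomial.monomial_zero, Polynomial.C_0, zero_mul,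
      Polynomial.coeff_zero, MvPolynomial.coeff_zero]

/-- the degrees of the monomials in the variables of `S` -/
theorem sum_le_dS (S : Finset ℕ) (p : MP) (m : ℕ →₀ ℕ) (hm : m ∈ p.support) :
    ∑ k ∈ S, m k ≤ dS S p := by
  unfold dS
  refine Polynomial.le_natDegree_of_ne_zero ?_
  intro h
  have h1 := coeff_phiS S p m
  rw [h, MvPolynomial.coeff_zero] at h1
  exact (MvPolynomial.mem_support_iff.1 hm) h1.symm

theorem bd_zero (L : ℕ) : bd L 0 = 0 := by
  unfold bd
  rw [Nat.sub_zero, Nat.sub_self]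

theorem DegOK.zero {L : ℕ} {p : MP} (h : DegOK L p) (m : ℕ →₀ ℕ) (hm : m ∈ p.support) (k : ℕ)
    (hk : L ≤ k) : m k = 0 := by
  have h1 := sum_le_dS {k} p m hm
  have h2 := h {k}
  have e : ({k} : Finset ℕ) ∩ range L = ∅ := by
    ext j
    simp only [Finset.mem_inter, Finset.mem_singleton, Finset.mem_range, Finset.notMem_empty,
      iff_false, not_and, not_lt]
    intro hj
    rw [hj]
    exact hk
  rw [e, Finset.card_empty, bd_zero] at h2
  rw [Finset.sum_singleton] at h1
  omega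

theorem DegOK.one {L : ℕ} (hL : 1 ≤ L) {p : MP} (h : DegOK L p) (m : ℕ →₀ ℕ) (hm : m ∈ p.support)
    (k : ℕ) : m k ≤ L - 1 := by
  rcases Nat.lt_or_ge k L with h0 | h0
  · have h1 := sum_le_dS {k} p m hm
    have h2 := h {k}
    have e : ({k} : Finset ℕ) ∩ range L = {k} := by
      rw [Finset.inter_eq_left, Finset.singleton_subset_iff, Finset.mem_range]
      exact h0
    rw [e, Finset.card_singleton, bd_one L hL] at h2
    rw [Finset.sum_singleton] at h1
    omega
  · rw [h.zero m hm k h0]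
    exact Nat.zero_le _

theorem DegOK.two {L : ℕ} (hL : 2 ≤ L) {p : MP} (h : DegOK L p) (m : ℕ →₀ ℕ) (hm : m ∈ p.support)
    (i j : ℕ) (hi : i < L) (hj : j < L) (hij : i ≠ j) : m i + m j ≤ 2 * L - 3 := by
  have h1 := sum_le_dS {i, j} p m hm
  have h2 := h {i, j}
  have e : ({i, j} : Finset ℕ) ∩ range L = {i, j} := by
    rw [Finset.inter_eq_left]
    intro k hk
    rw [Finset.mem_insert, Finset.mem_singleton] at hk
    rw [Finset.mem_range]
    rcases hk with hk | hk
    · rw [hk]; exact hi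
    · rw [hk]; exact hj
  rw [e, Finset.card_pair hij, bd_two L hL] at h2
  rw [Finset.sum_pair hij] at h1
  omega

theorem VBq_reorder (q : ℂ) (L : ℕ) (y : ℕ → ℂ) :
    VBq q L y = ∏ i ∈ range L, ∏ j ∈ Ioo i L, Fq q (y i) (y j) := by
  unfold VBq
  apply Finset.prod_comm'
  intro j i
  simp only [Finset.mem_range, Finset.mem_Ioo]
  omega

variable {W : Type} [Fintype W] [DecidableEq W] {n : ℕ} (U : Pun n W)

namespace Pun

private theorem bridge_mv_mem (Z : Set (ℕ → ℂ))
    (hsw : ∀ y ∈ Z, ∀ i, i < 2 * n + 1 → sw i y ∈ Z) (y : ℕ → ℂ) (hy : y ∈ Z) (m : ℕ)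
    (hm : m ≤ 2 * n + 1) : mv m y ∈ Z := by
  induction m with
  | zero => rw [mv_zero]; exact hy
  | succ m ih =>
    rw [mv_succ]
    exact hsw _ (ih (by omega)) m (by omega)

private theorem bridge_iter (Z : Set (ℕ → ℂ))
    (hsw : ∀ y ∈ Z, ∀ i, i < 2 * n + 1 → sw i y ∈ Z) (φ : (ℕ → ℂ) → W → ℂ)
    (hR : ∀ y ∈ Z, ∀ a, φ (mv (2 * n + 1) y) (U.rho a) = φ y a) (y : ℕ → ℂ) (hy : y ∈ Z) (a : W)
    (k : ℕ) : (mv (2 * n + 1))^[k] y ∈ Z ∧
      φ ((mv (2 * n + 1))^[k] y) (U.rho^[k] a) = φ y a ∧ U.rk (U.rho^[k] a) = U.rk a := by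
  induction k with
  | zero => exact ⟨hy, rfl, rfl⟩
  | succ k ih =>
    obtain ⟨h1, h2, h3⟩ := ih
    rw [Function.iterate_succ_apply', Function.iterate_succ_apply']
    refine ⟨bridge_mv_mem Z hsw _ h1 _ le_rfl, ?_, ?_⟩
    · rw [hR _ h1, h2]
    · rw [U.rk_rho, h3]

/-- uniqueness: a solution on a stable set whose base component vanishes is zero -/
theorem uniq (q : ℂ) (Z : Set (ℕ → ℂ)) (hd : ∀ y ∈ Z, ∀ i, i < 2 * n + 1 → y (i + 1) ≠ y i)
    (hsw : ∀ y ∈ Z, ∀ i, i < 2 * n + 1 → sw i y ∈ Z) (φ : (ℕ → ℂ) → W → ℂ)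
    (hE : ∀ y ∈ Z, ∀ i, i < 2 * n + 1 → ∀ a, Fq q (y (i + 1)) (y i) * φ y a +
      (y (i + 1) - y i) * (∑ b, if U.e i b = a then φ y b else 0) =
        Fq q (y i) (y (i + 1)) * φ (sw i y) a)
    (hR : ∀ y ∈ Z, ∀ a, φ (mv (2 * n + 1) y) (U.rho a) = φ y a)
    (h0 : ∀ y ∈ Z, φ y U.base = 0) : ∀ y ∈ Z, ∀ a, φ y a = 0 := by
  set K := Finset.univ.sup U.rk with hK
  have hle : ∀ a, U.rk a ≤ K := fun a => Finset.le_sup (Finset.mem_univ a)
  have main : ∀ d : ℕ, ∀ a, K - U.rk a = d → ∀ y ∈ Z, φ y a = 0 := by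
    intro d
    induction d using Nat.strong_induction_on with
    | _ d ih =>
      intro a hd' y hy
      have ih' : ∀ c, U.rk a < U.rk c → ∀ y ∈ Z, φ y c = 0 := by
        intro c hc y' hy'
        have hcK := hle c
        exact ih (K - U.rk c) (by omega) c rfl y' hy'
      obtain ⟨k, hk⟩ := U.tri a
      obtain ⟨h1, h2, h3⟩ := U.bridge_iter Z hsw φ hR y hy a k
      rw [← h2]
      rcases hk with hb | ⟨i, hi, hr, hc⟩
      · rw [hb]
        exact h0 _ h1
      · set y' := (mv (2 * n + 1))^[k] y with hy'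
        set a' := U.rho^[k] a with ha'
        have e1 := ih' (U.e i a') hr y' h1
        have e2 := ih' (U.e i a') hr (sw i y') (hsw _ h1 i hi)
        have e3 := hE y' h1 i hi (U.e i a')
        rw [e1, e2, mul_zero, mul_zero, zero_add] at e3
        have hne : y' (i + 1) - y' i ≠ 0 := sub_ne_zero.2 (hd y' h1 i hi)
        have e4 := (mul_eq_zero.1 e3).resolve_left hne
        rw [Finset.sum_eq_single a'] at e4
        · rw [if_pos rfl] at e4
          exact e4
        · intro b _ hb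
          split_ifs with h5
          · rcases hc b h5 with h6 | h6
            · exact absurd h6 hb
            · exact ih' b h6 y' h1
          · rfl
        · intro h5
          exact absurd (Finset.mem_univ _) h5
  intro y hy a
  exact main _ a rfl y hy

end Pun

end PX

namespace CY

open Finset

theorem sw_eq (i : ℕ) (z : ℕ → ℂ) : CY.sw i z = PX.sw i z := rfl

theorem cyc_eq (n : ℕ) (z : ℕ → ℂ) : cyc (2 * n + 2) z = PX.mv (2 * n + 1) z := by
  funext k
  unfold cyc PX.mv
  by_cases h1 : k < 2 * n + 1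
  · rw [if_pos (by omega), if_pos h1]
  · rw [if_neg (by omega), if_neg h1]
    by_cases h2 : k = 2 * n + 1
    · rw [if_pos (by omega), if_pos h2]
    · rw [if_neg (by omega), if_neg h2]

theorem F_eq (q a b : ℂ) : F q a b = PX.Fq q a b := rfl

theorem E_apply {L : ℕ} (i : ℕ) (v : V L) (α : Pat L) :
    E (i : ℤ) v α = ∑ β, if eN L i β = α then v β else 0 := rfl

/-- every pattern has an even period -/
theorem exists_n_pat {L : ℕ} (α : Pat L) : ∃ n, L = 2 * n + 2 := by
  obtain ⟨k, hk⟩ := α.even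
  have := α.two_le
  exact ⟨k - 1, by omega⟩

/-- uniqueness: a solution on an orbit whose reference component vanishes is zero -/
theorem sol_unique' {q : ℂ} {L : ℕ} {S : Set (ℕ → ℂ)} (hS : Orb L S)
    {χ : (ℕ → ℂ) → V L} (h : SolOn q L S χ) (h0 : ∀ z ∈ S, ∀ α, IsRef α → χ z α = 0) :
    ∀ z ∈ S, χ z = 0 := by
  intro z hz
  funext α
  obtain ⟨n, hn⟩ := exists_n_pat α
  subst hn
  show χ z α = 0
  refine PX.Pun.uniq (punP n) q S ?_ ?_ χ ?_ ?_ ?_ z hz α
  · intro y hy i hi
    exact hS.ne y hy (i + 1) i (by omega) (by omega) (by omega)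
  · intro y hy i hi
    exact hS.sw y hy i (by omega)
  · intro y hy i hi a
    have h1 := congrFun (h.exch y hy i (by omega)) a
    simp only [Pi.add_apply, Pi.smul_apply, smul_eq_mul] at h1
    rw [E_apply] at h1
    exact h1
  · intro y hy a
    have h1 := congrFun (h.rot y hy) (Pat.rot a)
    rw [R_apply, cyc_eq] at h1
    exact h1
  · intro y hy
    exact h0 y hy _ (isRef_refP n)

theorem exists_psi' {q : ℂ} (hq : q ^ 2 + q + 1 = 0) {L : ℕ} (hL : 0 < L) (hE : Even L) :
    ∃ P : Pat L → MvPolynomial ℕ ℂ, IsPsi q L P := by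
  obtain ⟨k, hk⟩ := hE
  obtain ⟨n, hn⟩ : ∃ n, L = 2 * n + 2 := ⟨k - 1, by omega⟩
  subst hn
  obtain ⟨P, hP⟩ := PX.exists_sol (punP n) q hq
  refine ⟨P, ?_, ?_, ?_, ?_, ?_, ?_⟩
  · intro z i hi
    funext a
    have h1 := hP.exch i (by omega) z a
    simp only [Pi.add_apply, Pi.smul_apply, smul_eq_mul]
    rw [E_apply]
    exact h1
  · intro z
    funext a
    have h1 := hP.rot z (Pat.rotInv a)
    have e : (punP n).rho (Pat.rotInv a) = a := Pat.rot_rotInv a
    rw [e] at h1
    have h2 := R_apply (ev P z) (Pat.rotInv a)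
    rw [Pat.rot_rotInv] at h2
    rw [h2, cyc_eq]
    exact h1
  · intro z α hα
    have e : α = refP n := IsRef.unique hα (isRef_refP n)
    have h1 := hP.base z
    rw [PX.VBq_reorder] at h1
    rw [e]
    exact h1
  · intro α k hk
    rw [Finset.mem_coe, MvPolynomial.mem_vars_iff_mem_support] at hk
    obtain ⟨m, hm, hk⟩ := hk
    by_contra hc
    have hc' : 2 * n + 2 ≤ k := not_lt.1 hc
    exact (Finsupp.mem_support_iff.1 hk) ((hP.deg α).zero m hm k hc')
  · intro α m hm i
    have h1 := (hP.deg α).one (by omega) m hm i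
    exact h1
  · intro α m hm i j hi hj hij
    have h1 := (hP.deg α).two (by omega) m hm i j hi hj hij
    exact h1

end CY
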