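import Pool.Agent.Lib.MP_216314_pr.X.Def

/-!
# The R-matrix in an algebra with Temperley-Lieb elements of weight one
-/

set_option autoImplicit false

noncomputable section

namespace PX

open Finset

variable {A : Type*} [Ring A] [Algebra ℂ A]

/-- R-matrix (not normalised) -/
def Qm (E : A) (u v : ℂ) : A := (om * v - u) • (1 : A) + (om ^ 2 * (v - u)) • E

theorem Qm_self (E : A) (u : ℂ) : Qm E u u = (om * u - u) • (1 : A) := by
  unfold Qm
  rw [sub_self, mul_zero, zero_smul, add_zero]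

theorem Qm_om (E : A) (u : ℂ) : Qm E u (om ^ 2 * u) = (om * u - om ^ 2 * u) • E := by
  unfold Qm
  have h1 : om * (om ^ 2 * u) - u = 0 := by linear_combination u * om_cube
  have h2 : om ^ 2 * (om ^ 2 * u - u) = om * u - om ^ 2 * u := by linear_combination om * u * om_cube
  rw [h1, h2, zero_smul, zero_add]

theorem Qm_unit (E : A) (h : E * E = E) (u v : ℂ) :
    Qm E v u * Qm E u v = ((om * u - v) * (om * v - u)) • (1 : A) := by
  unfold Qm
  simp only [mul_add, add_mul, smul_mul_assoc, mul_smul_comm, one_mul, mul_one, h]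
  match_scalars
  · ring
  · linear_combination (om ^ 2 * (v - u) * (u - v)) * om_eq

theorem Qm_ybe (E F : A) (hE : E * E = E) (hF : F * F = F) (hEF : E * F * E = E)
    (hFE : F * E * F = F) (u v t : ℂ) :
    Qm E v t * Qm F u t * Qm E u v = Qm F u v * Qm E u t * Qm F v t := by
  unfold Qm
  simp only [mul_add, add_mul, smul_mul_assoc, mul_smul_comm, one_mul, mul_one, hE, hF, hEF, hFE]
  match_scalars
  · ring
  · linear_combination (-om^4*u^2*v + om^4*u^2*t + om^4*u*v^2 - om^4*u*t^2 - om^4*v^2*t + om^4*v*t^2 + om^3*u^2*v - om^3*u^2*t - om^3*u*v^2 + om^3*u*v*t - om^2*u^2*v + om^2*u^2*t + om^2*u*v^2 - om^2*u*v*t) * om_eq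
  · linear_combination (-(-om^4*u^2*v + om^4*u^2*t + om^4*u*v^2 - om^4*u*t^2 - om^4*v^2*t + om^4*v*t^2 + om^3*u^2*v - om^3*u^2*t - om^3*u*v^2 + om^3*u*v*t - om^2*u^2*v + om^2*u^2*t + om^2*u*v^2 - om^2*u*v*t)) * om_eq
  · ring
  · ring

theorem Qm_comm (E F : A) (h : E * F = F * E) (u v x y : ℂ) :
    Qm E u v * Qm F x y = Qm F x y * Qm E u v := by
  unfold Qm
  simp only [mul_add, add_mul, smul_mul_assoc, mul_smul_comm, one_mul, mul_one, h]
  match_scalars <;> ring

end PX
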