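import Mathlib

/-!
# The critical random-cluster model in wedges of angle `n π / 4`: definitions

The infinite sheeted surface: the quadrants `0, 1, 2, …` are glued one after the other around the origin. The
vertex `(i,a,b)` is the point `(a,b)` of the quadrant number `i`.
-/

set_option autoImplicit false

noncomputable section

namespace FKW

open Finset

/-- a vertex: the point `(a,b)` of the quadrant `i` -/
abbrev V := ℕ × ℕ × ℕ

/-- the second end point of the edge `(v,k)`: `k = 0`: the right neighbour, `k = 1`: the upper neighbour,
`k = 2` (only used for `v = (i,0,b)`): the point `(i+1,b,0)` of the next quadrant -/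
def nb : V × Fin 3 → V
  | ((i, a, b), k) => if k = 0 then (i, a + 1, b) else if k = 1 then (i, a, b + 1) else (i + 1, b, 0)

/-- the edges between the vertices of `S` -/
def edges (S : Finset V) : Finset (V × Fin 3) :=
  (S ×ˢ univ).filter (fun e => nb e ∈ S ∧ (e.2 = 2 → e.1.2.1 = 0))

/-- the graph of the open edges -/
def gr (ω : Finset (V × Fin 3)) : SimpleGraph V :=
  SimpleGraph.fromRel (fun u v => ∃ e ∈ ω, e.1 = u ∧ nb e = v)

/-- the number of clusters (isolated vertices included) -/
def clusters (S : Finset V) (ω : Finset (V × Fin 3)) : ℕ :=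
  Set.ncard ((gr ω).connectedComponentMk '' (S : Set V))

/-- the critical random-cluster weight `(√q)^(open edges) q^(clusters)` -/
def wt (q : ℝ) (S : Finset V) (ω : Finset (V × Fin 3)) : ℝ := √q ^ ω.card * q ^ clusters S ω

open Classical in
/-- the probability that `u` and `v` are connected (free boundary conditions) -/
def prob (q : ℝ) (S : Finset V) (u v : V) : ℝ :=
  (∑ ω ∈ (edges S).powerset, if (gr ω).Reachable u v then wt q S ω else 0) /
    ∑ ω ∈ (edges S).powerset, wt q S ω

/-- The wedge: the rectangles `[0, m i] × [0, m (i+1)]` of the quadrants `i = 0, …, J`; if `t` is true, only the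
part `b ≤ a` of the last one. -/
def wedge (t : Bool) (J : ℕ) (m : ℕ → ℕ) : Finset V :=
  (range (J + 1)).biUnion (fun i => ({i} ×ˢ (range (m i + 1) ×ˢ range (m (i + 1) + 1))).filter
    (fun v => t = true → v.1 = J → v.2.2 ≤ v.2.1))

/-- the angle of the wedge is `num t J * π / 4` -/
def num (t : Bool) (J : ℕ) : ℕ := 2 * J + 2 - (if t then 1 else 0)

/-- far side number `k` (`k = 0, …, J + 1`), at distance `m k` from the tip: the right side of the rectangle
`k` and the upper side of the rectangle `k - 1` (without its point on the diagonal, if this one is cut) -/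
def far (t : Bool) (J : ℕ) (m : ℕ → ℕ) (k : ℕ) : Finset V := (wedge t J m).filter (fun v =>
  (v.1 = k ∧ v.2.1 = m k) ∨ (v.1 + 1 = k ∧ v.2.2 = m k ∧ (t = true → v.1 = J → v.2.2 < v.2.1)))

/-- point number `b` of the second side of the wedge (the first side is formed by the points `(0,x,0)`) -/
def side (t : Bool) (J b : ℕ) : V := (J, if t then b else 0, b)

end FKW
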