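import Pool.Agent.Lib.MP_216314_pr.X.PolC

/-!
# Degree in a set of variables

Proof hints.
* `phiS_one`: `Polynomial.eval 1` composed with `phiS S` is the identity (MvPolynomial.induction_on or `MvPolynomial.algHom_ext`
  for `(Polynomial.aeval 1).restrictScalars` ...; simplest: MvPolynomial.induction_on p: C, add, mul_X).
  Hence `phiS_ne` (injectivity).
* `dS_mul_le`, `dS_add_le`, `dS_sub_le`: natDegree_mul_le, natDegree_add_le, natDegree_sub_le. `dS_mul`: natDegree_mul (domain).
* `dS_lin`: natDegree of `C C' * X i - X j` under phiS: each of the two terms has degree `<= 1`, and `0` if the index is not in `S`.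
* `dS_diff`: if `i ∈ S` or `i + 1 ∈ S` then `1 <= dS S (X i - X (i+1))`: phiS S (X i - X (i+1)) has coefficient of t^1 equal to
  (X i if i ∈ S) - (X (i+1) if i+1 ∈ S), which is nonzero: le_natDegree_of_ne_zero.
* `dS_rename`: phiS S (rename π p) = (Polynomial.map (rename π)) (phiS (S.preimage) p): with `S' = S.image π.symm`: j ∈ S' <-> π j ∈ S.
  natDegree_map_eq_of_injective (rename_injective).
* `Tp_dS`: from Tp_spec: (X i - X (i+1)) * Tp i f = C.. * X (i+1) * f - C.. * (C om * X i - X (i+1)) * sp i f. If Tp i f = 0: dS 0 = 0. Otherwise dS_mul,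
  dS_diff; right side: [S meets {i,i+1}] + max (dS S f) (dS (S.image swap) f); the cardinality of (S.image swap) ∩ range L is the same (i + 1 < L).
* `dS_eval`: q = Polynomial.map (MvPolynomial.eval y) (phiS S p); natDegree_map_le; the evaluation by MvPolynomial.induction_on.
* `dS_singleton_of`: degreeOf k p = dS {k} p: only `degreeOf k p <= dS {k} p` is asked: e.g. p.degreeOf k ≤ : take a monomial m of p with m k = degreeOf k p maximal;
  the coefficient of t^(m k) in phiS {k} p is the sum of the monomials with exponent m k in X k, it is nonzero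
  (phiS S (monomial m c) = C (monomial m c) * X^(sum over S of m)); write phiS {k} p = sum over the support (MvPolynomial.as_sum).
-/

set_option autoImplicit false

noncomputable section

namespace PX

open Finset

/-- the variables of `S` are multiplied by `t` -/
def phiS (S : Finset ℕ) : MP →ₐ[ℂ] Polynomial MP :=
  MvPolynomial.aeval fun j => if j ∈ S then Polynomial.X * Polynomial.C (MvPolynomial.X j)
    else Polynomial.C (MvPolynomial.X j)

/-- total degree in the variables of `S` -/
def dS (S : Finset ℕ) (p : MP) : ℕ := (phiS S p).natDegree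

private theorem Deg_C (S : Finset ℕ) (c : ℂ) :
    phiS S (MvPolynomial.C c) = Polynomial.C (MvPolynomial.C c) := by
  unfold phiS
  rw [MvPolynomial.aeval_C]
  rfl

private theorem Deg_X (S : Finset ℕ) (j : ℕ) :
    phiS S (MvPolynomial.X j) = if j ∈ S then Polynomial.X * Polynomial.C (MvPolynomial.X j)
      else Polynomial.C (MvPolynomial.X j) := by
  unfold phiS
  rw [MvPolynomial.aeval_X]

theorem phiS_one (S : Finset ℕ) (p : MP) : (phiS S p).eval 1 = p := by
  induction p using MvPolynomial.induction_on with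
  | C a => rw [Deg_C, Polynomial.eval_C]
  | add p q hp hq => rw [map_add, Polynomial.eval_add, hp, hq]
  | mul_X p j hp =>
    rw [map_mul, Polynomial.eval_mul, hp, Deg_X]
    split_ifs
    · rw [Polynomial.eval_mul, Polynomial.eval_X, Polynomial.eval_C, one_mul]
    · rw [Polynomial.eval_C]

theorem phiS_ne (S : Finset ℕ) {p : MP} (hp : p ≠ 0) : phiS S p ≠ 0 := by
  intro h
  apply hp
  rw [← phiS_one S p, h, Polynomial.eval_zero]

theorem dS_C (S : Finset ℕ) (c : ℂ) : dS S (MvPolynomial.C c) = 0 := by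
  unfold dS
  rw [Deg_C, Polynomial.natDegree_C]

theorem dS_zero (S : Finset ℕ) : dS S 0 = 0 := by
  unfold dS
  rw [map_zero, Polynomial.natDegree_zero]

theorem dS_mul_le (S : Finset ℕ) (p q : MP) : dS S (p * q) ≤ dS S p + dS S q := by
  unfold dS
  rw [map_mul]
  exact Polynomial.natDegree_mul_le

theorem dS_mul (S : Finset ℕ) {p q : MP} (hp : p ≠ 0) (hq : q ≠ 0) :
    dS S (p * q) = dS S p + dS S q := by
  unfold dS
  rw [map_mul]
  exact Polynomial.natDegree_mul (phiS_ne S hp) (phiS_ne S hq)

theorem dS_add_le (S : Finset ℕ) (p q : MP) : dS S (p + q) ≤ max (dS S p) (dS S q) := by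
  unfold dS
  rw [map_add]
  exact Polynomial.natDegree_add_le _ _

theorem dS_sub_le (S : Finset ℕ) (p q : MP) : dS S (p - q) ≤ max (dS S p) (dS S q) := by
  unfold dS
  rw [map_sub]
  exact Polynomial.natDegree_sub_le _ _

theorem dS_C_mul_le (S : Finset ℕ) (c : ℂ) (p : MP) : dS S (MvPolynomial.C c * p) ≤ dS S p := by
  have h := dS_mul_le S (MvPolynomial.C c) p
  rwa [dS_C, zero_add] at h

theorem dS_X (S : Finset ℕ) (i : ℕ) : dS S (MvPolynomial.X i) = if i ∈ S then 1 else 0 := by
  unfold dS
  rw [Deg_X]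
  split_ifs
  · rw [Polynomial.natDegree_X_mul, Polynomial.natDegree_C]
    rw [Ne, Polynomial.C_eq_zero]
    exact MvPolynomial.X_ne_zero i
  · rw [Polynomial.natDegree_C]

theorem dS_lin (S : Finset ℕ) (i j : ℕ) (c : ℂ) :
    dS S (MvPolynomial.C c * MvPolynomial.X i - MvPolynomial.X j) ≤ if i ∈ S ∨ j ∈ S then 1 else 0 := by
  refine (dS_sub_le S _ _).trans (max_le ?_ ?_)
  · refine (dS_C_mul_le S _ _).trans ?_
    rw [dS_X]
    by_cases hi : i ∈ S
    · rw [if_pos hi, if_pos (Or.inl hi)]
    · rw [if_neg hi]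
      exact Nat.zero_le _
  · rw [dS_X]
    by_cases hj : j ∈ S
    · rw [if_pos hj, if_pos (Or.inr hj)]
    · rw [if_neg hj]
      exact Nat.zero_le _

private theorem Deg_coeff (S : Finset ℕ) (j : ℕ) :
    (phiS S (MvPolynomial.X j)).coeff 1 = if j ∈ S then MvPolynomial.X j else 0 := by
  rw [Deg_X]
  split_ifs
  · rw [show (1 : ℕ) = 0 + 1 from rfl, Polynomial.coeff_X_mul, Polynomial.coeff_C_zero]
  · rw [Polynomial.coeff_C_of_ne_zero one_ne_zero]

theorem dS_diff (S : Finset ℕ) (i : ℕ) (h : i ∈ S ∨ i + 1 ∈ S) :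
    1 ≤ dS S (MvPolynomial.X i - MvPolynomial.X (i + 1)) := by
  unfold dS
  refine Polynomial.le_natDegree_of_ne_zero ?_
  rw [map_sub, Polynomial.coeff_sub, Deg_coeff, Deg_coeff]
  by_cases h1 : i ∈ S
  · by_cases h2 : i + 1 ∈ S
    · rw [if_pos h1, if_pos h2]
      exact X_sub_ne i (i + 1) (by omega)
    · rw [if_pos h1, if_neg h2, sub_zero]
      exact MvPolynomial.X_ne_zero i
  · have h2 : i + 1 ∈ S := h.resolve_left h1
    rw [if_neg h1, if_pos h2, zero_sub, neg_ne_zero]
    exact MvPolynomial.X_ne_zero _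

private theorem Deg_rename (S : Finset ℕ) (π : Equiv.Perm ℕ) (p : MP) :
    phiS S (MvPolynomial.rename π p) =
      Polynomial.map (MvPolynomial.rename π : MP →ₐ[ℂ] MP).toRingHom (phiS (S.image π.symm) p) := by
  induction p using MvPolynomial.induction_on with
  | C a =>
    rw [MvPolynomial.rename_C, Deg_C, Deg_C, Polynomial.map_C]
    congr 1
    exact (MvPolynomial.rename_C π a).symm
  | add p q hp hq => rw [map_add, map_add, map_add, Polynomial.map_add, hp, hq]
  | mul_X p j hp =>
    rw [map_mul, map_mul, map_mul, Polynomial.map_mul, hp, MvPolynomial.rename_X, Deg_X, Deg_X]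
    congr 1
    have hj : j ∈ S.image π.symm ↔ π j ∈ S := by
      rw [Finset.mem_image]
      constructor
      · rintro ⟨a, ha, rfl⟩
        rwa [Equiv.apply_symm_apply]
      · intro h
        exact ⟨π j, h, Equiv.symm_apply_apply π j⟩
    have hX : (MvPolynomial.rename π : MP →ₐ[ℂ] MP).toRingHom (MvPolynomial.X j) =
        (MvPolynomial.X (π j) : MP) := MvPolynomial.rename_X π j
    by_cases h : π j ∈ S
    · rw [if_pos h, if_pos (hj.2 h), Polynomial.map_mul, Polynomial.map_X, Polynomial.map_C, hX]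
    · rw [if_neg h, if_neg (fun h' => h (hj.1 h')), Polynomial.map_C, hX]

theorem dS_rename (S : Finset ℕ) (π : Equiv.Perm ℕ) (p : MP) :
    dS S (MvPolynomial.rename π p) = dS (S.image π.symm) p := by
  unfold dS
  rw [Deg_rename]
  exact Polynomial.natDegree_map_eq_of_injective (MvPolynomial.rename_injective π π.injective) _

theorem dS_sp (S : Finset ℕ) (i : ℕ) (p : MP) :
    dS S (sp i p) = dS (S.image (Equiv.swap i (i + 1))) p := by
  unfold sp
  rw [dS_rename, Equiv.symm_swap]

/-- number of pairs of elements of `{0, ..., L-1}` which meet a set with `s` elements -/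
def bd (L s : ℕ) : ℕ := L.choose 2 - (L - s).choose 2

/-- the degree condition -/
def DegOK (L : ℕ) (p : MP) : Prop := ∀ S : Finset ℕ, dS S p ≤ bd L (S ∩ range L).card

theorem card_image_swap (L i : ℕ) (hi : i + 1 < L) (S : Finset ℕ) :
    (S.image (Equiv.swap i (i + 1)) ∩ range L).card = (S ∩ range L).card := by
  have hlt : ∀ a, a < L → Equiv.swap i (i + 1) a < L := by
    intro a ha
    by_cases h1 : a = i
    · rw [h1, Equiv.swap_apply_left]
      exact hi
    · by_cases h2 : a = i + 1
      · rw [h2, Equiv.swap_apply_right]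
        omega
      · rw [Equiv.swap_apply_of_ne_of_ne h1 h2]
        exact ha
  have h1 : (range L).image (Equiv.swap i (i + 1)) = range L := by
    ext x
    rw [Finset.mem_image]
    constructor
    · rintro ⟨a, ha, rfl⟩
      exact mem_range.2 (hlt a (mem_range.1 ha))
    · intro hx
      exact ⟨Equiv.swap i (i + 1) x, mem_range.2 (hlt x (mem_range.1 hx)),
        Equiv.swap_apply_self i (i + 1) x⟩
  have h2 : S.image (Equiv.swap i (i + 1)) ∩ range L = (S ∩ range L).image (Equiv.swap i (i + 1)) := by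
    rw [Finset.image_inter _ _ (Equiv.injective _), h1]
  rw [h2, Finset.card_image_of_injective _ (Equiv.injective _)]

theorem DegOK.sp {L : ℕ} {p : MP} (h : DegOK L p) {i : ℕ} (hi : i + 1 < L) : DegOK L (sp i p) := by
  intro S
  rw [dS_sp, ← card_image_swap L i hi S]
  exact h _

theorem DegOK.Tp {L : ℕ} {p : MP} (h : DegOK L p) {i : ℕ} (hi : i + 1 < L) : DegOK L (Tp i p) := by
  intro S
  by_cases hT : PX.Tp i p = 0
  · rw [hT, dS_zero]
    exact Nat.zero_le _
  have hX : (MvPolynomial.X i - MvPolynomial.X (i + 1) : MP) ≠ 0 := X_sub_ne i (i + 1) (by omega)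
  have h1 := dS_mul S hX hT
  have h2 : dS S p ≤ bd L (S ∩ range L).card := h S
  have h3 : dS S (PX.sp i p) ≤ bd L (S ∩ range L).card := h.sp hi S
  have h4 : dS S (MvPolynomial.C (om ^ 2 - om) * MvPolynomial.X (i + 1) * p -
      MvPolynomial.C om * (MvPolynomial.C om * MvPolynomial.X i - MvPolynomial.X (i + 1)) *
        PX.sp i p) ≤ (if i ∈ S ∨ i + 1 ∈ S then 1 else 0) + bd L (S ∩ range L).card := by
    refine (dS_sub_le S _ _).trans (max_le ?_ ?_)
    · refine (dS_mul_le S _ _).trans (add_le_add ?_ h2)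
      refine (dS_C_mul_le S _ _).trans ?_
      rw [dS_X]
      by_cases h5 : i + 1 ∈ S
      · rw [if_pos h5, if_pos (Or.inr h5)]
      · rw [if_neg h5]
        exact Nat.zero_le _
    · refine (dS_mul_le S _ _).trans (add_le_add ?_ h3)
      exact (dS_C_mul_le S _ _).trans (dS_lin S i (i + 1) om)
  rw [← Tp_spec, h1] at h4
  by_cases h5 : i ∈ S ∨ i + 1 ∈ S
  · have h6 := dS_diff S i h5
    rw [if_pos h5] at h4
    omega
  · rw [if_neg h5] at h4
    omega

theorem DegOK.sub {L : ℕ} {p q : MP} (h : DegOK L p) (h' : DegOK L q) : DegOK L (p - q) := by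
  intro S
  exact (dS_sub_le S _ _).trans (max_le (h S) (h' S))

theorem DegOK.C_mul {L : ℕ} {p : MP} (h : DegOK L p) (c : ℂ) : DegOK L (MvPolynomial.C c * p) := by
  intro S
  exact (dS_C_mul_le S _ _).trans (h S)

theorem DegOK.sum {L : ℕ} {ι : Type} (s : Finset ι) {f : ι → MP} (h : ∀ i ∈ s, DegOK L (f i)) :
    DegOK L (∑ i ∈ s, f i) := by
  refine Finset.sum_induction f (DegOK L) ?_ ?_ h
  · intro a b ha hb S
    exact (dS_add_le S _ _).trans (max_le (ha S) (hb S))
  · intro S
    rw [dS_zero]
    exact Nat.zero_le _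

/-- scaling of the variables of `S` -/
theorem dS_eval (S : Finset ℕ) (p : MP) (y : ℕ → ℂ) : ∃ q : Polynomial ℂ, q.natDegree ≤ dS S p ∧
    ∀ t : ℂ, MvPolynomial.eval (fun j => if j ∈ S then t * y j else y j) p = q.eval t := by
  refine ⟨(phiS S p).map (MvPolynomial.eval y), Polynomial.natDegree_map_le, fun t => ?_⟩
  induction p using MvPolynomial.induction_on with
  | C a => rw [MvPolynomial.eval_C, Deg_C, Polynomial.map_C, MvPolynomial.eval_C, Polynomial.eval_C]
  | add p q hp hq => rw [map_add, map_add, Polynomial.map_add, Polynomial.eval_add, hp, hq]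
  | mul_X p j hp =>
    rw [map_mul, map_mul, Polynomial.map_mul, Polynomial.eval_mul, hp, MvPolynomial.eval_X, Deg_X]
    congr 1
    split_ifs
    · rw [Polynomial.map_mul, Polynomial.map_X, Polynomial.map_C, MvPolynomial.eval_X,
        Polynomial.eval_mul, Polynomial.eval_X, Polynomial.eval_C]
    · rw [Polynomial.map_C, MvPolynomial.eval_X, Polynomial.eval_C]

private theorem Deg_monomial (k : ℕ) (m : ℕ →₀ ℕ) (c : ℂ) :
    phiS {k} (MvPolynomial.monomial m c) =
      Polynomial.C (MvPolynomial.monomial m c) * Polynomial.X ^ (m k) := by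
  unfold phiS
  rw [MvPolynomial.aeval_monomial]
  have h1 : (m.prod fun j e => (if j ∈ ({k} : Finset ℕ) then
      (Polynomial.X * Polynomial.C (MvPolynomial.X j) : Polynomial MP)
      else Polynomial.C (MvPolynomial.X j)) ^ e) =
      (∏ j ∈ m.support, (if j = k then (Polynomial.X : Polynomial MP) else 1) ^ m j) *
        ∏ j ∈ m.support, (Polynomial.C (MvPolynomial.X j : MP)) ^ m j := by
    rw [← Finset.prod_mul_distrib, Finsupp.prod]
    refine Finset.prod_congr rfl fun j _ => ?_
    rw [← mul_pow]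
    congr 1
    by_cases h : j = k
    · rw [if_pos (Finset.mem_singleton.2 h), if_pos h]
    · rw [if_neg (fun h' => h (Finset.mem_singleton.1 h')), if_neg h, one_mul]
  have h2 : (∏ j ∈ m.support, (if j = k then (Polynomial.X : Polynomial MP) else 1) ^ m j) =
      Polynomial.X ^ (m k) := by
    rw [Finset.prod_eq_single k]
    · rw [if_pos rfl]
    · intro b _ hb
      rw [if_neg hb, one_pow]
    · intro h
      rw [Finsupp.notMem_support_iff.1 h, pow_zero]
  have h3 : (∏ j ∈ m.support, (Polynomial.C (MvPolynomial.X j : MP)) ^ m j) =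
      Polynomial.C (∏ j ∈ m.support, (MvPolynomial.X j : MP) ^ m j) := by
    rw [map_prod]
    refine Finset.prod_congr rfl fun j _ => ?_
    rw [map_pow]
  rw [h1, h2, h3, MvPolynomial.monomial_eq]
  have h4 : algebraMap ℂ (Polynomial MP) c = Polynomial.C (MvPolynomial.C c) := rfl
  rw [h4, map_mul, Finsupp.prod]
  ring

private theorem Deg_coeff_phi (k : ℕ) (p : MP) (m : ℕ →₀ ℕ) :
    MvPolynomial.coeff m ((phiS {k} p).coeff (m k)) = MvPolynomial.coeff m p := by
  classical
  have h1 : phiS {k} p = ∑ l ∈ p.support,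
      Polynomial.C (MvPolynomial.monomial l (MvPolynomial.coeff l p)) * Polynomial.X ^ (l k) := by
    conv_lhs => rw [p.as_sum]
    rw [map_sum]
    exact Finset.sum_congr rfl fun l _ => Deg_monomial k l _
  rw [h1, Polynomial.finsetSum_coeff, MvPolynomial.coeff_sum]
  rw [Finset.sum_eq_single m]
  · rw [Polynomial.coeff_C_mul_X_pow, if_pos rfl, MvPolynomial.coeff_monomial, if_pos rfl]
  · intro l _ hl
    rw [Polynomial.coeff_C_mul_X_pow]
    split_ifs
    · rw [MvPolynomial.coeff_monomial, if_neg hl]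
    · exact MvPolynomial.coeff_zero m
  · intro h
    rw [MvPolynomial.notMem_support_iff.1 h, MvPolynomial.monomial_zero, Polynomial.C_0, zero_mul,
      Polynomial.coeff_zero, MvPolynomial.coeff_zero]

theorem degreeOf_le_dS (k : ℕ) (p : MP) : MvPolynomial.degreeOf k p ≤ dS {k} p := by
  rw [MvPolynomial.degreeOf_le_iff]
  intro m hm
  unfold dS
  refine Polynomial.le_natDegree_of_ne_zero ?_
  intro h
  have h1 := Deg_coeff_phi k p m
  rw [h, MvPolynomial.coeff_zero] at h1
  exact (MvPolynomial.mem_support_iff.1 hm) h1.symm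

theorem bd_one (L : ℕ) (hL : 1 ≤ L) : bd L 1 = L - 1 := by
  obtain ⟨n, rfl⟩ : ∃ n, L = n + 1 := ⟨L - 1, by omega⟩
  unfold bd
  have h1 : (n + 1).choose 2 = n.choose 1 + n.choose 2 := Nat.choose_succ_succ n 1
  rw [Nat.choose_one_right] at h1
  have h2 : n + 1 - 1 = n := by omega
  rw [h2, h1]
  omega

theorem bd_two (L : ℕ) (hL : 2 ≤ L) : bd L 2 = 2 * L - 3 := by
  obtain ⟨n, rfl⟩ : ∃ n, L = n + 2 := ⟨L - 2, by omega⟩
  unfold bd
  have h1 : (n + 1).choose 2 = n.choose 1 + n.choose 2 := Nat.choose_succ_succ n 1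
  have h3 : (n + 2).choose 2 = (n + 1).choose 1 + (n + 1).choose 2 := Nat.choose_succ_succ (n + 1) 1
  rw [Nat.choose_one_right] at h1 h3
  have h2 : n + 2 - 2 = n := by omega
  rw [h2, h3, h1]
  omega

end PX
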