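import Pool.Agent.Lib.MP_216314_pr.W.Push
import Pool.Agent.Lib.MP_216314_pr.X.PolA

/-!
# The determinant of the normalised scattering operator is a nonzero polynomial

Proof hints. L = 2 n + 2 points, generators 0, ..., 2 n.
* PolyOp closure: const: p = C (T (Pi.single b 1) a). mul: for v : W → ℂ, F y v a = ∑ c, v c * F y (Pi.single c 1) a (LinearMap.pi_apply_eq_sum_univ, or
  write v = ∑ c, v c • Pi.single c 1 with pi_eq_sum_univ / Finset.univ_sum_single and map_sum), so
  (F y * G y) (single b) a = ∑ c, (G y (single b) c) * (F y (single c) a); p = ∑ c, pG b c * pF c a (choose the polynomials).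
* PolyOp.det: `← LinearMap.det_toMatrix'`, entries `LinearMap.toMatrix'_apply`; choose p b a; D = Matrix.det (Matrix.of fun a b => p b a);
  `RingHom.map_det` for `MvPolynomial.eval y`.
* polyOp_N: lam n y = eval y (∏ k ∈ range (2 n + 1), (C om * X 0 - X (k + 1))); S = P * Cm ...: by induction on m,
  PolyOp (fun y => Cm U.E (y 0) (fun k => y (k + 1)) m) (Cm_succ, Qm = (eval y (C om * X (m+1) - X 0)) • 1 + (eval y (C (om^2) * (X (m+1) - X 0))) • E m).
* lam_ystar: every factor is om * 1 - om^2 or om * 1 - 1, both nonzero (om ≠ 0, om ≠ 1).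
* S_ystar: Claim by induction on m ≤ n: Cm U.E 1 (fun k => ystar (k + 1)) (2 m) = (∏ k ∈ range (2 m), (om * 1 - ystar (k + 1))) • push (evn U.e m)
  (m = 0: push id = 1). Step: Cm (2 m + 1) = Qm (E (2 m)) 1 (om^2 * 1) * .. = (om * 1 - om^2 * 1) • E (2 m) * .. by Qm_om (ystar (2m+1) = om^2),
  Cm (2 m + 2) = Qm (E (2 m + 1)) 1 1 * .. = (om * 1 - 1) • 1 * .. by Qm_self (ystar (2 m + 2) = 1). E (2m) * push (evn U.e m) = push (evn U.e (m+1)) by push_mul, rfl.
  Finally Cm (2 n + 1) = Qm (E (2 n)) 1 (om^2) * Cm (2 n) = lam • push (evn U.e (n + 1)), evn U.e (n + 1) = fun _ => U.top (evn_top, funext), and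
  P * push (fun _ => top) = push (fun _ => v1) (push_mul).
* det_ystar: N ystar = lam • 1 by S_ystar; LinearMap.det_smul, LinearMap.det_id (or map_one), lam_ystar.
* exists_D: polyOp_N.det; D ≠ 0 since eval ystar D ≠ 0.
* exists_fix: N y is surjective (LinearMap.isUnit_iff / LinearMap.equivOfDetNeZero : gives LinearEquiv with the same map) : f with N y f = lam • Pi.single v1 1.
  push (fun _ => v1) g = (∑ g) • Pi.single v1 1 (push_apply). Sum of the components of N y f: lam (∑ f) - lam (∑ f) (sum_S) + lam (∑ f) * 1 = lam, so ∑ f = 1, hence S f = lam f.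
  Uniqueness: S g = lam g ⇒ N y g = lam (∑ g) • single v1 1 = (∑ g) • N y f ⇒ g = (∑ g) • f by injectivity.
-/

set_option autoImplicit false

noncomputable section

namespace PX

open Finset

variable {W : Type} [Fintype W] [DecidableEq W]

/-- operator depending polynomially on the point -/
def PolyOp (F : (ℕ → ℂ) → Module.End ℂ (W → ℂ)) : Prop :=
  ∀ b a, ∃ p : MP, ∀ y, F y (Pi.single b 1) a = MvPolynomial.eval y p

theorem PolyOp.const (T : Module.End ℂ (W → ℂ)) : PolyOp (fun _ => T) := by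
  intro b a
  exact ⟨MvPolynomial.C (T (Pi.single b 1) a), fun y => by rw [MvPolynomial.eval_C]⟩

theorem PolyOp.smul {F : (ℕ → ℂ) → Module.End ℂ (W → ℂ)} (hF : PolyOp F) (p : MP) :
    PolyOp (fun y => MvPolynomial.eval y p • F y) := by
  intro b a
  obtain ⟨q, hq⟩ := hF b a
  refine ⟨p * q, fun y => ?_⟩
  rw [map_mul, ← hq y]
  rfl

theorem PolyOp.add {F G : (ℕ → ℂ) → Module.End ℂ (W → ℂ)} (hF : PolyOp F) (hG : PolyOp G) :
    PolyOp (fun y => F y + G y) := by
  intro b a
  obtain ⟨p, hp⟩ := hF b a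
  obtain ⟨q, hq⟩ := hG b a
  refine ⟨p + q, fun y => ?_⟩
  rw [map_add, ← hp y, ← hq y]
  rfl

theorem PolyOp.sub {F G : (ℕ → ℂ) → Module.End ℂ (W → ℂ)} (hF : PolyOp F) (hG : PolyOp G) :
    PolyOp (fun y => F y - G y) := by
  intro b a
  obtain ⟨p, hp⟩ := hF b a
  obtain ⟨q, hq⟩ := hG b a
  refine ⟨p - q, fun y => ?_⟩
  rw [map_sub, ← hp y, ← hq y]
  rfl

theorem Det_expand (T : Module.End ℂ (W → ℂ)) (v : W → ℂ) (a : W) :
    T v a = ∑ c, v c * T (Pi.single c 1) a := by
  rw [LinearMap.pi_apply_eq_sum_univ T v, Finset.sum_apply]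
  refine Finset.sum_congr rfl fun c _ => ?_
  rw [Pi.smul_apply, smul_eq_mul]
  have h : (fun j => if c = j then (1 : ℂ) else 0) = Pi.single c 1 := by
    funext j
    rw [Pi.single_apply]
    by_cases hj : c = j
    · rw [if_pos hj, if_pos hj.symm]
    · rw [if_neg hj, if_neg (fun h => hj h.symm)]
  rw [h]

theorem PolyOp.mul {F G : (ℕ → ℂ) → Module.End ℂ (W → ℂ)} (hF : PolyOp F) (hG : PolyOp G) :
    PolyOp (fun y => F y * G y) := by
  intro b a
  choose pF hF' using hF
  choose pG hG' using hG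
  refine ⟨∑ c, pG b c * pF c a, fun y => ?_⟩
  rw [map_sum]
  have h1 : (F y * G y) (Pi.single b 1) a = F y (G y (Pi.single b 1)) a := rfl
  rw [h1, Det_expand]
  refine Finset.sum_congr rfl fun c _ => ?_
  rw [map_mul, ← hG' b c y, ← hF' c a y]

theorem PolyOp.det {F : (ℕ → ℂ) → Module.End ℂ (W → ℂ)} (hF : PolyOp F) :
    ∃ D : MP, ∀ y, LinearMap.det (F y) = MvPolynomial.eval y D := by
  choose p hp using hF
  refine ⟨Matrix.det (Matrix.of fun a b => p b a), fun y => ?_⟩
  rw [← LinearMap.det_toMatrix', RingHom.map_det]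
  congr 1
  ext a b
  rw [RingHom.mapMatrix_apply, Matrix.map_apply, Matrix.of_apply, ← hp b a y, LinearMap.toMatrix'_apply]

variable {n : ℕ} (U : Pun n W)

namespace Pun

/-- the vertex in the image of the scattering operator at the special point -/
def v1 : W := U.rho.symm U.top

/-- the operator whose invertibility gives the uniqueness of the fixed vector -/
def N (y : ℕ → ℂ) : Module.End ℂ (W → ℂ) :=
  lam n y • (1 : Module.End ℂ (W → ℂ)) - U.S y + lam n y • push (fun _ => U.v1)

theorem Det_Cm (m : ℕ) : PolyOp (fun y => Cm U.E (y 0) (fun k => y (k + 1)) m) := by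
  induction m with
  | zero => exact PolyOp.const 1
  | succ m ih =>
    have h1 : PolyOp (fun y => Qm (U.E m) (y 0) (y (m + 1))) := by
      have h2 := (PolyOp.smul (PolyOp.const (1 : Module.End ℂ (W → ℂ)))
        (MvPolynomial.C om * MvPolynomial.X (m + 1) - MvPolynomial.X 0)).add
        (PolyOp.smul (PolyOp.const (U.E m))
        (MvPolynomial.C (om ^ 2) * (MvPolynomial.X (m + 1) - MvPolynomial.X 0)))
      have h3 : (fun y : ℕ → ℂ => Qm (U.E m) (y 0) (y (m + 1))) = fun y =>
          MvPolynomial.eval y (MvPolynomial.C om * MvPolynomial.X (m + 1) - MvPolynomial.X 0) •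
            (1 : Module.End ℂ (W → ℂ)) +
          MvPolynomial.eval y (MvPolynomial.C (om ^ 2) * (MvPolynomial.X (m + 1) - MvPolynomial.X 0)) •
            U.E m := by
        funext y
        unfold Qm
        simp only [map_sub, map_mul, MvPolynomial.eval_C, MvPolynomial.eval_X]
      rw [h3]
      exact h2
    have h4 : (fun y : ℕ → ℂ => Cm U.E (y 0) (fun k => y (k + 1)) (m + 1)) = fun y =>
        Qm (U.E m) (y 0) (y (m + 1)) * Cm U.E (y 0) (fun k => y (k + 1)) m := by
      funext y
      rw [Cm_succ]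
    rw [h4]
    exact h1.mul ih

theorem Det_lam (y : ℕ → ℂ) : lam n y = MvPolynomial.eval y
    (∏ k ∈ range (2 * n + 1), (MvPolynomial.C om * MvPolynomial.X 0 - MvPolynomial.X (k + 1)) : MP) := by
  rw [map_prod]
  unfold lam
  refine Finset.prod_congr rfl fun k _ => ?_
  simp only [map_sub, map_mul, MvPolynomial.eval_C, MvPolynomial.eval_X]

theorem Det_om1 : om * 1 - 1 ≠ 0 := by
  intro h
  have h1 : om = 1 := by linear_combination h
  have h2 := om_eq
  rw [h1] at h2
  norm_num at h2

theorem Det_om2 : om * 1 - om ^ 2 ≠ 0 := by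
  intro h
  have h1 : om * (om - 1) = 0 := by linear_combination -h
  rcases mul_eq_zero.1 h1 with h2 | h2
  · have h3 := om_eq
    rw [h2] at h3
    norm_num at h3
  · exact Det_om1 (by linear_combination h2)

theorem polyOp_N : PolyOp U.N := by
  have h1 := ((PolyOp.smul (PolyOp.const (1 : Module.End ℂ (W → ℂ)))
    (∏ k ∈ range (2 * n + 1), (MvPolynomial.C om * MvPolynomial.X 0 - MvPolynomial.X (k + 1)) : MP)).sub
    ((PolyOp.const U.P).mul (U.Det_Cm (2 * n + 1)))).add
    (PolyOp.smul (PolyOp.const (push (fun _ => U.v1)))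
    (∏ k ∈ range (2 * n + 1), (MvPolynomial.C om * MvPolynomial.X 0 - MvPolynomial.X (k + 1)) : MP))
  have h2 : U.N = fun y => MvPolynomial.eval y
      (∏ k ∈ range (2 * n + 1), (MvPolynomial.C om * MvPolynomial.X 0 - MvPolynomial.X (k + 1)) : MP) •
        (1 : Module.End ℂ (W → ℂ)) - U.P * Cm U.E (y 0) (fun k => y (k + 1)) (2 * n + 1) +
      MvPolynomial.eval y
      (∏ k ∈ range (2 * n + 1), (MvPolynomial.C om * MvPolynomial.X 0 - MvPolynomial.X (k + 1)) : MP) •
        push (fun _ => U.v1) := by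
    funext y
    rw [← Det_lam]
    rfl
  rw [h2]
  exact h1

/-- the special point -/
def ystar (k : ℕ) : ℂ := if k % 2 = 0 then 1 else om ^ 2

theorem lam_ystar : lam n ystar ≠ 0 := by
  unfold lam
  refine Finset.prod_ne_zero_iff.2 fun k _ => ?_
  have h0 : ystar 0 = 1 := by
    unfold ystar
    rw [if_pos (by norm_num)]
  rw [h0]
  unfold ystar
  split_ifs
  · exact Det_om1
  · exact Det_om2

theorem Det_even (m : ℕ) : ystar (2 * m + 1 + 1) = 1 := by
  unfold ystar
  rw [if_pos (by omega)]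

theorem Det_odd (m : ℕ) : ystar (2 * m + 1) = om ^ 2 := by
  unfold ystar
  rw [if_neg (by omega)]

theorem Det_step (m : ℕ) : Cm U.E 1 (fun k => ystar (k + 1)) (2 * m + 1) =
    (om * 1 - om ^ 2 * 1) • (U.E (2 * m) * Cm U.E 1 (fun k => ystar (k + 1)) (2 * m)) := by
  rw [Cm_succ, Det_odd]
  have h := Qm_om (U.E (2 * m)) 1
  rw [mul_one (om ^ 2)] at h
  rw [h, smul_mul_assoc, mul_one (om ^ 2)]

theorem Det_claim (m : ℕ) : Cm U.E 1 (fun k => ystar (k + 1)) (2 * m) =
    (∏ k ∈ range (2 * m), (om * 1 - ystar (k + 1))) • push (evn U.e m) := by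
  induction m with
  | zero =>
    rw [Nat.mul_zero, Cm_zero, Finset.range_zero, Finset.prod_empty, one_smul]
    refine LinearMap.ext fun f => ?_
    funext a
    rw [push_apply, Finset.sum_eq_single a]
    · exact (if_pos rfl).symm
    · intro b _ hb
      exact if_neg hb
    · intro h
      exact absurd (Finset.mem_univ _) h
  | succ m ih =>
    have e : 2 * (m + 1) = 2 * m + 1 + 1 := by ring
    rw [e, Cm_succ, Det_even, Qm_self, U.Det_step m, ih, Finset.prod_range_succ, Finset.prod_range_succ,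
      Det_even, Det_odd, smul_mul_assoc, one_mul, mul_smul_comm, smul_smul, smul_smul]
    have h1 : U.E (2 * m) * push (evn U.e m) = push (evn U.e (m + 1)) := by
      unfold E
      rw [push_mul]
      rfl
    rw [h1]
    congr 1
    ring

theorem S_ystar : U.S ystar = lam n ystar • push (fun _ => U.v1) := by
  have h0 : ystar 0 = 1 := by
    unfold ystar
    rw [if_pos (by norm_num)]
  unfold S Sc
  rw [h0, U.Det_step n, U.Det_claim n]
  have h1 : U.E (2 * n) * push (evn U.e n) = push (fun _ => U.top) := by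
    unfold E
    rw [push_mul]
    congr 1
    funext a
    exact U.evn_top a
  have h2 : U.P * push (fun _ => U.top) = push (fun _ => U.v1) := by
    unfold P
    rw [push_mul]
    rfl
  rw [mul_smul_comm, mul_smul_comm, h1, mul_smul_comm, h2, smul_smul]
  congr 1
  unfold lam
  rw [Finset.prod_range_succ, h0, Det_odd]
  ring

theorem det_ystar : LinearMap.det (U.N ystar) ≠ 0 := by
  have h1 : U.N ystar = lam n ystar • (1 : Module.End ℂ (W → ℂ)) := by
    unfold N
    rw [U.S_ystar, sub_add_cancel]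
  rw [h1, LinearMap.det_smul, map_one, mul_one]
  exact pow_ne_zero _ lam_ystar

theorem exists_D : ∃ D : MP, D ≠ 0 ∧ ∀ y, LinearMap.det (U.N y) = MvPolynomial.eval y D := by
  obtain ⟨D, hD⟩ := U.polyOp_N.det
  refine ⟨D, ?_, hD⟩
  rintro rfl
  apply U.det_ystar
  rw [hD, map_zero]

theorem Det_push (v : W) (g : W → ℂ) : push (fun _ => v) g = (∑ a, g a) • (Pi.single v 1 : W → ℂ) := by
  funext a
  rw [push_apply, Pi.smul_apply, smul_eq_mul, Pi.single_apply]
  by_cases h : a = v
  · rw [if_pos h, mul_one]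
    refine Finset.sum_congr rfl fun b _ => ?_
    rw [if_pos h.symm]
  · rw [if_neg h, mul_zero]
    refine Finset.sum_eq_zero fun b _ => ?_
    exact if_neg fun h' => h h'.symm

theorem Det_N (y : ℕ → ℂ) (g : W → ℂ) : U.N y g = lam n y • g - U.S y g +
    (lam n y * ∑ a, g a) • (Pi.single U.v1 1 : W → ℂ) := by
  unfold N
  rw [LinearMap.add_apply, LinearMap.sub_apply, LinearMap.smul_apply, LinearMap.smul_apply,
    Module.End.one_apply, Det_push, smul_smul]

/-- consequences of the invertibility: the fixed vector exists and is unique -/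
theorem exists_fix (y : ℕ → ℂ) (hl : lam n y ≠ 0) (h : LinearMap.det (U.N y) ≠ 0) :
    ∃ f : W → ℂ, U.S y f = lam n y • f ∧ ∑ a, f a = 1 ∧
      ∀ g : W → ℂ, U.S y g = lam n y • g → g = (∑ a, g a) • f := by
  have hb : Function.Bijective (U.N y) := by
    rw [← Module.End.isUnit_iff, LinearMap.isUnit_iff_isUnit_det]
    exact isUnit_iff_ne_zero.2 h
  obtain ⟨f, hf⟩ := hb.2 (lam n y • (Pi.single U.v1 1 : W → ℂ))
  have hsing : ∑ a, (Pi.single U.v1 1 : W → ℂ) a = 1 := by
    simp [Pi.single_apply]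
  have hsum : ∑ a, f a = 1 := by
    have h1 := congrArg (fun g : W → ℂ => ∑ a, g a) hf
    simp only [U.Det_N, Pi.add_apply, Pi.sub_apply, Pi.smul_apply, smul_eq_mul, Finset.sum_add_distrib,
      Finset.sum_sub_distrib, ← Finset.mul_sum, hsing, U.sum_S, mul_one] at h1
    have h2 : lam n y * ∑ a, f a = lam n y * 1 := by linear_combination h1
    exact mul_left_cancel₀ hl h2
  have hfix : U.S y f = lam n y • f := by
    rw [U.Det_N, hsum, mul_one] at hf
    have h3 := add_eq_right.1 hf
    exact (sub_eq_zero.1 h3).symm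
  refine ⟨f, hfix, hsum, fun g hg => ?_⟩
  apply hb.1
  rw [map_smul, hf, U.Det_N, hg, sub_self, zero_add, smul_smul]
  congr 1
  ring

end Pun

end PX
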