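import Pool.Agent.Lib.MP_216314_pr.W.PolW

/-!
# Existence of the polynomial solution for both primitive cube roots of unity
-/

set_option autoImplicit false

noncomputable section

namespace PX

open Finset

/-- `F(a, b) = q a - q^2 b` -/
def Fq (q a b : ℂ) : ℂ := q * a - q ^ 2 * b

theorem cube_root_cases (q : ℂ) (hq : q ^ 2 + q + 1 = 0) : q = om ∨ q = om ^ 2 := by
  have h : (q - om) * (q - om ^ 2) = 0 := by linear_combination hq - (q - om + 1) * om_eq
  rcases mul_eq_zero.1 h with h | h
  · left; exact sub_eq_zero.1 h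
  · right; exact sub_eq_zero.1 h

theorem conj_om : (starRingEnd ℂ) om = om ^ 2 := by
  have h : om ^ 2 = -om - 1 := om_sq
  rw [h]
  apply Complex.ext
  · simp only [om, Complex.conj_re, Complex.sub_re, Complex.neg_re, Complex.one_re]
    norm_num
  · simp only [om, Complex.conj_im, Complex.sub_im, Complex.neg_im, Complex.one_im]
    ring

/-- complex conjugation of the coefficients -/
def cj (p : MP) : MP := MvPolynomial.map (starRingEnd ℂ) p

theorem eval_cj (p : MP) (y : ℕ → ℂ) : MvPolynomial.eval y (cj p) =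
    (starRingEnd ℂ) (MvPolynomial.eval (fun k => (starRingEnd ℂ) (y k)) p) := by
  unfold cj
  induction p using MvPolynomial.induction_on with
  | C a => simp
  | add p q hp hq => simp only [map_add, hp, hq]
  | mul_X p k hp =>
    simp only [map_mul, hp, MvPolynomial.map_X, MvPolynomial.eval_X, Complex.conj_conj]

theorem phiS_cj (S : Finset ℕ) (p : MP) :
    phiS S (cj p) = Polynomial.map (MvPolynomial.map (starRingEnd ℂ)) (phiS S p) := by
  unfold cj
  induction p using MvPolynomial.induction_on with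
  | C a =>
    simp only [MvPolynomial.map_C, phiS]
    rw [← MvPolynomial.algebraMap_eq, AlgHom.commutes, AlgHom.commutes]
    simp only [Polynomial.algebraMap_apply, MvPolynomial.algebraMap_eq, Polynomial.map_C,
      MvPolynomial.map_C]
  | add p q hp hq => simp only [map_add, hp, hq, Polynomial.map_add]
  | mul_X p k hp =>
    simp only [map_mul, hp, MvPolynomial.map_X, Polynomial.map_mul]
    congr 1
    unfold phiS
    rw [MvPolynomial.aeval_X]
    split_ifs
    · rw [Polynomial.map_mul, Polynomial.map_X, Polynomial.map_C, MvPolynomial.map_X]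
    · rw [Polynomial.map_C, MvPolynomial.map_X]

theorem dS_cj (S : Finset ℕ) (p : MP) : dS S (cj p) ≤ dS S p := by
  unfold dS
  rw [phiS_cj]
  exact Polynomial.natDegree_map_le

theorem conj_sw (i : ℕ) (y : ℕ → ℂ) : (fun k => (starRingEnd ℂ) (sw i y k)) =
    sw i (fun k => (starRingEnd ℂ) (y k)) := rfl

theorem conj_mv (m : ℕ) (y : ℕ → ℂ) : (fun k => (starRingEnd ℂ) (mv m y k)) =
    mv m (fun k => (starRingEnd ℂ) (y k)) := by
  funext k
  unfold mv
  split_ifs <;> rfl

/-- the base component for the cube root `q` -/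
def VBq (q : ℂ) (L : ℕ) (y : ℕ → ℂ) : ℂ := ∏ j ∈ range L, ∏ i ∈ range j, Fq q (y i) (y j)

theorem VBq_eq (L : ℕ) (y : ℕ → ℂ) :
    VBq (om ^ 2) L y = om ^ (∑ j ∈ range L, j) * MvPolynomial.eval y (VB L) := by
  rw [eval_VB, VBq, ← Finset.prod_pow_eq_pow_sum, ← Finset.prod_mul_distrib]
  refine Finset.prod_congr rfl fun j _ => ?_
  have h : om ^ j = ∏ i ∈ range j, om := by rw [Finset.prod_const, Finset.card_range]
  rw [h, ← Finset.prod_mul_distrib]
  refine Finset.prod_congr rfl fun i _ => ?_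
  unfold Fq
  linear_combination (-om * y j) * om_cube

theorem VBq_conj (L : ℕ) (y : ℕ → ℂ) :
    VBq om L y = (starRingEnd ℂ) (VBq (om ^ 2) L fun k => (starRingEnd ℂ) (y k)) := by
  unfold VBq
  rw [map_prod]
  refine Finset.prod_congr rfl fun j _ => ?_
  rw [map_prod]
  refine Finset.prod_congr rfl fun i _ => ?_
  unfold Fq
  simp only [map_sub, map_mul, map_pow, Complex.conj_conj, conj_om]
  linear_combination (-om * y i + om ^ 2 * y j * (om ^ 3 + 1)) * om_cube

variable {W : Type} [Fintype W] [DecidableEq W] {n : ℕ}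

/-- solution of the exchange and rotation relations for the cube root `q` -/
structure IsSol (U : Pun n W) (q : ℂ) (Ψ : W → MP) : Prop where
  base : ∀ y, MvPolynomial.eval y (Ψ U.base) = VBq q (2 * n + 2) y
  deg : ∀ a, DegOK (2 * n + 2) (Ψ a)
  exch : ∀ i, i < 2 * n + 1 → ∀ (y : ℕ → ℂ) (a : W),
    Fq q (y (i + 1)) (y i) * MvPolynomial.eval y (Ψ a) +
      (y (i + 1) - y i) * (∑ b, if U.e i b = a then MvPolynomial.eval y (Ψ b) else 0) =
      Fq q (y i) (y (i + 1)) * MvPolynomial.eval (sw i y) (Ψ a)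
  rot : ∀ (y : ℕ → ℂ) (a : W), MvPolynomial.eval (mv (2 * n + 1) y) (Ψ (U.rho a)) =
    MvPolynomial.eval y (Ψ a)

theorem exists_sol_om2 (U : Pun n W) : ∃ Ψ : W → MP, IsSol U (om ^ 2) Ψ := by
  obtain ⟨Ψ, h1, h2, h3, h4⟩ := U.exists_Psi
  refine ⟨fun a => MvPolynomial.C (om ^ (∑ j ∈ range (2 * n + 2), j)) * Ψ a, ?_, ?_, ?_, ?_⟩
  · intro y
    rw [map_mul, MvPolynomial.eval_C, h1, VBq_eq]
  · intro a
    exact (h2 a).C_mul _
  · intro i hi y a
    have h := h3 i hi y a
    set c := om ^ (∑ j ∈ range (2 * n + 2), j)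
    have e : (∑ b, if U.e i b = a then MvPolynomial.eval y (MvPolynomial.C c * Ψ b) else 0) =
        c * ∑ b, if U.e i b = a then MvPolynomial.eval y (Ψ b) else 0 := by
      rw [Finset.mul_sum]
      refine Finset.sum_congr rfl fun b _ => ?_
      split_ifs
      · rw [map_mul, MvPolynomial.eval_C]
      · rw [mul_zero]
    rw [e]
    simp only [map_mul, MvPolynomial.eval_C]
    set s := ∑ b, if U.e i b = a then MvPolynomial.eval y (Ψ b) else 0
    unfold Fq
    linear_combination (-om * c) * h - c * (om * y i * MvPolynomial.eval y (Ψ a)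
      - om * y (i + 1) * MvPolynomial.eval (sw i y) (Ψ a) + (y (i + 1) - y i) * s) * om_cube
  · intro y a
    simp only [map_mul, MvPolynomial.eval_C]
    rw [h4]

theorem exists_sol_om (U : Pun n W) : ∃ Ψ : W → MP, IsSol U om Ψ := by
  obtain ⟨Ψ, h⟩ := exists_sol_om2 U
  refine ⟨fun a => cj (Ψ a), ?_, ?_, ?_, ?_⟩
  · intro y
    rw [eval_cj, h.base, VBq_conj]
  · intro a S
    exact le_trans (dS_cj S (Ψ a)) (h.deg a S)
  · intro i hi y a
    have h1 := congrArg (starRingEnd ℂ) (h.exch i hi (fun k => (starRingEnd ℂ) (y k)) a)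
    simp only [eval_cj, conj_sw]
    have e : (∑ b, if U.e i b = a then (starRingEnd ℂ) (MvPolynomial.eval
        (fun k => (starRingEnd ℂ) (y k)) (Ψ b)) else 0) = (starRingEnd ℂ) (∑ b, if U.e i b = a then
        MvPolynomial.eval (fun k => (starRingEnd ℂ) (y k)) (Ψ b) else 0) := by
      rw [map_sum]
      refine Finset.sum_congr rfl fun b _ => ?_
      split_ifs
      · rfl
      · rw [map_zero]
    rw [e]
    unfold Fq at h1 ⊢
    simp only [map_add, map_sub, map_mul, map_pow, Complex.conj_conj, conj_om] at h1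
    set A := (starRingEnd ℂ) (MvPolynomial.eval (fun k => (starRingEnd ℂ) (y k)) (Ψ a))
    set B := (starRingEnd ℂ) (∑ b, if U.e i b = a then
        MvPolynomial.eval (fun k => (starRingEnd ℂ) (y k)) (Ψ b) else 0)
    set A' := (starRingEnd ℂ) (MvPolynomial.eval (sw i fun k => (starRingEnd ℂ) (y k)) (Ψ a))
    linear_combination h1 - (A * (y (i + 1) * om - y i * om ^ 2 * (om ^ 3 + 1))
      - A' * (y i * om - y (i + 1) * om ^ 2 * (om ^ 3 + 1))) * om_cube
  · intro y a
    rw [eval_cj, eval_cj, conj_mv, h.rot]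

theorem exists_sol (U : Pun n W) (q : ℂ) (hq : q ^ 2 + q + 1 = 0) : ∃ Ψ : W → MP, IsSol U q Ψ := by
  rcases cube_root_cases q hq with h | h
  · rw [h]; exact exists_sol_om U
  · rw [h]; exact exists_sol_om2 U

end PX
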