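import Pool.Agent.Lib.MP_216314_pr.W.Det
import Pool.Agent.Lib.MP_216314_pr.X.GenA

/-!
# Generic points

Proof hints.
* Good.lam: lam is a product of om * y 0 - y (k + 1), k + 1 < 2 n + 2: first condition (Finset.prod_ne_zero_iff, sub_ne_zero). Good.det: π = 1.
* Good.sw: sw i y k = y (swap i (i+1) k): first condition: swap is injective and preserves {0..2n+1} as i + 1 < 2 n + 2. Second: (sw i y) (π k) = y ((swap * π) k) and
  swap i (i+1) * π fixes every k ≥ 2 n + 2.
* good_dense: D from exists_D. The set of π with ∀ k ≥ 2 n + 2, π k = k is finite (Set.Finite: the map π ↦ (fun k : Fin (2n+2) => π k) into functions Fin (2n+2) → Fin (2n+2) is injective;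
  π maps {0..2n+1} into itself by injectivity: if π k ≥ 2 n + 2 with k < 2 n + 2 then π (π k) = π k gives π k = k, contradiction). Let s be its toFinset.
  Q = (∏ i ∈ range (2n+2), ∏ j ∈ (range (2n+2)).erase i, ((X i - X j) * (C om * X i - X j))) * ∏ π ∈ s, rename π D.
  Nonzero: X i - X j ≠ 0 (X_sub_ne in X/PolA); C om * X i - X j ≠ 0 (evaluate at the point with y i = 1, y j = 0: om ≠ 0); rename π D ≠ 0 (rename_injective).
  eval y (rename π D) = eval (y ∘ π) D (eval_rename).
* good_ext: (p - q) * Q evaluates to 0 everywhere (MvPolynomial.funext), Q ≠ 0, domain.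
* mv: unfold, funext, split_ifs, omega; mv_succ with `sw` unfolded: swap m (m+1) k by cases k = m, k = m + 1, other. Good.mv: induction on m with mv_succ, mv_zero, Good.sw.
-/

set_option autoImplicit false

noncomputable section

namespace PX

open Finset

variable {W : Type} [Fintype W] [DecidableEq W] {n : ℕ} (U : Pun n W)

namespace Pun

/-- generic points: different coordinates (up to a factor `om`), unique fixed vectors for all orders of the coordinates -/
def Good (y : ℕ → ℂ) : Prop :=
  (∀ i j, i < 2 * n + 2 → j < 2 * n + 2 → i ≠ j → y i ≠ y j ∧ om * y i ≠ y j) ∧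
    ∀ π : Equiv.Perm ℕ, (∀ k, 2 * n + 2 ≤ k → π k = k) → LinearMap.det (U.N (fun k => y (π k))) ≠ 0

variable {U}

theorem Good.lam {y : ℕ → ℂ} (h : U.Good y) : lam n y ≠ 0 := by
  unfold Pun.lam
  rw [Finset.prod_ne_zero_iff]
  intro k hk
  rw [Finset.mem_range] at hk
  exact sub_ne_zero.2 (h.1 0 (k + 1) (by omega) (by omega) (by omega)).2

theorem Good.det {y : ℕ → ℂ} (h : U.Good y) : LinearMap.det (U.N y) ≠ 0 :=
  h.2 1 (fun _ _ => rfl)

private theorem Good_swap_lt {L i k : ℕ} (hi : i + 1 < L) (hk : k < L) :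
    Equiv.swap i (i + 1) k < L := by
  rcases eq_or_ne k i with h1 | h1
  · rw [h1, Equiv.swap_apply_left]
    exact hi
  · rcases eq_or_ne k (i + 1) with h2 | h2
    · rw [h2, Equiv.swap_apply_right]
      omega
    · rw [Equiv.swap_apply_of_ne_of_ne h1 h2]
      exact hk

theorem Good.sw {y : ℕ → ℂ} (h : U.Good y) {i : ℕ} (hi : i < 2 * n + 1) : U.Good (sw i y) := by
  refine ⟨fun a b ha hb hab => ?_, fun π hπ => ?_⟩
  · exact h.1 _ _ (Good_swap_lt (by omega) ha) (Good_swap_lt (by omega) hb)
      (fun h1 => hab ((Equiv.swap i (i + 1)).injective h1))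
  · refine h.2 (Equiv.swap i (i + 1) * π) fun k hk => ?_
    rw [Equiv.Perm.mul_apply, hπ k hk, Equiv.swap_apply_of_ne_of_ne (by omega) (by omega)]

private theorem Good_fin (L : ℕ) :
    {π : Equiv.Perm ℕ | ∀ k, L ≤ k → π k = k}.Finite := by
  have hlt : ∀ π : Equiv.Perm ℕ, (∀ k, L ≤ k → π k = k) → ∀ k, k < L → π k < L := by
    intro π hπ k hk
    by_contra hcon
    have h1 := hπ (π k) (by omega)
    have h2 := π.injective h1
    omega
  refine Set.Finite.of_injOn (f := fun (π : Equiv.Perm ℕ) (k : Fin L) =>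
    if h : π k < L then (⟨π k, h⟩ : Fin L) else k) (t := Set.univ) (fun _ _ => Set.mem_univ _) ?_
    Set.finite_univ
  intro π hπ π' hπ' h
  refine Equiv.ext fun k => ?_
  rcases Nat.lt_or_ge k L with hk | hk
  · have h1 := congrFun h ⟨k, hk⟩
    simp only at h1
    rw [dif_pos (hlt π hπ k hk), dif_pos (hlt π' hπ' k hk)] at h1
    exact congrArg Fin.val h1
  · rw [hπ k hk, hπ' k hk]

private theorem Good_om_sub {i j : ℕ} (h : i ≠ j) :
    (MvPolynomial.C om * MvPolynomial.X i - MvPolynomial.X j : MP) ≠ 0 := by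
  intro h0
  have h1 := congrArg (MvPolynomial.eval (fun k => if k = i then (1 : ℂ) else 0)) h0
  rw [map_sub, map_mul, MvPolynomial.eval_C, MvPolynomial.eval_X, MvPolynomial.eval_X, if_pos rfl,
    if_neg h.symm, map_zero, mul_one, sub_zero] at h1
  exact om_ne_zero h1

variable (U)

theorem good_dense : ∃ Q : MP, Q ≠ 0 ∧ ∀ y, MvPolynomial.eval y Q ≠ 0 → U.Good y := by
  obtain ⟨D, hD, hDe⟩ := U.exists_D
  refine ⟨(∏ i ∈ range (2 * n + 2), ∏ j ∈ (range (2 * n + 2)).erase i,
    ((MvPolynomial.X i - MvPolynomial.X j) *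
      (MvPolynomial.C om * MvPolynomial.X i - MvPolynomial.X j))) *
    ∏ π ∈ (Good_fin (2 * n + 2)).toFinset, MvPolynomial.rename π D, ?_, ?_⟩
  · refine mul_ne_zero ?_ ?_
    · rw [Finset.prod_ne_zero_iff]
      intro i _
      rw [Finset.prod_ne_zero_iff]
      intro j hj
      have hij : i ≠ j := (Finset.ne_of_mem_erase hj).symm
      exact mul_ne_zero (X_sub_ne i j hij) (Good_om_sub hij)
    · rw [Finset.prod_ne_zero_iff]
      intro π _
      exact (map_ne_zero_iff _ (MvPolynomial.rename_injective π π.injective)).2 hD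
  · intro y hy
    rw [map_mul, map_prod, map_prod] at hy
    have h1 := left_ne_zero_of_mul hy
    have h2 := right_ne_zero_of_mul hy
    rw [Finset.prod_ne_zero_iff] at h1 h2
    refine ⟨fun i j hi hj hij => ?_, fun π hπ => ?_⟩
    · have h3 := h1 i (Finset.mem_range.2 hi)
      rw [map_prod, Finset.prod_ne_zero_iff] at h3
      have h4 := h3 j (Finset.mem_erase.2 ⟨hij.symm, Finset.mem_range.2 hj⟩)
      rw [map_mul, map_sub, map_sub, map_mul, MvPolynomial.eval_C, MvPolynomial.eval_X,
        MvPolynomial.eval_X] at h4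
      exact ⟨sub_ne_zero.1 (left_ne_zero_of_mul h4), sub_ne_zero.1 (right_ne_zero_of_mul h4)⟩
    · have h3 := h2 π ((Good_fin (2 * n + 2)).mem_toFinset.2 hπ)
      rw [MvPolynomial.eval_rename] at h3
      rw [hDe]
      exact h3

/-- two polynomials which agree at the generic points are equal -/
theorem good_ext {p q : MP} (h : ∀ y, U.Good y → MvPolynomial.eval y p = MvPolynomial.eval y q) :
    p = q := by
  obtain ⟨Q, hQ, hQg⟩ := U.good_dense
  have h1 : (p - q) * Q = 0 := by
    apply MvPolynomial.funext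
    intro y
    rw [map_mul, map_sub, map_zero]
    by_cases hy : MvPolynomial.eval y Q = 0
    · rw [hy, mul_zero]
    · rw [h y (hQg y hy), sub_self, zero_mul]
  exact sub_eq_zero.1 ((mul_eq_zero.1 h1).resolve_right hQ)

end Pun

/-- the first coordinate is moved to the position `m` -/
def mv (m : ℕ) (y : ℕ → ℂ) : ℕ → ℂ := fun k => if k < m then y (k + 1) else if k = m then y 0 else y k

theorem mv_zero (y : ℕ → ℂ) : mv 0 y = y := by
  funext k
  unfold mv
  rw [if_neg (Nat.not_lt_zero k)]
  by_cases hk : k = 0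
  · rw [if_pos hk, hk]
  · rw [if_neg hk]

theorem mv_self (m : ℕ) (y : ℕ → ℂ) : mv m y m = y 0 := by
  unfold mv
  rw [if_neg (lt_irrefl m), if_pos rfl]

theorem mv_self_succ (m : ℕ) (y : ℕ → ℂ) : mv m y (m + 1) = y (m + 1) := by
  unfold mv
  rw [if_neg (by omega), if_neg (by omega)]

theorem mv_succ (m : ℕ) (y : ℕ → ℂ) : mv (m + 1) y = sw m (mv m y) := by
  funext k
  rcases eq_or_ne k m with h1 | h1
  · rw [h1, sw_left, mv_self_succ]
    unfold mv
    rw [if_pos (by omega)]
  · rcases eq_or_ne k (m + 1) with h2 | h2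
    · rw [h2, sw_right, mv_self, mv_self]
    · rw [sw_of_ne m _ h1 h2]
      unfold mv
      by_cases h3 : k < m
      · rw [if_pos h3, if_pos (by omega)]
      · rw [if_neg h3, if_neg h1, if_neg (by omega), if_neg h2]

theorem Pun.Good.mv {W : Type} [Fintype W] [DecidableEq W] {n : ℕ} {U : Pun n W} {y : ℕ → ℂ}
    (h : U.Good y) {m : ℕ} (hm : m ≤ 2 * n + 1) : U.Good (PX.mv m y) := by
  induction m with
  | zero =>
    rw [mv_zero]
    exact h
  | succ m ih =>
    rw [mv_succ]
    exact (ih (by omega)).sw (by omega)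

end PX
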