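import Pool.Agent.Lib.MP_216314_pr.W.Defs
import Pool.Agent.Lib.MP_216314_pr.R.WTrig

/-!
# Translation of the definitions
-/

set_option autoImplicit false

noncomputable section

namespace FKW

open Finset FKR

/-- an edge as a dart -/
def em : (V × Fin 3) ↪ Dart QV where
  toFun e := (e.1, if e.2 = 0 then 0 else if e.2 = 1 then 1 else 2)
  inj' := by
    rintro ⟨v, k⟩ ⟨v', k'⟩ h
    simp only [Prod.mk.injEq] at h
    obtain ⟨rfl, h⟩ := h
    congr 1
    fin_cases k <;> fin_cases k' <;> simp_all <;> revert h <;> decide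

theorem em0 (v : V) : em (v, 0) = (v, 0) := rfl
theorem em1 (v : V) : em (v, 1) = (v, 1) := rfl
theorem em2 (v : V) : em (v, 2) = (v, 2) := rfl

theorem nb0 (i a b : ℕ) : nb ((i, a, b), 0) = (i, a + 1, b) := rfl
theorem nb1 (i a b : ℕ) : nb ((i, a, b), 1) = (i, a, b + 1) := rfl
theorem nb2 (i a b : ℕ) : nb ((i, a, b), 2) = (i + 1, b, 0) := rfl

theorem k3_cases (k : Fin 3) : k = 0 ∨ k = 1 ∨ k = 2 := by
  fin_cases k <;> simp

theorem nb_em {e : V × Fin 3} (h : e.2 = 2 → e.1.2.1 = 0) : (wopp (em e)).1 = nb e := by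
  obtain ⟨⟨i, a, b⟩, k⟩ := e
  rcases k3_cases k with rfl | rfl | rfl
  · rw [em0, wopp0, nb0]
  · rw [em1, wopp1, nb1]
  · have h1 : a = 0 := h rfl
    subst h1
    rw [em2, wopp2', nb2]

theorem mem_edges {S : Finset V} {e : V × Fin 3} :
    e ∈ edges S ↔ e.1 ∈ S ∧ nb e ∈ S ∧ (e.2 = 2 → e.1.2.1 = 0) := by
  unfold edges
  rw [mem_filter, mem_product]
  simp only [mem_univ, and_true]

theorem edges_map (S : Finset V) : (edges S).map em = indE S := by
  ext ⟨v, k⟩
  rw [mem_map]
  constructor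
  · rintro ⟨e, he, h⟩
    obtain ⟨h1, h2, h3⟩ := mem_edges.1 he
    rw [← h]
    obtain ⟨v', k'⟩ := e
    have h4 := nb_em (e := (v', k')) h3
    rcases k3_cases k' with rfl | rfl | rfl
    · rw [em0] at h4 ⊢
      exact mem_indE.2 ⟨h1, by rw [h4]; exact h2, Or.inl rfl⟩
    · rw [em1] at h4 ⊢
      exact mem_indE.2 ⟨h1, by rw [h4]; exact h2, Or.inr (Or.inl rfl)⟩
    · rw [em2] at h4 ⊢
      exact mem_indE.2 ⟨h1, by rw [h4]; exact h2, Or.inr (Or.inr ⟨rfl, h3 rfl⟩)⟩
  · intro h
    obtain ⟨h1, h2, h3⟩ := mem_indE.1 h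
    have d02 : ¬ ((0 : Fin 3) = 2) := by decide
    have d12 : ¬ ((1 : Fin 3) = 2) := by decide
    rcases h3 with rfl | rfl | ⟨rfl, h3⟩
    · have h4 := nb_em (e := (v, 0)) (fun h => absurd h d02)
      rw [em0] at h4
      exact ⟨(v, 0), mem_edges.2 ⟨h1, by rw [← h4]; exact h2, fun h => absurd h d02⟩, rfl⟩
    · have h4 := nb_em (e := (v, 1)) (fun h => absurd h d12)
      rw [em1] at h4
      exact ⟨(v, 1), mem_edges.2 ⟨h1, by rw [← h4]; exact h2, fun h => absurd h d12⟩, rfl⟩
    · have h4 := nb_em (e := (v, 2)) (fun _ => h3)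
      rw [em2] at h4
      exact ⟨(v, 2), mem_edges.2 ⟨h1, by rw [← h4]; exact h2, fun _ => h3⟩, rfl⟩

theorem gr_em {S : Finset V} {ω : Finset (V × Fin 3)} (hω : ω ⊆ edges S) :
    (ind S).gph (ω.map em) = gr ω := by
  unfold Glue.gph gr
  congr 1
  funext u v
  apply propext
  constructor
  · rintro ⟨e, he, h1, h2⟩
    obtain ⟨e', he', rfl⟩ := mem_map.1 he
    refine ⟨e', he', h1, ?_⟩
    rw [← nb_em (mem_edges.1 (hω he')).2.2]
    exact h2
  · rintro ⟨e, he, h1, h2⟩
    refine ⟨em e, mem_map_of_mem em he, h1, ?_⟩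
    show (wopp (em e)).1 = v
    rw [nb_em (mem_edges.1 (hω he)).2.2]
    exact h2

theorem wt_em {q : ℝ} {S : Finset V} {ω : Finset (V × Fin 3)} (hω : ω ⊆ edges S) :
    (ind S).wt q (ω.map em) = wt q S ω := by
  unfold Glue.wt wt Glue.clus clusters
  rw [gr_em hω, card_map]
  rfl

theorem sum_em (S : Finset V) (F : Finset (Dart QV) → ℝ) :
    ∑ ω ∈ (ind S).cfg ∅, F ω = ∑ ω ∈ (edges S).powerset, F (ω.map em) := by
  have h1 : (ind S).cfg ∅ = (edges S).powerset.map (mapEmbedding em).toEmbedding := by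
    ext ω
    rw [Glue.mem_cfg, mem_map]
    constructor
    · rintro ⟨h, _⟩
      have h' : ω ⊆ (edges S).map em := by rw [edges_map]; exact h
      obtain ⟨ω', h2, rfl⟩ := subset_map_iff.1 h'
      exact ⟨ω', mem_powerset.2 h2, rfl⟩
    · rintro ⟨ω', h2, rfl⟩
      refine ⟨?_, empty_subset _⟩
      show ω'.map em ⊆ indE S
      rw [← edges_map]
      exact map_subset_map.2 (mem_powerset.1 h2)
  rw [h1, sum_map]
  rfl

theorem prob_eq (q : ℝ) (S : Finset V) (u v : V) : prob q S u v = pS q S u v := by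
  classical
  unfold pS
  rw [Glue.Pr_eq, sum_em, sum_em]
  unfold prob
  congr 1
  · apply sum_congr rfl
    intro ω hω
    rw [mem_powerset] at hω
    rw [gr_em hω, wt_em hω]
  · apply sum_congr rfl
    intro ω hω
    rw [mem_powerset] at hω
    rw [wt_em hω]

theorem wedge_eq (t : Bool) (J : ℕ) (m : ℕ → ℕ) : wedge t J m = WS t J m := by
  ext ⟨i, a, b⟩
  rw [mem_WS]
  unfold wedge
  simp only [mem_biUnion, mem_range, mem_filter, mem_product, mem_singleton]
  cases t with
  | false =>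
    rw [hf_false]
    simp only [Bool.false_eq_true, false_implies, and_true]
    constructor
    · rintro ⟨i', h1, h0, h2, h3⟩
      rw [← h0] at h1 h2 h3
      rcases Nat.lt_or_ge i J with h4 | h4
      · left; omega
      · right
        have h6 : i = J := by omega
        rw [h6] at h2 h3
        exact ⟨h6, by omega, by omega⟩
    · rintro (h1 | ⟨rfl, h2, h3⟩)
      · exact ⟨i, by omega, rfl, by omega, by omega⟩
      · exact ⟨i, by omega, rfl, by omega, by omega⟩
  | true =>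
    rw [hf_true]
    simp only [true_implies]
    constructor
    · rintro ⟨i', h1, ⟨h0, h2, h3⟩, h5⟩
      rw [← h0] at h1 h2 h3
      rcases Nat.lt_or_ge i J with h4 | h4
      · left; omega
      · right
        have h6 : i = J := by omega
        have h7 := h5 h6
        rw [h6] at h2 h3
        exact ⟨h6, by omega, by omega⟩
    · rintro (h1 | ⟨rfl, h2, h3⟩)
      · exact ⟨i, by omega, ⟨rfl, by omega, by omega⟩, fun h => by omega⟩
      · exact ⟨i, by omega, ⟨rfl, by omega, by omega⟩, fun _ => by omega⟩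

theorem far_eq (t : Bool) (J : ℕ) (m : ℕ → ℕ) (k : ℕ) : far t J m k = sideF t J m k := by
  unfold far sideF
  rw [wedge_eq]
  apply filter_congr
  intro v _
  tauto

end FKW
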