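import Pool.Agent.Lib.MP_216314_pr.W.Alg

/-!
# Strands moving over other strands
-/

set_option autoImplicit false

noncomputable section

namespace PX

open Finset

section

variable {A : Type*} [Ring A]

/-- Temperley-Lieb relations (weight one) for the generators `0, ..., N-1` -/
structure TL (E : ℕ → A) (N : ℕ) : Prop where
  idem : ∀ i, i < N → E i * E i = E i
  tl : ∀ i, i + 1 < N → E i * E (i + 1) * E i = E i
  tl' : ∀ i, i + 1 < N → E (i + 1) * E i * E (i + 1) = E (i + 1)
  far : ∀ i j, i + 2 ≤ j → j < N → E i * E j = E j * E i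

theorem TL.mono {E : ℕ → A} {N M : ℕ} (h : TL E N) (hM : M ≤ N) : TL E M :=
  ⟨fun i hi => h.idem i (by omega), fun i hi => h.tl i (by omega), fun i hi => h.tl' i (by omega),
    fun i j h1 h2 => h.far i j h1 (by omega)⟩

theorem TL.shift {E : ℕ → A} {N : ℕ} (h : TL E (N + 1)) : TL (fun k => E (k + 1)) N :=
  ⟨fun i hi => h.idem (i + 1) (by omega), fun i hi => h.tl (i + 1) (by omega),
    fun i hi => h.tl' (i + 1) (by omega), fun i j h1 h2 => h.far (i + 1) (j + 1) (by omega) (by omega)⟩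

end

variable {A : Type*} [Ring A] [Algebra ℂ A]

/-- the strand with parameter `x` moves to the right over `m` strands with the parameters `v k` -/
def Cm (E : ℕ → A) (x : ℂ) (v : ℕ → ℂ) : ℕ → A
  | 0 => 1
  | m + 1 => Qm (E m) x (v m) * Cm E x v m

theorem Cm_zero (E : ℕ → A) (x : ℂ) (v : ℕ → ℂ) : Cm E x v 0 = 1 := rfl

theorem Cm_succ (E : ℕ → A) (x : ℂ) (v : ℕ → ℂ) (m : ℕ) :
    Cm E x v (m + 1) = Qm (E m) x (v m) * Cm E x v m := rfl

theorem Cm_succ' (E : ℕ → A) (x : ℂ) (v : ℕ → ℂ) (m : ℕ) :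
    Cm E x v (m + 1) = Cm (fun k => E (k + 1)) x (fun k => v (k + 1)) m * Qm (E 0) x (v 0) := by
  induction m with
  | zero => rw [Cm_succ, Cm_zero, Cm_zero, mul_one, one_mul]
  | succ m ih => rw [Cm_succ, ih, Cm_succ, mul_assoc]

theorem Cm_congr (E : ℕ → A) (x : ℂ) {v v' : ℕ → ℂ} (m : ℕ) (h : ∀ k, k < m → v k = v' k) :
    Cm E x v m = Cm E x v' m := by
  induction m with
  | zero => rfl
  | succ m ih => rw [Cm_succ, Cm_succ, ih (fun k hk => h k (by omega)), h m (by omega)]

theorem Cm_comm (F : A) (E : ℕ → A) (x : ℂ) (v : ℕ → ℂ) (m : ℕ) (h : ∀ k, k < m → F * E k = E k * F)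
    (a b : ℂ) : Qm F a b * Cm E x v m = Cm E x v m * Qm F a b := by
  induction m with
  | zero => rw [Cm_zero, mul_one, one_mul]
  | succ m ih =>
    rw [Cm_succ, ← mul_assoc, Qm_comm F (E m) (h m (by omega)), mul_assoc,
      ih (fun k hk => h k (by omega)), mul_assoc]

/-- two strands moving over `m` strands -/
theorem Cm_double (E : ℕ → A) (x y : ℂ) (v : ℕ → ℂ) (m : ℕ) (h : TL E (m + 1)) :
    Qm (E m) x y * Cm E x v m * Cm (fun k => E (k + 1)) y v m =
      Cm E y v m * Cm (fun k => E (k + 1)) x v m * Qm (E 0) x y := by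
  induction m with
  | zero => simp only [Cm_zero, mul_one, one_mul]
  | succ m ih =>
    have ih' := ih (h.mono (by omega))
    simp only [Cm_succ]
    have c1 : Cm E x v m * Qm (E (m + 1)) y (v m) = Qm (E (m + 1)) y (v m) * Cm E x v m :=
      (Cm_comm (E (m + 1)) E x v m (fun k hk => (h.far k (m + 1) (by omega) (by omega)).symm) y (v m)).symm
    have c2 : Cm E y v m * Qm (E (m + 1)) x (v m) = Qm (E (m + 1)) x (v m) * Cm E y v m :=
      (Cm_comm (E (m + 1)) E y v m (fun k hk => (h.far k (m + 1) (by omega) (by omega)).symm) x (v m)).symm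
    have yb := Qm_ybe (E m) (E (m + 1)) (h.idem m (by omega)) (h.idem (m + 1) (by omega))
      (h.tl m (by omega)) (h.tl' m (by omega)) x y (v m)
    calc Qm (E (m + 1)) x y * (Qm (E m) x (v m) * Cm E x v m) *
          (Qm (E (m + 1)) y (v m) * Cm (fun k => E (k + 1)) y v m)
        = Qm (E (m + 1)) x y * Qm (E m) x (v m) * (Cm E x v m * Qm (E (m + 1)) y (v m)) *
          Cm (fun k => E (k + 1)) y v m := by simp only [mul_assoc]
      _ = (Qm (E (m + 1)) x y * Qm (E m) x (v m) * Qm (E (m + 1)) y (v m)) * Cm E x v m *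
          Cm (fun k => E (k + 1)) y v m := by rw [c1]; simp only [mul_assoc]
      _ = Qm (E m) y (v m) * Qm (E (m + 1)) x (v m) * (Qm (E m) x y * Cm E x v m *
          Cm (fun k => E (k + 1)) y v m) := by rw [← yb]; simp only [mul_assoc]
      _ = Qm (E m) y (v m) * (Qm (E (m + 1)) x (v m) * Cm E y v m) *
          Cm (fun k => E (k + 1)) x v m * Qm (E 0) x y := by rw [ih']; simp only [mul_assoc]
      _ = _ := by rw [← c2]; simp only [mul_assoc]

theorem sw_eq_of_lt {i k : ℕ} (y : ℕ → ℂ) (h : k < i) : sw i y k = y k := by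
  unfold sw
  rw [Equiv.swap_apply_of_ne_of_ne (by omega) (by omega)]

theorem sw_eq_of_gt {i k : ℕ} (y : ℕ → ℂ) (h : i + 1 < k) : sw i y k = y k := by
  unfold sw
  rw [Equiv.swap_apply_of_ne_of_ne (by omega) (by omega)]

/-- exchange of two of the strands which are passed -/
theorem Cm_swap (E : ℕ → A) (x : ℂ) (v : ℕ → ℂ) (j m : ℕ) (hj : j + 1 < m) (h : TL E m) :
    Cm E x (sw j v) m * Qm (E (j + 1)) (v j) (v (j + 1)) =
      Qm (E j) (v j) (v (j + 1)) * Cm E x v m := by
  induction m with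
  | zero => omega
  | succ m ih =>
    rcases Nat.lt_or_ge (j + 1) m with h1 | h1
    · have ih' := ih h1 (h.mono (by omega))
      rw [Cm_succ, Cm_succ, sw_eq_of_gt v h1, mul_assoc, ih', ← mul_assoc, ← mul_assoc,
        Qm_comm (E m) (E j) (h.far j m (by omega) (by omega)).symm]
    · have e : m = j + 1 := by omega
      subst e
      have c0 : Cm E x (sw j v) j = Cm E x v j := Cm_congr E x j fun k hk => sw_eq_of_lt v hk
      have l1 : sw j v (j + 1) = v j := by unfold sw; rw [Equiv.swap_apply_right]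
      have l2 : sw j v j = v (j + 1) := by unfold sw; rw [Equiv.swap_apply_left]
      have yb := Qm_ybe (E j) (E (j + 1)) (h.idem j (by omega)) (h.idem (j + 1) (by omega))
        (h.tl j (by omega)) (h.tl' j (by omega)) x (v j) (v (j + 1))
      have c1 : Cm E x v j * Qm (E (j + 1)) (v j) (v (j + 1)) =
          Qm (E (j + 1)) (v j) (v (j + 1)) * Cm E x v j :=
        (Cm_comm (E (j + 1)) E x v j (fun k hk => (h.far k (j + 1) (by omega) (by omega)).symm) _ _).symm
      rw [Cm_succ, Cm_succ, c0, l1, l2]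
      calc Qm (E (j + 1)) x (v j) * (Qm (E j) x (v (j + 1)) * Cm E x v j) *
            Qm (E (j + 1)) (v j) (v (j + 1))
          = Qm (E (j + 1)) x (v j) * Qm (E j) x (v (j + 1)) * (Cm E x v j *
            Qm (E (j + 1)) (v j) (v (j + 1))) := by simp only [mul_assoc]
        _ = (Qm (E (j + 1)) x (v j) * Qm (E j) x (v (j + 1)) * Qm (E (j + 1)) (v j) (v (j + 1))) *
            Cm E x v j := by rw [c1]; simp only [mul_assoc]
        _ = _ := by rw [← yb, Cm_succ, Cm_succ]; simp only [mul_assoc]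

theorem P_Qm {P E F : A} (h : P * E = F * P) (u v : ℂ) : P * Qm E u v = Qm F u v * P := by
  unfold Qm
  rw [mul_add, add_mul, mul_smul_comm, mul_smul_comm, smul_mul_assoc, smul_mul_assoc, h, mul_one,
    one_mul]

theorem P_Cm {P : A} {E : ℕ → A} {m : ℕ} (h : ∀ i, i < m → P * E i = E (i + 1) * P) (x : ℂ)
    (v : ℕ → ℂ) : P * Cm E x v m = Cm (fun k => E (k + 1)) x v m * P := by
  induction m with
  | zero => rw [Cm_zero, Cm_zero, mul_one, one_mul]
  | succ m ih =>
    rw [Cm_succ, Cm_succ, ← mul_assoc, P_Qm (h m (by omega)), mul_assoc, ih (fun i hi => h i (by omega)),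
      mul_assoc]

/-- the first strand moves once around the cylinder -/
def Sc (E : ℕ → A) (P : A) (x : ℂ) (v : ℕ → ℂ) (m : ℕ) : A := P * Cm E x v m

theorem Sc_exch (E : ℕ → A) (P : A) (x : ℂ) (v : ℕ → ℂ) (j m : ℕ) (hj : j + 1 < m) (h : TL E m)
    (hP : ∀ i, i + 1 < m → P * E i = E (i + 1) * P) :
    Sc E P x (sw j v) m * Qm (E (j + 1)) (v j) (v (j + 1)) =
      Qm (E (j + 1)) (v j) (v (j + 1)) * Sc E P x v m := by
  unfold Sc
  rw [mul_assoc, Cm_swap E x v j m hj h, ← mul_assoc, P_Qm (hP j hj), mul_assoc]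

/-- the second strand moves around the cylinder -/
def Sd (E : ℕ → A) (P : A) (x : ℂ) (v : ℕ → ℂ) (m : ℕ) : A :=
  Qm (E 0) (v 0) x * Sc E P (v 0) (Function.update v 0 x) m * Qm (E 0) x (v 0)

theorem Sd_eq (E : ℕ → A) (P : A) (x : ℂ) (v : ℕ → ℂ) (m : ℕ) (h : E 0 * E 0 = E 0) :
    Qm (E 0) x (v 0) * Sd E P x v m = ((om * x - v 0) * (om * v 0 - x)) •
      (Sc E P (v 0) (Function.update v 0 x) m * Qm (E 0) x (v 0)) := by
  unfold Sd
  rw [← mul_assoc, ← mul_assoc, Qm_unit (E 0) h (v 0) x, smul_mul_assoc, smul_mul_assoc, one_mul]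
  congr 1
  ring

theorem Sc_comm (E : ℕ → A) (P : A) (x : ℂ) (v : ℕ → ℂ) (m : ℕ) (h : TL E (m + 1))
    (hP : ∀ i, i < m → P * E i = E (i + 1) * P) (hPP : E 0 * (P * P) = P * P * E m)
    (hx : om * x ≠ v 0) (hx' : om * v 0 ≠ x) :
    Sc E P x v (m + 1) * Sd E P x v (m + 1) = Sd E P x v (m + 1) * Sc E P x v (m + 1) := by
  set y := v 0 with hy
  set r : ℕ → ℂ := fun k => v (k + 1) with hr
  set E' : ℕ → A := fun k => E (k + 1) with hE'
  have hc : (om * x - y) * (om * y - x) ≠ 0 :=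
    mul_ne_zero (sub_ne_zero.2 hx) (sub_ne_zero.2 hx')
  have s1 : Sc E P x v (m + 1) = P * Cm E' x r m * Qm (E 0) x y := by
    unfold Sc
    rw [Cm_succ', mul_assoc]
  have s2 : Sc E P y (Function.update v 0 x) (m + 1) = P * Cm E' y r m * Qm (E 0) y x := by
    unfold Sc
    rw [Cm_succ', Function.update_self, mul_assoc]
    have e : (fun k => Function.update v 0 x (k + 1)) = r := by
      funext k
      rw [Function.update_of_ne (by omega)]
    rw [e]
  have hD := Cm_double E x y r m h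
  have key : Qm (E 0) x y * ((P * Cm E' x r m) * (P * Cm E' y r m)) =
      (P * Cm E' y r m) * (P * Cm E' x r m) * Qm (E 0) x y := by
    have k1 : Cm E' x r m * P = P * Cm E x r m := (P_Cm hP x r).symm
    have k2 : Cm E' y r m * P = P * Cm E y r m := (P_Cm hP y r).symm
    have k3 : Qm (E 0) x y * (P * P) = P * P * Qm (E m) x y := (P_Qm hPP.symm x y).symm
    calc Qm (E 0) x y * ((P * Cm E' x r m) * (P * Cm E' y r m))
        = Qm (E 0) x y * (P * (Cm E' x r m * P) * Cm E' y r m) := by simp only [mul_assoc]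
      _ = (Qm (E 0) x y * (P * P)) * (Cm E x r m * Cm E' y r m) := by
          rw [k1]; simp only [mul_assoc]
      _ = P * P * (Qm (E m) x y * Cm E x r m * Cm E' y r m) := by
          rw [k3]; simp only [mul_assoc]
      _ = P * (P * Cm E y r m) * Cm E' x r m * Qm (E 0) x y := by
          rw [hD]; simp only [mul_assoc]; rfl
      _ = _ := by rw [← k2]; simp only [mul_assoc]
  have u1 : Qm (E 0) x y * Qm (E 0) y x = ((om * x - y) * (om * y - x)) • (1 : A) := by
    rw [Qm_unit (E 0) (h.idem 0 (by omega)) y x]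
    congr 1
    ring
  have u2 : Qm (E 0) y x * Qm (E 0) x y = ((om * x - y) * (om * y - x)) • (1 : A) :=
    Qm_unit (E 0) (h.idem 0 (by omega)) x y
  have sd : Sd E P x v (m + 1) = ((om * x - y) * (om * y - x)) •
      (Qm (E 0) y x * (P * Cm E' y r m)) := by
    unfold Sd
    rw [← hy, s2]
    calc Qm (E 0) y x * (P * Cm E' y r m * Qm (E 0) y x) * Qm (E 0) x y
        = Qm (E 0) y x * (P * Cm E' y r m) * (Qm (E 0) y x * Qm (E 0) x y) := by
          simp only [mul_assoc]
      _ = _ := by rw [u2, mul_smul_comm, mul_one]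
  rw [s1, sd]
  set c := (om * x - y) * (om * y - x) with hcd
  set Bx := P * Cm E' x r m
  set By := P * Cm E' y r m
  set Q := Qm (E 0) x y
  set Q' := Qm (E 0) y x
  -- c • B_x B_y = Q' B_y B_x Q
  have key2 : Q' * (By * Bx * Q) = c • (Bx * By) := by
    rw [← key, ← mul_assoc, u2, smul_mul_assoc, one_mul]
  rw [mul_smul_comm, smul_mul_assoc]
  congr 1
  calc Bx * Q * (Q' * By) = Bx * (Q * Q') * By := by simp only [mul_assoc]
    _ = c • (Bx * By) := by rw [u1, mul_smul_comm, mul_one, smul_mul_assoc]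
    _ = Q' * (By * Bx * Q) := key2.symm
    _ = _ := by simp only [mul_assoc]

end PX
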