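import Pool.Agent.Lib.MP_216314_pr.W.Raw

/-!
# Sums over a period

Proof hints.
* `sum_shift`: sum over `Ico 0 L` of `g (x + 1)` = sum over `Ico 1 (L + 1)` of g; `Ico 1 (L+1)` and `Ico 0 L` differ by `L` and `0`, g L = g 0.
  (Finset.sum_bij or Finset.sum_Ico_add' style; or: both are sums over a complete residue system: use `per_sum_classes`-like bijection x ↦ (x + 1) % L,
  `Finset.sum_bij` with g (x + 1) = g ((x+1) % L) by periodicity `per_emod`.)
* `per_emod`: x = x % L + (x / L) * L, induction on the integer multiple (as Nci.per_mul).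
* `per_sum_classes`: RHS = sum over S of g (a % L) ; a ↦ a % L is injective on S (Int.emod_emod_of_dvd / Int.emod_eq_emod_iff_emod_sub_eq_zero) with image in Ico 0 L;
  `Finset.sum_image`, `Finset.sum_subset`: for x in Ico 0 L not in the image g x = 0.
* `rkF_rot`: g x = |f x - x| is periodic; |(f (x + 1) - 1) - x| = g (x + 1).
-/

set_option autoImplicit false

noncomputable section

namespace PX

open Finset

private theorem perSum_mul {L : ℤ} (g : ℤ → ℤ) (hg : ∀ x, g (x + L) = g x) (x k : ℤ) :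
    g (x + k * L) = g x := by
  induction k using Int.induction_on with
  | zero => simp
  | succ k ih =>
    have h1 := hg (x + k * L)
    have e : x + ((k : ℤ) + 1) * L = x + k * L + L := by ring
    rw [e, h1, ih]
  | pred k ih =>
    have h1 := hg (x + (-(k : ℤ) - 1) * L)
    have e : x + (-(k : ℤ) - 1) * L + L = x + -(k : ℤ) * L := by ring
    rw [e, ih] at h1
    exact h1.symm

theorem per_emod {L : ℤ} (g : ℤ → ℤ) (hg : ∀ x, g (x + L) = g x) (x : ℤ) : g (x % L) = g x := by
  have h1 := perSum_mul g hg (x % L) (x / L)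
  have h2 : x % L + x / L * L = x := by
    rw [mul_comm]
    exact Int.emod_add_mul_ediv x L
  rw [h2] at h1
  exact h1.symm

theorem sum_shift {L : ℤ} (hL : 0 < L) (g : ℤ → ℤ) (hg : ∀ x, g (x + L) = g x) :
    ∑ x ∈ Ico (0 : ℤ) L, g (x + 1) = ∑ x ∈ Ico (0 : ℤ) L, g x := by
  have e1 : Ico (0 : ℤ) L = insert 0 (Ico 1 L) := by
    ext x
    simp only [mem_Ico, mem_insert]
    omega
  have e2 : Ico (0 : ℤ) L = (insert L (Ico 1 L)).image (fun x => x - 1) := by
    ext x
    simp only [mem_Ico, mem_insert, mem_image]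
    constructor
    · intro h
      exact ⟨x + 1, by omega, by omega⟩
    · rintro ⟨y, hy, rfl⟩
      omega
  have h1 : ∑ x ∈ Ico (0 : ℤ) L, g (x + 1) = ∑ x ∈ insert L (Ico (1 : ℤ) L), g x := by
    rw [e2, sum_image (fun x _ y _ h => by simpa using h)]
    refine sum_congr rfl fun x _ => ?_
    rw [sub_add_cancel]
  have h2 := hg 0
  rw [zero_add] at h2
  rw [h1, e1, sum_insert (by simp), sum_insert (by simp), h2]

theorem per_sum_classes {L : ℤ} (hL : 0 < L) (g : ℤ → ℤ) (hg : ∀ x, g (x + L) = g x)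
    (S : Finset ℤ) (hS : ∀ a ∈ S, ∀ b ∈ S, a ≠ b → ¬ L ∣ a - b)
    (h0 : ∀ x, (∀ a ∈ S, ¬ L ∣ x - a) → g x = 0) :
    ∑ x ∈ Ico (0 : ℤ) L, g x = ∑ a ∈ S, g a := by
  have hinj : ∀ a ∈ S, ∀ b ∈ S, a % L = b % L → a = b := by
    intro a ha b hb h
    by_contra hab
    exact hS a ha b hb hab (Int.dvd_of_emod_eq_zero (Int.emod_eq_emod_iff_emod_sub_eq_zero.1 h))
  have h1 : ∑ a ∈ S, g a = ∑ x ∈ S.image (fun a => a % L), g x := by
    rw [sum_image hinj]
    exact sum_congr rfl fun a _ => (per_emod g hg a).symm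
  rw [h1]
  symm
  refine sum_subset ?_ ?_
  · intro x hx
    obtain ⟨a, _, rfl⟩ := mem_image.1 hx
    exact mem_Ico.2 ⟨Int.emod_nonneg _ hL.ne', Int.emod_lt_of_pos _ hL⟩
  · intro x hx hx'
    refine h0 x fun a ha hd => hx' ?_
    refine mem_image.2 ⟨a, ha, ?_⟩
    have h2 := mem_Ico.1 hx
    have h3 : x % L = a % L := Int.emod_eq_emod_iff_emod_sub_eq_zero.2 (Int.emod_eq_zero_of_dvd hd)
    show a % L = x
    rw [← h3, Int.emod_eq_of_lt h2.1 h2.2]

theorem rkF_rot {L : ℤ} {f : ℤ → ℤ} (h : Nci L f) : rkF L (fun x => f (x + 1) - 1) = rkF L f := by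
  unfold rkF
  rw [← sum_shift h.pos (fun x => |f x - x|) (fun x => by
    show |f (x + L) - (x + L)| = |f x - x|
    rw [h.per]
    congr 1
    ring)]
  refine sum_congr rfl fun x _ => ?_
  show |f (x + 1) - 1 - x| = |f (x + 1) - (x + 1)|
  congr 1
  ring

end PX
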