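import Pool.Agent.Lib.MP_216314_pr.W.Deg

/-!
# The base component

Proof hints.
* `VB_sw` (`i + 1 < L`): induction on `L` is awkward; direct: `VB L = prod over pairs`. Suggestion: evaluate: `eval y (VB L) = prod_{j<L} prod_{i<j} (om y_i - y_j)`.
  Show by induction on `L`: for `L <= i + 1` nothing, for `L = i + 2`: the product over `j < i` is unchanged (sw_of_ne), the products over `k < i` in the rows
  `j = i` and `j = i + 1` are exchanged, the remaining factor is `om y_i - y_{i+1}` (becomes `om y_{i+1} - y_i`);
  for `L -> L + 1` with `i + 1 < L`: the new row `prod_{k<L} (om y_k - y_L)` is invariant under the exchange (Finset.prod_bij with the swap, like prod_sw in X/GenA).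
* `VB_deg`: induction on `L`: VB (L+1) = VB L * prod_{i<L} (C om X i - X L); dS of the new row: number of `i < L` with `i ∈ S` or `L ∈ S`:
  if `L ∈ S` it is `<= L` and `(S ∩ range (L+1)).card = s + 1`, bd (L+1) (s+1) = bd L s + L; otherwise it is `<= s`, the card is `s`,
  bd (L+1) s = bd L s + s (s <= L, Nat.choose_succ.., natural subtraction).
-/

set_option autoImplicit false

noncomputable section

namespace PX

open Finset

/-- the base component of the polynomial solution -/
def VB (L : ℕ) : MP :=
  ∏ j ∈ range L, ∏ i ∈ range j, (MvPolynomial.C om * MvPolynomial.X i - MvPolynomial.X j)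

theorem eval_VB (L : ℕ) (y : ℕ → ℂ) :
    MvPolynomial.eval y (VB L) = ∏ j ∈ range L, ∏ i ∈ range j, (om * y i - y j) := by
  rw [VB, map_prod]
  refine prod_congr rfl fun j _ => ?_
  rw [map_prod]
  refine prod_congr rfl fun i _ => ?_
  rw [map_sub, map_mul, MvPolynomial.eval_C, MvPolynomial.eval_X, MvPolynomial.eval_X]

private theorem VB_left (i : ℕ) (y : ℕ → ℂ) : sw i y i = y (i + 1) := by
  unfold sw
  rw [Equiv.swap_apply_left]

private theorem VB_right (i : ℕ) (y : ℕ → ℂ) : sw i y (i + 1) = y i := by
  unfold sw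
  rw [Equiv.swap_apply_right]

private theorem VB_ne (i : ℕ) (y : ℕ → ℂ) {k : ℕ} (h1 : k ≠ i) (h2 : k ≠ i + 1) :
    sw i y k = y k := by
  unfold sw
  rw [Equiv.swap_apply_of_ne_of_ne h1 h2]

private theorem VB_perm {L i : ℕ} (hi : i + 1 < L) (y : ℕ → ℂ) (f : ℂ → ℂ) :
    ∏ k ∈ range L, f (sw i y k) = ∏ k ∈ range L, f (y k) := by
  refine prod_bij (fun k _ => Equiv.swap i (i + 1) k) ?_ ?_ ?_ ?_
  · intro k hk
    have h1 := mem_range.1 hk
    rw [mem_range]
    by_cases h2 : k = i
    · rw [h2, Equiv.swap_apply_left]
      exact hi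
    by_cases h3 : k = i + 1
    · rw [h3, Equiv.swap_apply_right]
      omega
    rw [Equiv.swap_apply_of_ne_of_ne h2 h3]
    exact h1
  · intro a _ b _ h
    exact (Equiv.swap i (i + 1)).injective h
  · intro b hb
    refine ⟨Equiv.swap i (i + 1) b, ?_, Equiv.swap_apply_self _ _ _⟩
    have h1 := mem_range.1 hb
    rw [mem_range]
    by_cases h2 : b = i
    · rw [h2, Equiv.swap_apply_left]
      exact hi
    by_cases h3 : b = i + 1
    · rw [h3, Equiv.swap_apply_right]
      omega
    rw [Equiv.swap_apply_of_ne_of_ne h2 h3]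
    exact h1
  · intro a _
    rfl

private theorem VB_row (S : Finset ℕ) (L m : ℕ) :
    dS S (∏ i ∈ range m, (MvPolynomial.C om * MvPolynomial.X i - MvPolynomial.X L)) ≤
      ∑ i ∈ range m, (if i ∈ S ∨ L ∈ S then 1 else 0) := by
  induction m with
  | zero =>
    rw [range_zero, prod_empty, sum_empty, ← MvPolynomial.C_1, dS_C]
  | succ m ih =>
    rw [prod_range_succ, sum_range_succ]
    exact (dS_mul_le S _ _).trans (add_le_add ih (dS_lin S m L om))

theorem VB_sw (L : ℕ) (y : ℕ → ℂ) (i : ℕ) (hi : i + 1 < L) :
    (om * y i - y (i + 1)) * MvPolynomial.eval (sw i y) (VB L) =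
      (om * y (i + 1) - y i) * MvPolynomial.eval y (VB L) := by
  rw [eval_VB, eval_VB]
  have hL : i + 2 ≤ L := hi
  induction L, hL using Nat.le_induction with
  | base =>
    have h0 : ∀ j ∈ range i, ∏ k ∈ range j, (om * sw i y k - sw i y j) =
        ∏ k ∈ range j, (om * y k - y j) := by
      intro j hj
      refine prod_congr rfl fun k hk => ?_
      have h1 := mem_range.1 hj
      have h2 := mem_range.1 hk
      rw [VB_ne i y (by omega) (by omega), VB_ne i y (by omega) (by omega)]
    have h3 : ∀ x : ℂ, ∏ k ∈ range i, (om * sw i y k - x) = ∏ k ∈ range i, (om * y k - x) := by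
      intro x
      refine prod_congr rfl fun k hk => ?_
      have h2 := mem_range.1 hk
      rw [VB_ne i y (by omega) (by omega)]
    have h6 : ∀ v : ℕ → ℂ, ∏ j ∈ range (i + 2), ∏ k ∈ range j, (om * v k - v j) =
        (∏ j ∈ range i, ∏ k ∈ range j, (om * v k - v j)) * (∏ k ∈ range i, (om * v k - v i)) *
          ((∏ k ∈ range i, (om * v k - v (i + 1))) * (om * v i - v (i + 1))) := by
      intro v
      rw [prod_range_succ (fun j => ∏ k ∈ range j, (om * v k - v j)) (i + 1),
        prod_range_succ (fun j => ∏ k ∈ range j, (om * v k - v j)) i,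
        prod_range_succ (fun k => om * v k - v (i + 1)) i]
    rw [h6, h6, prod_congr rfl h0, h3, h3, VB_left, VB_right]
    ring
  | succ L hL ih =>
    have h4 := ih hL
    rw [prod_range_succ, prod_range_succ]
    have h5 : ∏ k ∈ range L, (om * sw i y k - sw i y L) = ∏ k ∈ range L, (om * y k - y L) := by
      rw [VB_ne i y (k := L) (by omega) (by omega)]
      exact VB_perm hL y (fun x => om * x - y L)
    rw [h5, ← mul_assoc, h4, mul_assoc]

theorem VB_deg (L : ℕ) : DegOK L (VB L) := by
  intro S
  induction L with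
  | zero =>
    have h1 : VB 0 = MvPolynomial.C 1 := by
      rw [VB, range_zero, prod_empty, MvPolynomial.C_1]
    rw [h1, dS_C]
    exact Nat.zero_le _
  | succ L ih =>
    have h1 : VB (L + 1) = VB L *
        ∏ i ∈ range L, (MvPolynomial.C om * MvPolynomial.X i - MvPolynomial.X L) := by
      rw [VB, prod_range_succ]
      rfl
    rw [h1]
    refine (dS_mul_le S _ _).trans ?_
    have h2 := VB_row S L L
    have hch : (L + 1).choose 2 = L.choose 2 + L := by
      rw [Nat.choose_succ_succ' L 1, Nat.choose_one_right, Nat.add_comm]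
    have hs : (S ∩ range L).card ≤ L := by
      have h3 := card_le_card (inter_subset_right : S ∩ range L ⊆ range L)
      rwa [card_range] at h3
    have hle : (L - (S ∩ range L).card).choose 2 ≤ L.choose 2 :=
      Nat.choose_le_choose 2 (Nat.sub_le _ _)
    by_cases hL : L ∈ S
    · have h3 : (S ∩ range (L + 1)).card = (S ∩ range L).card + 1 := by
        rw [range_add_one, inter_insert_of_mem hL, card_insert_of_notMem]
        intro h4
        exact (mem_range.1 (mem_inter.1 h4).2).ne rfl
      have h5 : ∑ i ∈ range L, (if i ∈ S ∨ L ∈ S then 1 else 0) = L := by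
        rw [sum_congr rfl fun i _ => if_pos (Or.inr hL), sum_const, card_range, smul_eq_mul,
          mul_one]
      rw [h5] at h2
      rw [h3]
      unfold bd at ih ⊢
      rw [hch, Nat.add_sub_add_right]
      omega
    · have h3 : S ∩ range (L + 1) = S ∩ range L := by
        rw [range_add_one, inter_insert_of_notMem hL]
      have h5 : ∑ i ∈ range L, (if i ∈ S ∨ L ∈ S then 1 else 0) = (S ∩ range L).card := by
        rw [inter_comm, ← filter_mem_eq_inter, card_filter]
        refine sum_congr rfl fun i _ => ?_
        by_cases h6 : i ∈ S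
        · rw [if_pos (Or.inl h6), if_pos h6]
        · rw [if_neg (by tauto), if_neg h6]
      rw [h5] at h2
      rw [h3]
      unfold bd at ih ⊢
      have h7 : (L + 1 - (S ∩ range L).card).choose 2 =
          (L - (S ∩ range L).card).choose 2 + (L - (S ∩ range L).card) := by
        rw [Nat.succ_sub hs, Nat.choose_succ_succ' _ 1, Nat.choose_one_right, Nat.add_comm]
      rw [hch, h7]
      omega

end PX
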