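import Pool.Agent.Lib.MP_216314_pr.W.SolB
import Pool.Agent.Lib.MP_216314_pr.W.VB

/-!
# The polynomial solution

Proof hints. L = 2 n + 2.
* zf_sw: VB_sw and psi_base: both numerator and denominator are multiplied by (om y_{i+1} - y_i)/(om y_i - y_{i+1}) (all nonzero at generic points; psi_base_ne at y and at sw i y). zf_mv: induction, mv_succ.
* isPol_base: p = VB (2n+2), VB_deg, psi_base_ne.
* isPol_of_rho: p for rho a; zf y * psi y a = zf (R y) * psi (R y) (rho a) = eval (R y) p, R = mv (2n+1) (psi_rot, zf_mv, Good.mv). Show by induction on m ≤ 2n+1: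
  for every p with DegOK there is p' with DegOK and ∀ y, eval (mv m y) p = eval y p' (mv_succ, eval_sp, DegOK.sp).
* isPol_step: p1 for e_i a, p_c for the others (choose; Finset sum over s = univ.filter (e_i c = e_i a ∧ c ≠ a)). p = Tp i p1 - C om * p1 - ∑ c ∈ s, p_c.
  Check at a generic y: psi_exch_apply for the component e_i a, multiplied by zf y = zf (sw i y), and Tp_eval_mul:
  (y i - y (i+1)) * eval y (Tp i p1) = (om^2 - om) y (i+1) eval y p1 - om (om y i - y (i+1)) eval (sw i y) p1. With X = zf psi y (e_i a) = eval y p1, X' = zf psi (sw i y) (e_i a) = eval (sw i y) p1,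
  Sg = zf ∑_{e_i c = e_i a} psi y c: (om y i - y(i+1)) X' = (om y(i+1) - y i) X + om^2 (y(i+1) - y i) Sg. Then (y i - y(i+1)) (eval Tp p1 - om X) = (y i - y(i+1)) Sg
  (multiply by om and use om^3 = 1, linear_combination ... * om_eq / om_cube), y i ≠ y(i+1). Sg = zf psi y a + ∑ over s (split off c = a).
* isPol: strong induction on K - rk a (K bounds rk); tri a: k; base or step for a' = rho^[k] a (h3: e_i a' ≠ a' because the ranks differ), then isPol_of_rho k times.
* exists_Psi: choose p; identities at the generic points (zf_sw, psi_exch_apply; psi_rot, zf_mv), then everywhere by good_ext applied to the polynomials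
  (C om * X i - X (i+1)) * sp i (Ψ a) and (C om * X (i+1) - X i) * Ψ a + C (om^2) * (X (i+1) - X i) * ∑ b, if e_i b = a then Ψ b else 0; for the rotation use p' as in isPol_of_rho (rotation as a polynomial operation).
  Ψ base = VB by good_ext (zf * psi base = eval VB).
-/

set_option autoImplicit false

noncomputable section

namespace PX

open Finset

variable {W : Type} [Fintype W] [DecidableEq W] {n : ℕ} (U : Pun n W)

namespace Pun

/-- the normalising factor -/
def zf (y : ℕ → ℂ) : ℂ := MvPolynomial.eval y (VB (2 * n + 2)) / U.psi y U.base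

variable {U}

theorem zf_sw {y : ℕ → ℂ} (h : U.Good y) {i : ℕ} (hi : i < 2 * n + 1) : U.zf (sw i y) = U.zf y := by
  have h1 := VB_sw (2 * n + 2) y i (by omega)
  have h2 := psi_base h hi
  have hA : om * y i - y (i + 1) ≠ 0 :=
    sub_ne_zero.2 (h.1 i (i + 1) (by omega) (by omega) (by omega)).2
  have hb : U.psi y U.base ≠ 0 := psi_base_ne h
  have hb' : U.psi (sw i y) U.base ≠ 0 := psi_base_ne (h.sw hi)
  unfold zf
  rw [div_eq_div_iff hb' hb]
  apply mul_left_cancel₀ hA
  linear_combination U.psi y U.base * h1 - MvPolynomial.eval y (VB (2 * n + 2)) * h2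

theorem zf_mv {y : ℕ → ℂ} (h : U.Good y) {m : ℕ} (hm : m ≤ 2 * n + 1) : U.zf (mv m y) = U.zf y := by
  induction m with
  | zero => rw [mv_zero]
  | succ m ih =>
    rw [mv_succ, zf_sw (h.mv (by omega)) (by omega)]
    exact ih (by omega)

variable (U)

/-- polynomiality of a component -/
def IsPol (a : W) : Prop :=
  ∃ p : MP, DegOK (2 * n + 2) p ∧ ∀ y, U.Good y → MvPolynomial.eval y p = U.zf y * U.psi y a

theorem isPol_base : U.IsPol U.base := by
  refine ⟨VB (2 * n + 2), VB_deg _, fun y h => ?_⟩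
  unfold zf
  rw [div_mul_cancel₀ _ (psi_base_ne h)]

private theorem PolW_rot (m : ℕ) (hm : m ≤ 2 * n + 1) (p : MP) (hp : DegOK (2 * n + 2) p) :
    ∃ p' : MP, DegOK (2 * n + 2) p' ∧
      ∀ y, MvPolynomial.eval y p' = MvPolynomial.eval (mv m y) p := by
  induction m generalizing p with
  | zero => exact ⟨p, hp, fun y => by rw [mv_zero]⟩
  | succ m ih =>
    obtain ⟨p', h1, h2⟩ := ih (by omega) (sp m p) (hp.sp (by omega))
    refine ⟨p', h1, fun y => ?_⟩
    rw [h2, eval_sp, mv_succ]

theorem isPol_of_rho (a : W) (h : U.IsPol (U.rho a)) : U.IsPol a := by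
  obtain ⟨p, hd, hp⟩ := h
  obtain ⟨p', hd', hp'⟩ := PolW_rot (n := n) (2 * n + 1) le_rfl p hd
  refine ⟨p', hd', fun y hy => ?_⟩
  rw [hp', hp _ (hy.mv le_rfl), psi_rot hy, zf_mv hy le_rfl]

theorem isPol_step (a : W) (i : ℕ) (hi : i < 2 * n + 1) (h1 : U.IsPol (U.e i a))
    (h2 : ∀ c, U.e i c = U.e i a → c = a ∨ U.IsPol c) (h3 : U.e i a ≠ a) : U.IsPol a := by
  obtain ⟨p1, hd1, hp1⟩ := h1
  have h4 : ∀ c, c ∈ (univ : Finset W).filter (fun c => U.e i c = U.e i a ∧ c ≠ a) →
      ∃ p : MP, DegOK (2 * n + 2) p ∧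
        ∀ y, U.Good y → MvPolynomial.eval y p = U.zf y * U.psi y c := by
    intro c hc
    rw [Finset.mem_filter] at hc
    exact (h2 c hc.2.1).resolve_left hc.2.2
  choose! p hd hp using h4
  refine ⟨Tp i p1 - MvPolynomial.C om * p1 -
    ∑ c ∈ (univ : Finset W).filter (fun c => U.e i c = U.e i a ∧ c ≠ a), p c,
    ((hd1.Tp (by omega)).sub (hd1.C_mul om)).sub (DegOK.sum _ hd), fun y hy => ?_⟩
  have hne : y i - y (i + 1) ≠ 0 :=
    sub_ne_zero.2 (hy.1 i (i + 1) (by omega) (by omega) (by omega)).1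
  have e1 := psi_exch_apply hy hi (U.e i a)
  have e2 := Tp_eval_mul i p1 y
  rw [hp1 y hy, hp1 _ (hy.sw hi), zf_sw hy hi] at e2
  have e3 : ∑ c ∈ (univ : Finset W).filter (fun c => U.e i c = U.e i a ∧ c ≠ a),
      MvPolynomial.eval y (p c) = U.zf y *
      ∑ c ∈ (univ : Finset W).filter (fun c => U.e i c = U.e i a ∧ c ≠ a), U.psi y c := by
    rw [Finset.mul_sum]
    exact Finset.sum_congr rfl fun c hc => hp c hc y hy
  have e4 : ∑ b, (if U.e i b = U.e i a then U.psi y b else 0) = U.psi y a +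
      ∑ c ∈ (univ : Finset W).filter (fun c => U.e i c = U.e i a ∧ c ≠ a), U.psi y c := by
    rw [← Finset.add_sum_erase univ _ (Finset.mem_univ a), if_pos rfl, Finset.sum_filter]
    congr 1
    have e5 : ∑ c, (if U.e i c = U.e i a ∧ c ≠ a then U.psi y c else 0) =
        (if U.e i a = U.e i a ∧ a ≠ a then U.psi y a else 0) +
        ∑ c ∈ univ.erase a, (if U.e i c = U.e i a ∧ c ≠ a then U.psi y c else 0) :=
      (Finset.add_sum_erase univ _ (Finset.mem_univ a)).symm
    rw [e5, if_neg (fun hh => hh.2 rfl), zero_add]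
    refine Finset.sum_congr rfl fun c hc => ?_
    have hca : c ≠ a := Finset.ne_of_mem_erase hc
    by_cases h5 : U.e i c = U.e i a
    · rw [if_pos h5, if_pos ⟨h5, hca⟩]
    · rw [if_neg h5, if_neg (fun hh => h5 hh.1)]
  rw [e4] at e1
  simp only [map_sub, map_mul, MvPolynomial.eval_C, map_sum]
  rw [e3, hp1 y hy]
  apply mul_left_cancel₀ hne
  generalize ∑ c ∈ (univ : Finset W).filter (fun c => U.e i c = U.e i a ∧ c ≠ a),
    U.psi y c = t at e1 ⊢
  linear_combination e2 - om * U.zf y * e1 +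
    (y i - y (i + 1)) * (U.zf y * (U.psi y a + t)) * om_cube

private theorem PolW_iter (k : ℕ) (a : W) (h : U.IsPol (U.rho^[k] a)) : U.IsPol a := by
  induction k generalizing a with
  | zero => exact h
  | succ k ih =>
    rw [Function.iterate_succ_apply] at h
    exact U.isPol_of_rho a (ih _ h)

private theorem PolW_rk (k : ℕ) (a : W) : U.rk (U.rho^[k] a) = U.rk a := by
  induction k generalizing a with
  | zero => rfl
  | succ k ih => rw [Function.iterate_succ_apply, ih, U.rk_rho]

private theorem PolW_ind (d : ℕ) : ∀ a, (univ : Finset W).sup U.rk - U.rk a ≤ d → U.IsPol a := by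
  induction d using Nat.strong_induction_on with
  | _ d ih =>
    intro a ha
    have hK : ∀ c, U.rk c ≤ (univ : Finset W).sup U.rk :=
      fun c => Finset.le_sup (f := U.rk) (Finset.mem_univ c)
    have key : ∀ c, U.rk a < U.rk c → U.IsPol c := by
      intro c hc
      have h1 := hK c
      exact ih ((univ : Finset W).sup U.rk - U.rk c) (by omega) c le_rfl
    obtain ⟨k, h | ⟨i, hi, h1, h2⟩⟩ := U.tri a
    · apply U.PolW_iter k a
      rw [h]
      exact U.isPol_base
    · apply U.PolW_iter k a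
      refine U.isPol_step _ i hi (key _ h1) (fun c hc => ?_) ?_
      · rcases h2 c hc with h3 | h3
        · exact Or.inl h3
        · exact Or.inr (key c h3)
      · intro h3
        rw [h3, U.PolW_rk] at h1
        exact lt_irrefl _ h1

theorem isPol (a : W) : U.IsPol a := by
  exact U.PolW_ind _ a le_rfl

/-- existence of the polynomial solution -/
theorem exists_Psi : ∃ Ψ : W → MP,
    Ψ U.base = VB (2 * n + 2) ∧
    (∀ a, DegOK (2 * n + 2) (Ψ a)) ∧
    (∀ i, i < 2 * n + 1 → ∀ (y : ℕ → ℂ) (a : W), (om * y i - y (i + 1)) * MvPolynomial.eval (sw i y) (Ψ a) =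
      (om * y (i + 1) - y i) * MvPolynomial.eval y (Ψ a) +
      om ^ 2 * (y (i + 1) - y i) * ∑ b, if U.e i b = a then MvPolynomial.eval y (Ψ b) else 0) ∧
    (∀ (y : ℕ → ℂ) (a : W), MvPolynomial.eval (mv (2 * n + 1) y) (Ψ (U.rho a)) =
      MvPolynomial.eval y (Ψ a)) := by
  have h0 : ∀ a, ∃ p : MP, DegOK (2 * n + 2) p ∧
      ∀ y, U.Good y → MvPolynomial.eval y p = U.zf y * U.psi y a := fun a => U.isPol a
  choose Ψ hd hΨ using h0
  refine ⟨Ψ, ?_, hd, fun i hi y a => ?_, fun y a => ?_⟩
  · apply U.good_ext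
    intro y hy
    rw [hΨ U.base y hy]
    unfold zf
    rw [div_mul_cancel₀ _ (psi_base_ne hy)]
  · have key : (MvPolynomial.C om * MvPolynomial.X i - MvPolynomial.X (i + 1)) * sp i (Ψ a) =
        (MvPolynomial.C om * MvPolynomial.X (i + 1) - MvPolynomial.X i) * Ψ a +
        MvPolynomial.C (om ^ 2) * (MvPolynomial.X (i + 1) - MvPolynomial.X i) *
          ∑ b, if U.e i b = a then Ψ b else 0 := by
      apply U.good_ext
      intro z hz
      have e1 := psi_exch_apply hz hi a
      have e2 : ∑ b, (if U.e i b = a then MvPolynomial.eval z (Ψ b) else 0) =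
          U.zf z * ∑ b, (if U.e i b = a then U.psi z b else 0) := by
        rw [Finset.mul_sum]
        refine Finset.sum_congr rfl fun b _ => ?_
        by_cases hb : U.e i b = a
        · rw [if_pos hb, if_pos hb, hΨ b z hz]
        · rw [if_neg hb, if_neg hb, mul_zero]
      simp only [map_mul, map_sub, map_add, MvPolynomial.eval_C, MvPolynomial.eval_X, eval_sp,
        map_sum, apply_ite (MvPolynomial.eval z), map_zero]
      rw [e2, hΨ a z hz, hΨ a _ (hz.sw hi), zf_sw hz hi]
      linear_combination U.zf z * e1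
    have h1 := congrArg (MvPolynomial.eval y) key
    simpa only [map_mul, map_sub, map_add, MvPolynomial.eval_C, MvPolynomial.eval_X, eval_sp,
      map_sum, apply_ite (MvPolynomial.eval y), map_zero] using h1
  · obtain ⟨p', _, h2⟩ := PolW_rot (n := n) (2 * n + 1) le_rfl (Ψ (U.rho a)) (hd _)
    have h3 : p' = Ψ a := by
      apply U.good_ext
      intro z hz
      rw [h2, hΨ _ _ (hz.mv le_rfl), hΨ _ _ hz, psi_rot hz, zf_mv hz le_rfl]
    rw [← h2, h3]

end Pun

end PX
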