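import Pool.Agent.Lib.MP_216314_pr.W.Mov

/-!
# Operators given by maps of a finite set; abstract punctured link patterns
-/

set_option autoImplicit false

noncomputable section

namespace PX

open Finset

variable {W : Type} [Fintype W] [DecidableEq W]

/-- linear operator on functions given by a map -/
def push (g : W → W) : Module.End ℂ (W → ℂ) where
  toFun f := fun a => ∑ b, if g b = a then f b else 0
  map_add' f f' := by
    funext a
    simp only [Pi.add_apply]
    rw [← Finset.sum_add_distrib]
    refine Finset.sum_congr rfl fun b _ => ?_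
    split_ifs <;> simp
  map_smul' c f := by
    funext a
    simp only [Pi.smul_apply, smul_eq_mul, RingHom.id_apply]
    rw [Finset.mul_sum]
    refine Finset.sum_congr rfl fun b _ => ?_
    split_ifs <;> simp

theorem push_apply (g : W → W) (f : W → ℂ) (a : W) :
    push g f a = ∑ b, if g b = a then f b else 0 := rfl

theorem push_mul (g h : W → W) : push g * push h = push (g ∘ h) := by
  refine LinearMap.ext fun f => ?_
  funext a
  rw [Module.End.mul_apply, push_apply, push_apply]
  have h1 : ∀ b, (if g b = a then push h f b else 0) =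
      ∑ c, if g b = a ∧ h c = b then f c else 0 := by
    intro b
    rw [push_apply]
    by_cases hb : g b = a
    · rw [if_pos hb]
      refine Finset.sum_congr rfl fun c _ => ?_
      simp only [hb, true_and]
    · rw [if_neg hb, Finset.sum_eq_zero]
      intro c _
      simp only [hb, false_and, if_false]
  rw [Finset.sum_congr rfl fun b _ => h1 b, Finset.sum_comm]
  refine Finset.sum_congr rfl fun c _ => ?_
  rw [Finset.sum_eq_single (h c)]
  · simp only [and_true, Function.comp_apply]
  · intro b _ hb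
    rw [if_neg]
    exact fun h2 => hb h2.2.symm
  · intro hc
    exact absurd (Finset.mem_univ _) hc

theorem sum_push (g : W → W) (f : W → ℂ) : ∑ a, push g f a = ∑ b, f b := by
  simp only [push_apply]
  rw [Finset.sum_comm]
  refine Finset.sum_congr rfl fun b _ => ?_
  rw [Finset.sum_ite_eq]
  simp only [Finset.mem_univ, if_true]

theorem push_equiv (r : W ≃ W) (f : W → ℂ) (a : W) : push r.symm f a = f (r a) := by
  rw [push_apply, Finset.sum_eq_single (r a)]
  · rw [Equiv.symm_apply_apply, if_pos rfl]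
  · intro b _ hb
    rw [if_neg]
    intro h
    exact hb (by rw [← h, Equiv.apply_symm_apply])
  · intro hc
    exact absurd (Finset.mem_univ _) hc

/-- iterated composition `e_{2m-2} ... e_2 e_0` -/
def evn (e : ℕ → W → W) : ℕ → W → W
  | 0 => id
  | m + 1 => e (2 * m) ∘ evn e m

/-- abstract module of punctured link patterns with `L = 2 n + 2` points -/
structure Pun (n : ℕ) (W : Type) [Fintype W] [DecidableEq W] where
  /-- the generators `e_0, ..., e_{L-2}` -/
  e : ℕ → W → W
  /-- rotation -/
  rho : W ≃ W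
  /-- the pattern without small arc between `i` and `i+1`, `i + 1 < L` -/
  base : W
  /-- the pattern with small arcs between `2 k` and `2 k + 1` -/
  top : W
  /-- rank (total length of the arcs) -/
  rk : W → ℕ
  idem : ∀ i, i < 2 * n + 1 → ∀ a, e i (e i a) = e i a
  tl : ∀ i, i + 1 < 2 * n + 1 → ∀ a, e i (e (i + 1) (e i a)) = e i a
  tl' : ∀ i, i + 1 < 2 * n + 1 → ∀ a, e (i + 1) (e i (e (i + 1) a)) = e (i + 1) a
  far : ∀ i j, i + 2 ≤ j → j < 2 * n + 1 → ∀ a, e i (e j a) = e j (e i a)
  rho_e : ∀ i, i + 1 < 2 * n + 1 → ∀ a, rho (e (i + 1) a) = e i (rho a)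
  rho_rho_e : ∀ a, rho (rho (e 0 a)) = e (2 * n) (rho (rho a))
  evn_top : ∀ a, evn e (n + 1) a = top
  base_ne : ∀ i, i < 2 * n + 1 → ∀ a, e i a ≠ base
  rk_rho : ∀ a, rk (rho a) = rk a
  tri : ∀ a, ∃ k : ℕ, (rho^[k] a = base) ∨
    ∃ i, i < 2 * n + 1 ∧ rk a < rk (e i (rho^[k] a)) ∧
      ∀ c, e i c = e i (rho^[k] a) → c = rho^[k] a ∨ rk a < rk c

variable {n : ℕ} (U : Pun n W)

namespace Pun

/-- the operators of the generators -/
def E (i : ℕ) : Module.End ℂ (W → ℂ) := push (U.e i)

/-- the operator of the rotation -/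
def P : Module.End ℂ (W → ℂ) := push U.rho.symm

theorem P_apply (f : W → ℂ) (a : W) : U.P f a = f (U.rho a) := push_equiv U.rho f a

theorem tlE : TL U.E (2 * n + 1) := by
  refine ⟨fun i hi => ?_, fun i hi => ?_, fun i hi => ?_, fun i j h1 h2 => ?_⟩
  · unfold E
    rw [push_mul]
    congr 1
    funext a
    exact U.idem i hi a
  · unfold E
    rw [push_mul, push_mul]
    congr 1
    funext a
    exact U.tl i hi a
  · unfold E
    rw [push_mul, push_mul]
    congr 1
    funext a
    exact U.tl' i hi a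
  · unfold E
    rw [push_mul, push_mul]
    congr 1
    funext a
    exact U.far i j h1 h2 a

theorem P_E (i : ℕ) (hi : i + 1 < 2 * n + 1) : U.P * U.E i = U.E (i + 1) * U.P := by
  unfold E P
  rw [push_mul, push_mul]
  congr 1
  funext b
  simp only [Function.comp_apply]
  rw [Equiv.symm_apply_eq, U.rho_e i hi, Equiv.apply_symm_apply]

theorem E_P_P : U.E 0 * (U.P * U.P) = U.P * U.P * U.E (2 * n) := by
  unfold E P
  rw [push_mul, push_mul, push_mul]
  congr 1
  funext b
  simp only [Function.comp_apply]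
  symm
  rw [Equiv.symm_apply_eq, Equiv.symm_apply_eq, U.rho_rho_e, Equiv.apply_symm_apply,
    Equiv.apply_symm_apply]

/-- the scattering operator at the point `y` -/
def S (y : ℕ → ℂ) : Module.End ℂ (W → ℂ) := Sc U.E U.P (y 0) (fun k => y (k + 1)) (2 * n + 1)

/-- its normalising factor -/
def lam (n : ℕ) (y : ℕ → ℂ) : ℂ := ∏ k ∈ range (2 * n + 1), (om * y 0 - y (k + 1))

theorem sum_Qm (i : ℕ) (u v : ℂ) (f : W → ℂ) :
    ∑ a, Qm (U.E i) u v f a = (om * u - v) * ∑ a, f a := by
  unfold Qm
  simp only [LinearMap.add_apply, LinearMap.smul_apply, Module.End.one_apply, Pi.add_apply,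
    Pi.smul_apply, smul_eq_mul]
  rw [Finset.sum_add_distrib, ← Finset.mul_sum, ← Finset.mul_sum]
  have h : ∑ a, U.E i f a = ∑ a, f a := sum_push (U.e i) f
  rw [h]
  linear_combination ((v - u) * ∑ a, f a) * om_eq

theorem sum_Cm (x : ℂ) (v : ℕ → ℂ) (m : ℕ) (f : W → ℂ) :
    ∑ a, Cm U.E x v m f a = (∏ k ∈ range m, (om * x - v k)) * ∑ a, f a := by
  induction m with
  | zero => rw [Cm_zero, Finset.range_zero, Finset.prod_empty, one_mul]; rfl
  | succ m ih =>
    rw [Cm_succ, Module.End.mul_apply, U.sum_Qm, ih, Finset.prod_range_succ]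
    ring

theorem sum_S (y : ℕ → ℂ) (f : W → ℂ) : ∑ a, U.S y f a = lam n y * ∑ a, f a := by
  unfold S Sc lam
  rw [Module.End.mul_apply]
  have h : ∑ a, U.P (Cm U.E (y 0) (fun k => y (k + 1)) (2 * n + 1) f) a =
      ∑ a, Cm U.E (y 0) (fun k => y (k + 1)) (2 * n + 1) f a := sum_push _ _
  rw [h, U.sum_Cm]

end Pun

end PX
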