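import Mathlib

/-!
# Periodic noncrossing involutions of the integers (raw functions)
-/

set_option autoImplicit false

noncomputable section

namespace PX

open Finset

/-- `L`-periodic noncrossing fixed point free involution of the integers -/
structure Nci (L : ℤ) (f : ℤ → ℤ) : Prop where
  pos : 0 < L
  inv : ∀ x, f (f x) = x
  per : ∀ x, f (x + L) = f x + L
  ne : ∀ x, f x ≠ x
  nc : ∀ x y, x < y → y < f x → x < f y ∧ f y < f x

/-- the generator number `i` (residue class) -/
def eF (L i : ℤ) (f : ℤ → ℤ) (x : ℤ) : ℤ :=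
  if L ∣ x - i then x + 1 else if L ∣ x - (i + 1) then x - 1 else
    if L ∣ f x - i then f (f x + 1) else if L ∣ f x - (i + 1) then f (f x - 1) else f x

/-- sum over a period -/
def rkF (L : ℤ) (f : ℤ → ℤ) : ℤ := ∑ x ∈ Ico (0 : ℤ) L, |f x - x|

variable {L : ℤ} {f : ℤ → ℤ}

theorem Nci.per_mul (h : Nci L f) (x k : ℤ) : f (x + k * L) = f x + k * L := by
  induction k using Int.induction_on with
  | zero => simp
  | succ k ih =>
    have h1 := h.per (x + k * L)
    have e : x + ((k : ℤ) + 1) * L = x + k * L + L := by ring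
    rw [e, h1, ih]
    ring
  | pred k ih =>
    have h1 := h.per (x + (-(k : ℤ) - 1) * L)
    have e : x + (-(k : ℤ) - 1) * L + L = x + -(k : ℤ) * L := by ring
    rw [e, ih] at h1
    linarith

theorem Nci.per_dvd (h : Nci L f) {x y : ℤ} (hd : L ∣ x - y) : f x - x = f y - y := by
  obtain ⟨k, hk⟩ := hd
  have e : x = y + k * L := by linarith
  rw [e, h.per_mul]
  ring

/-- the image is never in the same class -/
theorem Nci.not_dvd (h : Nci L f) (x : ℤ) : ¬ L ∣ f x - x := by
  rintro ⟨k, hk⟩
  have e : f x = x + k * L := by linarith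
  have h1 := h.inv x
  rw [e, h.per_mul, e] at h1
  have h2 : k * L = 0 := by linarith
  exact h.ne x (by rw [e, h2, add_zero])

theorem Nci.lt_add (h : Nci L f) (x : ℤ) : f x < x + L := by
  by_contra hc
  rcases lt_or_eq_of_le (not_lt.mp hc) with h1 | h1
  · have h2 := h.nc x (x + L) (by have := h.pos; linarith) h1
    rw [h.per] at h2
    have := h.pos
    linarith [h2.2]
  · exact h.not_dvd x ⟨1, by linarith⟩

theorem Nci.sub_lt (h : Nci L f) (x : ℤ) : x - L < f x := by
  have h1 := h.lt_add (f x)
  rw [h.inv] at h1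
  linarith

theorem Nci.two_le (h : Nci L f) : 2 ≤ L := by
  by_contra hc
  have h1 := h.pos
  have h2 : L = 1 := by omega
  subst h2
  exact h.not_dvd 0 (one_dvd _)

/-- the mirror form of the noncrossing condition -/
theorem Nci.nc' (h : Nci L f) (x y : ℤ) (h1 : y < x) (h2 : f x < y) : f x < f y ∧ f y < x := by
  have h3 := h.nc (f x) y h2 (by rw [h.inv]; exact h1)
  rw [h.inv] at h3
  exact h3

end PX
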