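import Pool.Agent.Lib.MP_216314_pr.W.PerSum

/-!
# Change of the rank under the generators

Proof hints. Write `p = f i`, `q = f (i + 1)`.
* `eF_i`, `eF_i1`: unfold, the divisibility conditions `L ∣ 0`, and not `L ∣ 1` (Nci.two_le: Int.le_of_dvd).
* `eF_other`: by definition: `L ∣ f x - i` would give `x = f (f x)`, `f x = i + k L`, x = f i + k L, so L ∣ x - f i. Same for i + 1.
* `eF_p`: (hypothesis: not the small arc, not the self arc) p is not in the class of i (Nci.not_dvd), not in the class of i + 1: p = i + 1 + k L and |p - i| < L (lt_add, sub_lt) give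
  k = 0 or k = -1, excluded. f p = i, so eF p = f (i + 1) = q. `eF_q` similarly: q not in the class of i: q = i + k L, then f (i + k L) = i + 1, so f i = i + 1 - k L, same exclusion. f q = i + 1, not in the
  class of i, so eF q = f (i + 1 - 1) = f i = p.
* `eF_of_small`: if f i = i + 1 then eF L i f = f.   (x in the class of i: f x = x + 1 by per_dvd; class of i + 1: f (i+1) = i; otherwise f x is not in the classes.)
* `eF_per`: eF L i f (x + L) = eF L i f x + L : the conditions are invariant (L ∣ x + L - i iff L ∣ x - i), f (x + L) = f x + L.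
* `rkF_eF`: per_sum_classes for g x = |eF x - x| - |f x - x| and S = {i, i + 1, p, q}, four different classes (i, p and i+1, q: not_dvd; i, q and i+1, p: as in eF_p; p, q: p = q + k L gives i = i + 1 + k L;
  i, i+1: not L ∣ 1). Sum over S of g: Finset.sum_insert three times. Then rkF eF - rkF f = sum of g.
-/

set_option autoImplicit false

noncomputable section

namespace PX

open Finset

variable {L : ℤ} {f : ℤ → ℤ}

private theorem rkE_one (h : Nci L f) : ¬ L ∣ 1 := by
  intro hd
  have h1 := Int.le_of_dvd one_pos hd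
  have h2 := h.two_le
  omega

private theorem rkE_cls (h : Nci L f) {x y : ℤ} (hd : L ∣ f x - y) : L ∣ x - f y := by
  obtain ⟨k, hk⟩ := hd
  have e : f x = y + k * L := by linarith
  have h1 := h.inv x
  rw [e, h.per_mul] at h1
  exact ⟨k, by linarith⟩

private theorem rkE_small {L k : ℤ} (hL : 0 < L) (h1 : -L < 1 + L * k) (h2 : 1 + L * k < L) :
    k = 0 ∨ k = -1 := by
  have h3 : k < 1 := by
    by_contra hc
    have h4 : L * 1 ≤ L * k := mul_le_mul_of_nonneg_left (by omega) hL.le
    omega
  have h5 : -2 < k := by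
    by_contra hc
    have h4 : L * k ≤ L * (-2) := mul_le_mul_of_nonneg_left (by omega) hL.le
    omega
  omega

theorem eF_i (L i : ℤ) (f : ℤ → ℤ) : eF L i f i = i + 1 := by
  unfold eF
  rw [if_pos (by simp)]

theorem eF_i1 (h : Nci L f) (i : ℤ) : eF L i f (i + 1) = i := by
  unfold eF
  rw [if_neg (by
    have e : i + 1 - i = 1 := by ring
    rw [e]
    exact rkE_one h), if_pos (by simp)]
  ring

theorem eF_other (h : Nci L f) (i x : ℤ) (h1 : ¬ L ∣ x - i) (h2 : ¬ L ∣ x - (i + 1))
    (h3 : ¬ L ∣ x - f i) (h4 : ¬ L ∣ x - f (i + 1)) : eF L i f x = f x := by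
  unfold eF
  rw [if_neg h1, if_neg h2, if_neg (fun hd => h3 (rkE_cls h hd)),
    if_neg (fun hd => h4 (rkE_cls h hd))]

/-- `f i` is not in the class of `i + 1` -/
private theorem rkE_pi (h : Nci L f) (i : ℤ) (h1 : f i ≠ i + 1) (h2 : f i ≠ i + 1 - L) :
    ¬ L ∣ f i - (i + 1) := by
  rintro ⟨k, hk⟩
  have a1 := h.lt_add i
  have a2 := h.sub_lt i
  rcases rkE_small h.pos (k := k) (by omega) (by omega) with rfl | rfl
  · exact h1 (by linarith)
  · exact h2 (by linarith)

/-- `f (i + 1)` is not in the class of `i` -/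
private theorem rkE_qi (h : Nci L f) (i : ℤ) (h1 : f i ≠ i + 1) (h2 : f i ≠ i + 1 - L) :
    ¬ L ∣ f (i + 1) - i := by
  intro hd
  have h3 := rkE_cls h hd
  rw [← dvd_neg, neg_sub] at h3
  exact rkE_pi h i h1 h2 h3

theorem eF_p (h : Nci L f) (i : ℤ) (h1 : f i ≠ i + 1) (h2 : f i ≠ i + 1 - L) :
    eF L i f (f i) = f (i + 1) := by
  unfold eF
  rw [if_neg (h.not_dvd i), if_neg (rkE_pi h i h1 h2), if_pos (by rw [h.inv]; simp), h.inv]

theorem eF_q (h : Nci L f) (i : ℤ) (h1 : f i ≠ i + 1) (h2 : f i ≠ i + 1 - L) :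
    eF L i f (f (i + 1)) = f i := by
  unfold eF
  rw [if_neg (rkE_qi h i h1 h2), if_neg (h.not_dvd (i + 1)), if_neg (by
    rw [h.inv]
    have e : i + 1 - i = 1 := by ring
    rw [e]
    exact rkE_one h), if_pos (by rw [h.inv]; simp), h.inv, add_sub_cancel_right]

theorem eF_of_small (h : Nci L f) (i : ℤ) (h1 : f i = i + 1) : eF L i f = f := by
  have hq : f (i + 1) = i := by rw [← h1, h.inv]
  funext x
  by_cases c1 : L ∣ x - i
  · have h2 := h.per_dvd c1
    unfold eF
    rw [if_pos c1]
    linarith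
  by_cases c2 : L ∣ x - (i + 1)
  · have h2 := h.per_dvd c2
    unfold eF
    rw [if_neg c1, if_pos c2]
    linarith
  exact eF_other h i x c1 c2 (by rwa [h1]) (by rwa [hq])

theorem eF_per (h : Nci L f) (i x : ℤ) : eF L i f (x + L) = eF L i f x + L := by
  have e : ∀ y a : ℤ, (L ∣ y + L - a) ↔ (L ∣ y - a) := by
    intro y a
    have e1 : y + L - a = y - a + L := by ring
    rw [e1]
    exact dvd_add_self_right
  unfold eF
  simp only [e, h.per]
  split_ifs
  · ring
  · ring
  · have e2 : f x + L + 1 = f x + 1 + L := by ring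
    rw [e2, h.per]
  · have e2 : f x + L - 1 = f x - 1 + L := by ring
    rw [e2, h.per]
  · rfl

theorem rkF_eF (h : Nci L f) (i : ℤ) (h1 : f i ≠ i + 1) (h2 : f i ≠ i + 1 - L) :
    rkF L (eF L i f) = rkF L f + 2 * (1 + |f (i + 1) - f i| - |f i - i| - |f (i + 1) - (i + 1)|) := by
  have ne1 : ¬ L ∣ i - (i + 1) := by
    have e : i - (i + 1) = -1 := by ring
    rw [e, dvd_neg]
    exact rkE_one h
  have ne2 : ¬ L ∣ i - f i := by
    rw [← dvd_neg, neg_sub]
    exact h.not_dvd i
  have ne3 : ¬ L ∣ i - f (i + 1) := by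
    rw [← dvd_neg, neg_sub]
    exact rkE_qi h i h1 h2
  have ne4 : ¬ L ∣ i + 1 - f i := by
    rw [← dvd_neg, neg_sub]
    exact rkE_pi h i h1 h2
  have ne5 : ¬ L ∣ i + 1 - f (i + 1) := by
    rw [← dvd_neg, neg_sub]
    exact h.not_dvd (i + 1)
  have ne6 : ¬ L ∣ f i - f (i + 1) := by
    intro hd
    have h3 := rkE_cls h hd
    rw [h.inv] at h3
    exact ne1 h3
  have key := per_sum_classes h.pos (fun x => |eF L i f x - x| - |f x - x|)
    (fun x => by
      show |eF L i f (x + L) - (x + L)| - |f (x + L) - (x + L)| = |eF L i f x - x| - |f x - x|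
      rw [eF_per h, h.per]
      have e1 : eF L i f x + L - (x + L) = eF L i f x - x := by ring
      have e2 : f x + L - (x + L) = f x - x := by ring
      rw [e1, e2])
    {i, i + 1, f i, f (i + 1)}
    (by
      intro a ha b hb hab
      simp only [mem_insert, mem_singleton] at ha hb
      have sw : ∀ u v : ℤ, ¬ L ∣ u - v → ¬ L ∣ v - u := by
        intro u v huv hd
        rw [← dvd_neg, neg_sub] at hd
        exact huv hd
      rcases ha with rfl | rfl | rfl | rfl <;> rcases hb with rfl | rfl | rfl | rfl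
      · exact absurd rfl hab
      · exact ne1
      · exact ne2
      · exact ne3
      · exact sw _ _ ne1
      · exact absurd rfl hab
      · exact ne4
      · exact ne5
      · exact sw _ _ ne2
      · exact sw _ _ ne4
      · exact absurd rfl hab
      · exact ne6
      · exact sw _ _ ne3
      · exact sw _ _ ne5
      · exact sw _ _ ne6
      · exact absurd rfl hab)
    (by
      intro x hx
      simp only [mem_insert, mem_singleton, forall_eq_or_imp, forall_eq] at hx
      show |eF L i f x - x| - |f x - x| = 0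
      rw [eF_other h i x hx.1 hx.2.1 hx.2.2.1 hx.2.2.2, sub_self])
  have d1 : i ≠ i + 1 := by omega
  have d2 : i ≠ f i := fun e => ne2 (by rw [← e, sub_self]; exact dvd_zero _)
  have d3 : i ≠ f (i + 1) := fun e => ne3 (by rw [← e, sub_self]; exact dvd_zero _)
  have d4 : i + 1 ≠ f i := fun e => ne4 (by rw [← e, sub_self]; exact dvd_zero _)
  have d5 : i + 1 ≠ f (i + 1) := fun e => ne5 (by rw [← e, sub_self]; exact dvd_zero _)
  have d6 : f i ≠ f (i + 1) := fun e => ne6 (by rw [← e, sub_self]; exact dvd_zero _)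
  rw [sum_insert (by simp [d1, d2, d3]), sum_insert (by simp [d4, d5]), sum_insert (by simp [d6]),
    sum_singleton, sum_sub_distrib, eF_i, eF_i1 h, eF_p h i h1 h2, eF_q h i h1 h2, h.inv, h.inv] at key
  unfold rkF
  have e1 : |i + 1 - i| = (1 : ℤ) := by
    have e : i + 1 - i = 1 := by ring
    rw [e, abs_one]
  have e2 : |i - (i + 1)| = (1 : ℤ) := by
    rw [abs_sub_comm]
    exact e1
  have e3 : |i - f i| = |f i - i| := abs_sub_comm _ _
  have e4 : |i + 1 - f (i + 1)| = |f (i + 1) - (i + 1)| := abs_sub_comm _ _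
  have e5 : |f i - f (i + 1)| = |f (i + 1) - f i| := abs_sub_comm _ _
  rw [e1, e2, e3, e4, e5] at key
  linarith

end PX
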