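import Pool.Agent.Lib.MP_216314_pr.W.Good

/-!
# The normalised solution at the generic points: exchange relations

Proof hints. L = 2 n + 2, N = 2 n + 1 generators 0, ..., 2 n. U.tlE : TL U.E (2 n + 1).
* psi_spec: Classical.epsilon_spec (exists_fix).
* psi_exch_succ: Sc_exch with j = i, m = 2 n + 1, v = fun k => y (k + 1), x = y 0 (hP from U.P_E): note sw i v = fun k => (sw (i+1) y) (k + 1)
  (funext, unfold sw, swap i (i+1) k + 1 = swap (i+1) (i+2) (k+1)), and sw (i + 1) y 0 = y 0, so U.S (sw (i+1) y) * Q = Q * U.S y with Q = Qm (E (i+1)) (y (i+1)) (y (i+2)).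
  lam n (sw (i+1) y) = lam n y (product over range (2n+1) invariant under the exchange of the factors i and i+1; e.g. Finset.prod_bij with the swap, as prod_sw in X/GenA).
  So g = Q psi satisfies S (sw) g = lam n (sw) • g; psi_spec for the point sw (i+1) y (Good.sw) gives g = (∑ g) • psi (sw ..), ∑ g = (om y_{i+1} - y_{i+2}) * 1 by sum_Qm.
* psi_exch_zero: x = y 0, v = fun k => y (k + 1), m = 2 n: Sc_comm (U.tlE, P_E, E_P_P; hx, hx' from Good): S * Sd = Sd * S with Sd = Sd U.E U.P x v (2 n + 1).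
  So S (Sd psi) = lam • Sd psi, hence Sd psi = μ • psi (psi_spec), μ = ∑ Sd psi. Apply Sd_eq to psi: μ • (Q0 psi) = c • (Sc U.E U.P (v 0) (update v 0 x) (2n+1) (Q0 psi)), Q0 = Qm (E 0) x (v 0),
  c = (om x - v 0)(om v 0 - x) ≠ 0. Sc U.E U.P (v 0) (update v 0 x) (2n+1) = U.S (sw 0 y) (sw 0 y 0 = y 1, (sw 0 y) (k + 1) = update v 0 x k).
  Sum of the components: s = ∑ Q0 psi = (om x - v 0) ≠ 0 (sum_Qm): μ s = c lam n (sw 0 y) s, so μ = c * lam n (sw 0 y); cancel c: S (sw 0 y) (Q0 psi) = lam n (sw 0 y) • Q0 psi; psi_spec at sw 0 y.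
* psi_exch_apply: congrFun of psi_exch at a, unfold Qm, Pun.E, push_apply.
-/

set_option autoImplicit false

noncomputable section

namespace PX

open Finset

variable {W : Type} [Fintype W] [DecidableEq W] {n : ℕ} (U : Pun n W)

namespace Pun

/-- the fixed vector with sum one -/
def psi (y : ℕ → ℂ) : W → ℂ :=
  Classical.epsilon fun f => U.S y f = lam n y • f ∧ ∑ a, f a = 1 ∧
    ∀ g : W → ℂ, U.S y g = lam n y • g → g = (∑ a, g a) • f

variable {U}

theorem psi_spec {y : ℕ → ℂ} (h : U.Good y) : U.S y (U.psi y) = lam n y • U.psi y ∧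
    ∑ a, U.psi y a = 1 ∧ ∀ g : W → ℂ, U.S y g = lam n y • g → g = (∑ a, g a) • U.psi y :=
  Classical.epsilon_spec (U.exists_fix y h.lam h.det)

private theorem SolA_shift (i : ℕ) (y : ℕ → ℂ) :
    (fun k => sw (i + 1) y (k + 1)) = sw i (fun k => y (k + 1)) := by
  funext k
  rcases eq_or_ne k i with h1 | h1
  · rw [h1, sw_left, sw_left]
  · rcases eq_or_ne k (i + 1) with h2 | h2
    · rw [h2, sw_right, sw_right]
    · rw [sw_of_ne _ _ (by omega) (by omega), sw_of_ne i _ h1 h2]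

private theorem SolA_one (i : ℕ) (y : ℕ → ℂ) (k : ℕ) :
    sw i (fun k => om * y 0 - y (k + 1)) k = om * y 0 - sw i (fun k => y (k + 1)) k := by
  rcases eq_or_ne k i with h1 | h1
  · rw [h1, sw_left, sw_left]
  · rcases eq_or_ne k (i + 1) with h2 | h2
    · rw [h2, sw_right, sw_right]
    · rw [sw_of_ne i _ h1 h2, sw_of_ne i _ h1 h2]

private theorem SolA_lam (i : ℕ) (hi : i + 1 < 2 * n + 1) (y : ℕ → ℂ) :
    lam n (sw (i + 1) y) = lam n y := by
  unfold lam
  have h1 := prod_sw hi (fun k => om * y 0 - y (k + 1))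
  rw [← h1]
  refine Finset.prod_congr rfl fun k _ => ?_
  rw [sw_of_ne (i + 1) y (k := 0) (by omega) (by omega)]
  have h2 : sw (i + 1) y (k + 1) = sw i (fun k => y (k + 1)) k := congrFun (SolA_shift i y) k
  rw [h2]
  exact (SolA_one i y k).symm

/-- exchange relation for the positions `i`, `i + 1` with `1 ≤ i` -/
theorem psi_exch_succ {y : ℕ → ℂ} (h : U.Good y) {i : ℕ} (hi : i + 1 < 2 * n + 1) :
    Qm (U.E (i + 1)) (y (i + 1)) (y (i + 2)) (U.psi y) =
      (om * y (i + 1) - y (i + 2)) • U.psi (sw (i + 1) y) := by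
  obtain ⟨h1, h2, -⟩ := psi_spec h
  have hx := Sc_exch U.E U.P (y 0) (fun k => y (k + 1)) i (2 * n + 1) hi U.tlE
    (fun j hj => U.P_E j hj)
  have hS : U.S (sw (i + 1) y) = Sc U.E U.P (y 0) (sw i (fun k => y (k + 1))) (2 * n + 1) := by
    unfold S
    rw [sw_of_ne (i + 1) y (k := 0) (by omega) (by omega), SolA_shift]
  rw [← hS] at hx
  have h3 : U.S (sw (i + 1) y) (Qm (U.E (i + 1)) (y (i + 1)) (y (i + 2)) (U.psi y)) =
      lam n (sw (i + 1) y) • (Qm (U.E (i + 1)) (y (i + 1)) (y (i + 2)) (U.psi y)) := by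
    have h4 := LinearMap.congr_fun hx (U.psi y)
    rw [Module.End.mul_apply, Module.End.mul_apply] at h4
    have h5 : Sc U.E U.P (y 0) (fun k => y (k + 1)) (2 * n + 1) (U.psi y) = lam n y • U.psi y := h1
    rw [h5, map_smul] at h4
    rw [SolA_lam i hi]
    exact h4
  have h6 := (psi_spec (Good.sw h (i := i + 1) (by omega))).2.2 _ h3
  rw [U.sum_Qm, h2, mul_one] at h6
  exact h6

private theorem SolA_upd (y : ℕ → ℂ) :
    (fun k => sw 0 y (k + 1)) = Function.update (fun k => y (k + 1)) 0 (y 0) := by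
  funext k
  rcases eq_or_ne k 0 with h1 | h1
  · rw [h1, sw_right, Function.update_self]
  · rw [sw_of_ne 0 y (by omega) (by omega), Function.update_of_ne h1]

/-- exchange relation for the positions `0`, `1` -/
theorem psi_exch_zero {y : ℕ → ℂ} (h : U.Good y) :
    Qm (U.E 0) (y 0) (y 1) (U.psi y) = (om * y 0 - y 1) • U.psi (sw 0 y) := by
  obtain ⟨h1, h2, h3⟩ := psi_spec h
  have ha : om * y 0 ≠ y 1 := (h.1 0 1 (by omega) (by omega) (by omega)).2
  have hb : om * y 1 ≠ y 0 := (h.1 1 0 (by omega) (by omega) (by omega)).2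
  have hc := Sc_comm U.E U.P (y 0) (fun k => y (k + 1)) (2 * n) U.tlE
    (fun i hi => U.P_E i (by omega)) U.E_P_P ha hb
  have hS : U.S (sw 0 y) =
      Sc U.E U.P (y 1) (Function.update (fun k => y (k + 1)) 0 (y 0)) (2 * n + 1) := by
    unfold S
    rw [sw_left, SolA_upd]
  -- the second operator preserves the line of the fixed vector
  have h4 : U.S y (Sd U.E U.P (y 0) (fun k => y (k + 1)) (2 * n + 1) (U.psi y)) =
      lam n y • (Sd U.E U.P (y 0) (fun k => y (k + 1)) (2 * n + 1) (U.psi y)) := by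
    have h5 := LinearMap.congr_fun hc (U.psi y)
    rw [Module.End.mul_apply, Module.End.mul_apply] at h5
    have h6 : Sc U.E U.P (y 0) (fun k => y (k + 1)) (2 * n + 1) (U.psi y) = lam n y • U.psi y := h1
    rw [h6, map_smul] at h5
    exact h5
  have h7 := h3 _ h4
  obtain ⟨μ, hμ⟩ : ∃ μ : ℂ, μ = ∑ a, Sd U.E U.P (y 0) (fun k => y (k + 1)) (2 * n + 1) (U.psi y) a :=
    ⟨_, rfl⟩
  rw [← hμ] at h7
  have h8 := LinearMap.congr_fun (Sd_eq U.E U.P (y 0) (fun k => y (k + 1)) (2 * n + 1)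
    (U.tlE.idem 0 (by omega))) (U.psi y)
  rw [Module.End.mul_apply, h7, map_smul, LinearMap.smul_apply, Module.End.mul_apply] at h8
  have h8' : μ • (Qm (U.E 0) (y 0) (y 1) (U.psi y)) = ((om * y 0 - y 1) * (om * y 1 - y 0)) •
      (U.S (sw 0 y) (Qm (U.E 0) (y 0) (y 1) (U.psi y))) := by
    rw [hS]
    exact h8
  have hs0 : ∑ a, Qm (U.E 0) (y 0) (y 1) (U.psi y) a = om * y 0 - y 1 := by
    rw [U.sum_Qm, h2, mul_one]
  have hc0 : (om * y 0 - y 1) * (om * y 1 - y 0) ≠ 0 :=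
    mul_ne_zero (sub_ne_zero.2 ha) (sub_ne_zero.2 hb)
  obtain ⟨g, hg⟩ : ∃ g : W → ℂ, g = Qm (U.E 0) (y 0) (y 1) (U.psi y) := ⟨_, rfl⟩
  rw [← hg] at h8' hs0 ⊢
  have h9 : μ = ((om * y 0 - y 1) * (om * y 1 - y 0)) * lam n (sw 0 y) := by
    have h10 := congrArg (fun f : W → ℂ => ∑ a, f a) h8'
    simp only [Pi.smul_apply, smul_eq_mul] at h10
    rw [← Finset.mul_sum, ← Finset.mul_sum, U.sum_S, hs0, ← mul_assoc] at h10
    exact mul_right_cancel₀ (sub_ne_zero.2 ha) h10
  rw [h9, mul_smul] at h8'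
  have h11 : lam n (sw 0 y) • g = U.S (sw 0 y) g := smul_right_injective _ hc0 h8'
  have h12 := (psi_spec (Good.sw h (i := 0) (by omega))).2.2 g h11.symm
  rw [hs0] at h12
  exact h12

theorem psi_exch {y : ℕ → ℂ} (h : U.Good y) {i : ℕ} (hi : i < 2 * n + 1) :
    Qm (U.E i) (y i) (y (i + 1)) (U.psi y) = (om * y i - y (i + 1)) • U.psi (sw i y) := by
  rcases i with _ | i
  · exact psi_exch_zero h
  · exact psi_exch_succ h hi

/-- componentwise form -/
theorem psi_exch_apply {y : ℕ → ℂ} (h : U.Good y) {i : ℕ} (hi : i < 2 * n + 1) (a : W) :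
    (om * y i - y (i + 1)) * U.psi (sw i y) a = (om * y (i + 1) - y i) * U.psi y a +
      om ^ 2 * (y (i + 1) - y i) * ∑ b, (if U.e i b = a then U.psi y b else 0) := by
  have h1 := congrFun (psi_exch h hi) a
  rw [Pi.smul_apply, smul_eq_mul] at h1
  rw [← h1]
  rfl

end Pun

end PX
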