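import Pool.Agent.Lib.MP_216314_pr.W.SolA

/-!
# The normalised solution: rotation, the base component

Proof hints.
* Cm_psi: induction on m: Cm_succ, Module.End.mul_apply, map_smul, psi_exch at the point mv m y (Good.mv) with i = m: mv m y m = y 0, mv m y (m+1) = y (m + 1), sw m (mv m y) = mv (m+1) y.
* psi_rot: psi_spec: S y psi = lam • psi, S = P * Cm .. (2 n + 1), Cm_psi with m = 2 n + 1 (the product is lam n y), P_apply, lam ≠ 0.
* psi_base: psi_exch_apply with a = base: no b with e_i b = base (base_ne).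
* psi_zero: strong induction on K - rk a where K bounds rk (Finset.univ.sup U.rk), statement for all y ∈ Z simultaneously. Take k from U.tri a.
  First: for every k, psi y a = psi (R^k y) (rho^[k] a) with R = mv (2n+1) and R^k y ∈ Z (Z closed under mv m, m ≤ 2n+1, by mv_succ and hsw; psi_rot; induction on k with Function.iterate_succ_apply').
  Case rho^[k] a = base: h0. Case (i): y' = R^k y, a' = rho^[k] a, rk a' = rk a (rk_rho iterated), b0 = e_i a': rk b0 > rk a so psi b0 = 0 at y' and at sw i y';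
  psi_exch_apply at y', b0: om^2 (y'_{i+1} - y'_i) * ∑ ... = 0, y'_{i+1} ≠ y'_i, om ≠ 0, so ∑_{c : e_i c = b0} psi y' c = 0; all c ≠ a' in the sum have rk > rk a, hence vanish: psi y' a' = 0 (Finset.sum_eq_single a').
* psi_base_ne: if psi y base = 0, Z = {y' | Good y' ∧ psi y' base = 0}: closed under sw i by psi_base (om * y i ≠ y (i + 1)); psi_zero contradicts ∑ psi y a = 1.
-/

set_option autoImplicit false

noncomputable section

namespace PX

open Finset

variable {W : Type} [Fintype W] [DecidableEq W] {n : ℕ} {U : Pun n W}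

namespace Pun

theorem Cm_psi {y : ℕ → ℂ} (h : U.Good y) (m : ℕ) (hm : m ≤ 2 * n + 1) :
    Cm U.E (y 0) (fun k => y (k + 1)) m (U.psi y) =
      (∏ k ∈ range m, (om * y 0 - y (k + 1))) • U.psi (mv m y) := by
  induction m with
  | zero =>
    rw [Cm_zero, Module.End.one_apply, Finset.range_zero, Finset.prod_empty, one_smul, mv_zero]
  | succ m ih =>
    have h1 := psi_exch (h.mv (m := m) (by omega)) (i := m) (by omega)
    rw [mv_self, mv_self_succ, ← mv_succ] at h1
    rw [Cm_succ, Module.End.mul_apply, ih (by omega), map_smul, h1, Finset.prod_range_succ,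
      smul_smul]

/-- rotation -/
theorem psi_rot {y : ℕ → ℂ} (h : U.Good y) (a : W) :
    U.psi (mv (2 * n + 1) y) (U.rho a) = U.psi y a := by
  have h1 := (psi_spec h).1
  have h2 : U.S y (U.psi y) = lam n y • U.P (U.psi (mv (2 * n + 1) y)) := by
    unfold S Sc
    rw [Module.End.mul_apply, Cm_psi h (2 * n + 1) le_rfl, map_smul]
    rfl
  rw [h2] at h1
  have h3 := congrFun h1 a
  simp only [Pi.smul_apply, smul_eq_mul] at h3
  have h4 := mul_left_cancel₀ h.lam h3
  rw [P_apply] at h4
  exact h4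

/-- the base component -/
theorem psi_base {y : ℕ → ℂ} (h : U.Good y) {i : ℕ} (hi : i < 2 * n + 1) :
    (om * y i - y (i + 1)) * U.psi (sw i y) U.base = (om * y (i + 1) - y i) * U.psi y U.base := by
  have h1 := psi_exch_apply h hi U.base
  have h2 : ∑ b, (if U.e i b = U.base then U.psi y b else 0) = 0 := by
    refine Finset.sum_eq_zero fun b _ => ?_
    rw [if_neg (U.base_ne i hi b)]
  rw [h2, mul_zero, add_zero] at h1
  exact h1

private theorem SolB_mv_mem (Z : Set (ℕ → ℂ))
    (hsw : ∀ y ∈ Z, ∀ i, i < 2 * n + 1 → sw i y ∈ Z) (y : ℕ → ℂ) (hy : y ∈ Z) (m : ℕ)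
    (hm : m ≤ 2 * n + 1) : mv m y ∈ Z := by
  induction m with
  | zero => rw [mv_zero]; exact hy
  | succ m ih =>
    rw [mv_succ]
    exact hsw _ (ih (by omega)) m (by omega)

private theorem SolB_iter (Z : Set (ℕ → ℂ)) (hZ : ∀ y ∈ Z, U.Good y)
    (hsw : ∀ y ∈ Z, ∀ i, i < 2 * n + 1 → sw i y ∈ Z) (y : ℕ → ℂ) (hy : y ∈ Z) (a : W) (k : ℕ) :
    (mv (2 * n + 1))^[k] y ∈ Z ∧
      U.psi ((mv (2 * n + 1))^[k] y) (U.rho^[k] a) = U.psi y a ∧ U.rk (U.rho^[k] a) = U.rk a := by
  induction k with
  | zero => exact ⟨hy, rfl, rfl⟩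
  | succ k ih =>
    obtain ⟨h1, h2, h3⟩ := ih
    rw [Function.iterate_succ_apply', Function.iterate_succ_apply']
    refine ⟨SolB_mv_mem Z hsw _ h1 _ le_rfl, ?_, ?_⟩
    · rw [psi_rot (hZ _ h1), h2]
    · rw [U.rk_rho, h3]

/-- if a set of generic points is closed under the exchanges and the base component vanishes on it
then all components vanish on it -/
theorem psi_zero (Z : Set (ℕ → ℂ)) (hZ : ∀ y ∈ Z, U.Good y)
    (hsw : ∀ y ∈ Z, ∀ i, i < 2 * n + 1 → sw i y ∈ Z) (h0 : ∀ y ∈ Z, U.psi y U.base = 0) :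
    ∀ y ∈ Z, ∀ a, U.psi y a = 0 := by
  set K := Finset.univ.sup U.rk with hK
  have hle : ∀ a, U.rk a ≤ K := fun a => Finset.le_sup (Finset.mem_univ a)
  have main : ∀ d : ℕ, ∀ a, K - U.rk a = d → ∀ y ∈ Z, U.psi y a = 0 := by
    intro d
    induction d using Nat.strong_induction_on with
    | _ d ih =>
      intro a hd y hy
      have ih' : ∀ c, U.rk a < U.rk c → ∀ y ∈ Z, U.psi y c = 0 := by
        intro c hc y' hy'
        have hcK := hle c
        exact ih (K - U.rk c) (by omega) c rfl y' hy'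
      obtain ⟨k, hk⟩ := U.tri a
      obtain ⟨h1, h2, h3⟩ := SolB_iter Z hZ hsw y hy a k
      rw [← h2]
      rcases hk with hb | ⟨i, hi, hr, hc⟩
      · rw [hb]
        exact h0 _ h1
      · set y' := (mv (2 * n + 1))^[k] y with hy'
        set a' := U.rho^[k] a with ha'
        have e1 := ih' (U.e i a') hr y' h1
        have e2 := ih' (U.e i a') hr (sw i y') (hsw _ h1 i hi)
        have e3 := psi_exch_apply (hZ _ h1) hi (U.e i a')
        rw [e1, e2, mul_zero, mul_zero, zero_add] at e3
        have hne : om ^ 2 * (y' (i + 1) - y' i) ≠ 0 := by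
          refine mul_ne_zero (pow_ne_zero 2 om_ne_zero) (sub_ne_zero.2 ?_)
          exact ((hZ _ h1).1 (i + 1) i (by omega) (by omega) (by omega)).1
        have e4 := (mul_eq_zero.1 e3.symm).resolve_left hne
        rw [Finset.sum_eq_single a'] at e4
        · rw [if_pos rfl] at e4
          exact e4
        · intro b _ hb
          split_ifs with h5
          · rcases hc b h5 with h6 | h6
            · exact absurd h6 hb
            · exact ih' b h6 y' h1
          · rfl
        · intro h5
          exact absurd (Finset.mem_univ _) h5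
  intro y hy a
  exact main _ a rfl y hy

theorem psi_base_ne {y : ℕ → ℂ} (h : U.Good y) : U.psi y U.base ≠ 0 := by
  intro h0
  have h1 := psi_zero (U := U) {y' | U.Good y' ∧ U.psi y' U.base = 0} (fun y' hy' => hy'.1)
    (by
      rintro y' ⟨hg, hb⟩ i hi
      refine ⟨hg.sw hi, ?_⟩
      have h2 := psi_base hg hi
      rw [hb, mul_zero] at h2
      refine (mul_eq_zero.1 h2).resolve_left (sub_ne_zero.2 ?_)
      exact (hg.1 i (i + 1) (by omega) (by omega) (by omega)).2)
    (fun y' hy' => hy'.2) y ⟨h, h0⟩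
  have h2 := (psi_spec h).2.1
  rw [Finset.sum_eq_zero fun a _ => h1 a] at h2
  exact zero_ne_one h2

end Pun

end PX
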