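import Pool.Agent.Lib.MP_216314_pr.W.Link

/-!
# MP_216314_pr: the expected number of boundary points connected to the tip of a wedge is finite if and only if
# `q > 4 cos² (2 π / (n + 4))`, `n π / 4` the angle of the wedge
-/

set_option autoImplicit false

noncomputable section

namespace Pool.Agent.Results.MP_216314_pr.WedgeSusceptibility

open FKW Finset Filter Topology

theorem result (q : ℝ) (hq : 1 ≤ q) (t : Bool) (J a : ℕ) :
    ∃ p : V → ℝ,
      (∀ v, Tendsto (fun m : ℕ → ℕ => prob q (wedge t J m) (0, a, 0) v) atTop (𝓝 (p v))) ∧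
      (4 * Real.cos (2 * Real.pi / (num t J + 4)) ^ 2 < q →
        (∀ k ≤ J + 1, Tendsto (fun m : ℕ → ℕ => ∑ v ∈ far t J m k,
          prob q (wedge t J m) (0, a, 0) v) atTop (𝓝 0)) ∧
        ∃ R N : ℝ, HasSum (fun x : ℕ => p (0, a + 1 + x, 0)) R ∧
          HasSum (fun b : ℕ => p (side t J b)) N ∧
          ∀ g : ℤ → ℝ, (∀ w, g (w + 1) + g (w - 1) = √q * g w) →
            g (-1) * R + g 3 * ∑ x ∈ range a, p (0, x, 0) +
              (if t then g (J + 1) + g (J + 2) else g (J + 2)) * N = g 0 + g 1 + g 2) ∧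
      (q ≤ 4 * Real.cos (2 * Real.pi / (num t J + 4)) ^ 2 →
        ¬ Summable (fun x : ℕ => p (0, a + 1 + x, 0))) := by
  have hp : ∀ (m : ℕ → ℕ) (v : V), prob q (wedge t J m) (0, a, 0) v =
      FKR.pS q (FKR.WS t J m) (0, a, 0) v := by
    intro m v
    rw [prob_eq, wedge_eq]
  have hF : ∀ (m : ℕ → ℕ) (k : ℕ), ∑ v ∈ far t J m k, prob q (wedge t J m) (0, a, 0) v =
      ∑ v ∈ FKR.sideF t J m k, FKR.pS q (FKR.WS t J m) (0, a, 0) v := by
    intro m k
    rw [far_eq]
    exact sum_congr rfl (fun v _ => hp m v)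
  refine ⟨FKR.pinf t J a q, ?_, ?_, ?_⟩
  · intro v
    simp only [hp]
    exact FKR.pinf_tendsto hq v
  · intro h
    obtain ⟨hu, hk⟩ := FKR.conv_cond (t := t) (J := J) hq h
    obtain ⟨h1, R, N, h2, h3, h4⟩ := FKR.conv_main hq hu hk a
    refine ⟨?_, R, N, h2, h3, h4⟩
    intro k hk'
    simp only [hF]
    exact h1 k hk'
  · intro h
    exact FKR.div_all hq h a

end Pool.Agent.Results.MP_216314_pr.WedgeSusceptibility
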